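import Mathlib

/-! A countable vacillating poset with no infinite antichain that fails the 2-chain
Aharoni-Korman property: the order. -/

namespace Pool.Agent.H187Z.AK

inductive P : Type
  | pt (n x y : ℕ) : P
  | blk (n s u : ℕ) (w : ℚ) : P
  | top (n : ℕ) (w : ℚ) : P

open P

def le' : P → P → Prop
  | pt n x y, pt m a b => (n = m ∧ x ≤ a ∧ y ≤ b) ∨
      (n = m + 1 ∧ (min x y < min a b ∨ x + y ≤ 4 * (a + b))) ∨ m + 2 ≤ n
  | pt n x y, blk m s _ _ => (n = m + 1 ∧ min x y < s) ∨ m + 2 ≤ n
  | pt n _ _, top m _ => m + 1 ≤ n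
  | blk m s u _, pt n x y => (n = m ∧ (s < min x y ∨ (s ≤ min x y ∧ u < x + y))) ∨ n < m
  | blk m s u w, blk m' s' u' w' => m' < m ∨ (m = m' ∧ (s < s' ∨ (s = s' ∧ (u < u' ∨
      (u = u' ∧ w ≤ w')))))
  | blk m _ _ _, top m' _ => m' ≤ m
  | top m _, pt n _ _ => n < m
  | top m _, blk m' _ _ _ => m' < m
  | top m w, top m' w' => m' < m ∨ (m = m' ∧ w ≤ w')

theorem le'_refl (a : P) : le' a a := by
  cases a <;> simp [le']

theorem le'_trans (a b c : P) (h1 : le' a b) (h2 : le' b c) : le' a c := by
  cases a <;> cases b <;> cases c <;> simp only [le'] at h1 h2 ⊢ <;>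
    first
    | omega
    | grind

theorem le'_antisymm (a b : P) (h1 : le' a b) (h2 : le' b a) : a = b := by
  cases a <;> cases b <;> simp only [le'] at h1 h2 ⊢ <;>
    first
    | (exfalso; omega)
    | (congr 1 <;> omega)
    | grind

instance : PartialOrder P where
  le := le'
  le_refl := le'_refl
  le_trans := le'_trans
  le_antisymm := le'_antisymm

theorem le_def (a b : P) : a ≤ b ↔ le' a b := Iff.rfl

instance : Countable P := by
  let f : P → (ℕ × ℕ × ℕ) ⊕ (ℕ × ℕ × ℕ × ℚ) ⊕ (ℕ × ℚ) := fun a =>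
    match a with
    | pt n x y => Sum.inl (n, x, y)
    | blk n s u w => Sum.inr (Sum.inl (n, s, u, w))
    | top n w => Sum.inr (Sum.inr (n, w))
  have : Function.Injective f := by
    intro a b h
    cases a <;> cases b <;> simp_all [f]
  exact this.countable

/-- elements of the extra chain -/
def IsE : P → Prop
  | pt _ _ _ => False
  | _ => True

theorem E_total {a b : P} (ha : IsE a) (hb : IsE b) : a ≤ b ∨ b ≤ a := by
  cases a <;> cases b <;> simp only [IsE, le_def, le'] at ha hb ⊢ <;>
    first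
    | omega
    | grind

theorem not_E {a : P} (ha : ¬ IsE a) : ∃ n x y, a = pt n x y := by
  cases a <;> simp [IsE] at ha ⊢

/-- replace the rational coordinate of an element of the extra chain -/
def setw : P → ℚ → P
  | pt n x y, _ => pt n x y
  | blk n s u _, w => blk n s u w
  | top n _, w => top n w

def getw : P → ℚ
  | pt _ _ _ => 0
  | blk _ _ _ w => w
  | top _ w => w

theorem setw_getw (e : P) : setw e (getw e) = e := by cases e <;> rfl

theorem setw_strictMono {e : P} (he : IsE e) : StrictMono (setw e) := by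
  intro w w' h
  cases e with
  | pt n x y => exact absurd he (by simp [IsE])
  | blk n s u v =>
    refine lt_of_le_of_ne ?_ ?_
    · simp [setw, le_def, le', h.le]
    · simp [setw, h.ne]
  | top n v =>
    refine lt_of_le_of_ne ?_ ?_
    · simp [setw, le_def, le', h.le]
    · simp [setw, h.ne]

theorem setw_isE {e : P} (he : IsE e) (w : ℚ) : IsE (setw e w) := by
  cases e <;> simp_all [IsE, setw]

theorem le_setw {e a : P} (h : a ≤ e) (ha : ∀ w, a ≠ setw e w) (w : ℚ) : a ≤ setw e w := by
  have h0 := ha (getw a)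
  cases a <;> cases e <;> simp only [setw, getw, le_def, le'] at h h0 ⊢ <;>
    first
    | omega
    | grind

theorem setw_le {e a : P} (h : e ≤ a) (ha : ∀ w, a ≠ setw e w) (w : ℚ) : setw e w ≤ a := by
  have h0 := ha (getw a)
  cases a <;> cases e <;> simp only [setw, getw, le_def, le'] at h h0 ⊢ <;>
    first
    | omega
    | grind

/-- no infinite antichain -/
theorem fac {A : Set P} (hA : IsAntichain (· ≤ ·) A) : A.Finite := by
  have hlev : ∀ n, {q : ℕ × ℕ | pt n q.1 q.2 ∈ A}.Finite := by
    intro n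
    have h1 : IsAntichain (· ≤ ·) {q : ℕ × ℕ | pt n q.1 q.2 ∈ A} := by
      intro p hp q hq hpq hle
      refine hA hp hq (fun h => hpq ?_) ?_
      · simp only [pt.injEq, true_and] at h
        exact Prod.ext h.1 h.2
      · exact Or.inl ⟨rfl, hle.1, hle.2⟩
    exact h1.finite_of_wellQuasiOrdered wellQuasiOrdered_le
  have hE : {a ∈ A | IsE a}.Subsingleton := by
    intro a ha b hb
    by_contra hne
    rcases E_total ha.2 hb.2 with h | h
    · exact hA ha.1 hb.1 hne h
    · exact hA hb.1 ha.1 (Ne.symm hne) h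
  by_cases h0 : ∃ n x y, pt n x y ∈ A
  · obtain ⟨n, x, y, hn⟩ := h0
    have h2 : (⋃ m ∈ Set.Iic (n + 1), (fun q : ℕ × ℕ => pt m q.1 q.2) ''
        {q : ℕ × ℕ | pt m q.1 q.2 ∈ A}).Finite :=
      (Set.finite_Iic _).biUnion fun m _ => (hlev m).image _
    refine (hE.finite.union h2).subset fun a ha => ?_
    by_cases h3 : IsE a
    · exact Or.inl ⟨ha, h3⟩
    · obtain ⟨m, u, v, rfl⟩ := not_E h3
      right
      simp only [Set.mem_iUnion]
      refine ⟨m, ?_, (u, v), ha, rfl⟩
      by_contra hcon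
      simp only [Set.mem_Iic, not_le] at hcon
      refine hA ha hn (fun h => ?_) (Or.inr (Or.inr hcon))
      simp only [pt.injEq] at h
      omega
  · refine hE.finite.subset fun a ha => ⟨ha, ?_⟩
    by_contra h3
    obtain ⟨m, u, v, rfl⟩ := not_E h3
    exact h0 ⟨m, u, v, ha⟩

end Pool.Agent.H187Z.AK
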