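import Pool.Agent.H187Z.AKA

/-! The poset is vacillating. -/

namespace Pool.Agent.H187Z.AK
open P

theorem ev_const_mono (g : ℕ → ℕ) (hg : Monotone g) (B : ℕ) (hB : ∀ n, g n ≤ B) :
    ∃ N, ∀ n, g (N + n) = g N := by
  have hfin : (Set.range g).Finite := (Set.finite_Iic B).subset (by rintro _ ⟨n, rfl⟩; exact hB n)
  obtain ⟨_, ⟨N, rfl⟩, hN⟩ := hfin.exists_maximal ⟨g 0, 0, rfl⟩
  refine ⟨N, fun n => le_antisymm (hN ⟨N + n, rfl⟩ (hg (by omega))) (hg (by omega))⟩

theorem ev_const_anti (g : ℕ → ℕ) (hg : Antitone g) : ∃ N, ∀ n, g (N + n) = g N := by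
  classical
  have hex : ∃ k, ∃ n, g n = k := ⟨_, 0, rfl⟩
  obtain ⟨N, hN⟩ := Nat.find_spec hex
  refine ⟨N, fun n => le_antisymm (hg (by omega)) ?_⟩
  rw [hN]
  exact Nat.find_min' hex ⟨_, rfl⟩

theorem seq_of_infinite {α : Type} [PartialOrder α] {D : Set α} (hD : IsChain (· ≤ ·) D)
    (hi : D.Infinite) : (∃ s : ℕ → α, StrictMono s ∧ ∀ n, s n ∈ D) ∨
      ∃ s : ℕ → α, StrictAnti s ∧ ∀ n, s n ∈ D := by
  let a : ℕ → α := fun n => (hi.natEmbedding D n : α)
  have ha : ∀ n, a n ∈ D := fun n => (hi.natEmbedding D n).2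
  have hinj : Function.Injective a := fun m n h =>
    (hi.natEmbedding D).injective (Subtype.ext h)
  obtain ⟨g, hg | hg⟩ := exists_increasing_or_nonincreasing_subseq (· < ·) a
  · exact Or.inl ⟨fun n => a (g n), fun m n hmn => hg m n hmn, fun n => ha _⟩
  · refine Or.inr ⟨fun n => a (g n), fun m n hmn => ?_, fun n => ha _⟩
    have hne : a (g m) ≠ a (g n) := fun h => hmn.ne (g.injective (hinj h))
    rcases hD (ha _) (ha _) hne with h | h
    · exact absurd (lt_of_le_of_ne h hne) (hg m n hmn)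
    · exact lt_of_le_of_ne h hne.symm

section sat
variable {C : Set P} (hC : IsChain (· ≤ ·) C)
  (hs : ∀ x, x ∉ C → ∀ y ∈ C, ∀ z ∈ C, y < x → x < z → ¬ IsChain (· ≤ ·) (insert x C))
include hC hs

theorem sat_mem {x y z : P} (hx : ∀ c ∈ C, x ≤ c ∨ c ≤ x) (hy : y ∈ C) (hz : z ∈ C) (h1 : y < x)
    (h2 : x < z) : x ∈ C := by
  by_contra h
  exact hs x h y hy z hz h1 h2 (hC.insert fun c hc _ => hx c hc)

theorem block_in {e y z : P} (he : IsE e) (heC : e ∈ C) (hy : y ∈ C) (hz : z ∈ C) (h1 : y < e)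
    (h2 : e < z) : ∃ w1 w2 : ℚ, w1 < w2 ∧
      ∀ w, w1 < w → w < w2 → setw e w ∈ C ∧ y < setw e w ∧ setw e w < z := by
  have hm := setw_strictMono he
  obtain ⟨w1, hw1, hw1'⟩ : ∃ w1, w1 < getw e ∧ ∀ w, w1 < w → y < setw e w := by
    by_cases h : ∃ w, y = setw e w
    · obtain ⟨w1, rfl⟩ := h
      refine ⟨w1, ?_, fun w hw => hm hw⟩
      rw [← setw_getw e] at h1
      have : setw (setw e (getw e)) w1 = setw e w1 := by rw [setw_getw]
      rw [this] at h1
      exact hm.lt_iff_lt.1 h1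
    · push Not at h
      exact ⟨getw e - 1, by linarith, fun w _ => lt_of_le_of_ne (le_setw h1.le h w) (h w)⟩
  obtain ⟨w2, hw2, hw2'⟩ : ∃ w2, getw e < w2 ∧ ∀ w, w < w2 → setw e w < z := by
    by_cases h : ∃ w, z = setw e w
    · obtain ⟨w2, rfl⟩ := h
      refine ⟨w2, ?_, fun w hw => hm hw⟩
      rw [← setw_getw e] at h2
      have : setw (setw e (getw e)) w2 = setw e w2 := by rw [setw_getw]
      rw [this] at h2
      exact hm.lt_iff_lt.1 h2
    · push Not at h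
      exact ⟨getw e + 1, by linarith, fun w _ => lt_of_le_of_ne (setw_le h2.le h w) (h w).symm⟩
  refine ⟨w1, w2, hw1.trans hw2, fun w ha hb => ⟨?_, hw1' w ha, hw2' w hb⟩⟩
  refine sat_mem hC hs (fun c hc => ?_) hy hz (hw1' w ha) (hw2' w hb)
  by_cases h : ∃ v, c = setw e v
  · obtain ⟨v, rfl⟩ := h
    exact E_total (setw_isE he w) (setw_isE he v)
  · push Not at h
    rcases hC.total hc heC with h3 | h3
    · exact Or.inr (le_setw h3 h w)
    · exact Or.inl (setw_le h3 h w)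

theorem block_seq {e y z : P} (he : IsE e) (heC : e ∈ C) (hy : y ∈ C) (hz : z ∈ C) (h1 : y < e)
    (h2 : e < z) : (∃ s : ℕ → P, StrictMono s ∧ ∀ n, s n ∈ C ∧ s n < z) ∧
      ∃ s : ℕ → P, StrictAnti s ∧ ∀ n, s n ∈ C ∧ y < s n := by
  obtain ⟨w1, w2, hw, h⟩ := block_in hC hs he heC hy hz h1 h2
  have hm := setw_strictMono he
  have hd : 0 < w2 - w1 := by linarith
  have key : ∀ n : ℕ, 0 < (w2 - w1) / (n + 2) ∧ (w2 - w1) / (n + 2) < w2 - w1 := by
    intro n
    refine ⟨by positivity, div_lt_self hd ?_⟩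
    have : (0 : ℚ) ≤ n := Nat.cast_nonneg n
    linarith
  have key2 : ∀ m n : ℕ, m < n → (w2 - w1) / (n + 2) < (w2 - w1) / (m + 2) := by
    intro m n hmn
    have : (m : ℚ) < n := by exact_mod_cast hmn
    exact div_lt_div_of_pos_left hd (by positivity) (by linarith)
  constructor
  · refine ⟨fun n => setw e (w2 - (w2 - w1) / (n + 2)), fun m n hmn => hm ?_, fun n => ?_⟩
    · have := key2 m n hmn
      linarith
    · have := h (w2 - (w2 - w1) / (n + 2)) (by linarith [(key n).2]) (by linarith [(key n).1])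
      exact ⟨this.1, this.2.2⟩
  · refine ⟨fun n => setw e (w1 + (w2 - w1) / (n + 2)), fun m n hmn => hm ?_, fun n => ?_⟩
    · have := key2 m n hmn
      linarith
    · have := h (w1 + (w2 - w1) / (n + 2)) (by linarith [(key n).1]) (by linarith [(key n).2])
      exact ⟨this.1, this.2.1⟩

end sat

def lev : P → ℕ
  | pt n _ _ => 2 * n
  | blk n _ _ _ => 2 * n + 1
  | top n _ => 2 * n + 1

def sm : P → ℕ
  | pt _ x y => x + y
  | _ => 0

theorem lev_anti {a b : P} (h : a ≤ b) : lev b ≤ lev a := by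
  cases a <;> cases b <;> simp only [lev, le_def, le'] at h ⊢ <;> omega

theorem sm_lt {a b : P} (h : a < b) (ha : ¬ IsE a) (hb : ¬ IsE b) (hl : lev a = lev b) :
    sm a < sm b := by
  obtain ⟨n, x, y, rfl⟩ := not_E ha
  obtain ⟨m, u, v, rfl⟩ := not_E hb
  have h1 := h.le
  have h2 := h.ne
  simp only [lev, sm, le_def, le', ne_eq, pt.injEq] at *
  omega

theorem not_typeA {C : Set P} (hC : IsChain (· ≤ ·) C)
    (hs : ∀ x, x ∉ C → ∀ y ∈ C, ∀ z ∈ C, y < x → x < z → ¬ IsChain (· ≤ ·) (insert x C))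
    (f : P → ℕ) (hf : ∀ x ∈ C, ∀ y ∈ C, x ≤ y → f x ≤ f y)
    (hi : ∀ i : ℕ, Set.Infinite {x | x ∈ C ∧ f x = i} ∧
      ¬ ∃ s : ℕ → P, StrictMono s ∧ ∀ n, s n ∈ C ∧ f (s n) = i) : False := by
  have hlt : ∀ a ∈ C, ∀ b ∈ C, f a < f b → a < b := by
    intro a ha b hb hab
    rcases hC.total ha hb with h | h
    · exact lt_of_le_of_ne h (fun h' => by rw [h'] at hab; omega)
    · have := hf b hb a ha h
      omega
  obtain ⟨y, hy, hy'⟩ := (hi 0).1.nonempty
  obtain ⟨z, hz, hz'⟩ := (hi 2).1.nonempty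
  rcases seq_of_infinite (hC.mono fun x hx => hx.1) (hi 1).1 with ⟨s, h1, h2⟩ | ⟨s, h1, h2⟩
  · exact (hi 1).2 ⟨s, h1, h2⟩
  have hys : ∀ n, y < s n := fun n => hlt _ hy _ (h2 n).1 (by rw [hy', (h2 n).2]; omega)
  have hsz : ∀ n, s n < z := fun n => hlt _ (h2 n).1 _ hz (by rw [hz', (h2 n).2]; omega)
  have hE : ∀ n, ¬ IsE (s n) := by
    intro n he
    obtain ⟨⟨t, ht1, ht2⟩, -⟩ := block_seq hC hs he (h2 n).1 hy hz (hys n) (hsz n)
    obtain ⟨N, hN⟩ := ev_const_mono (fun n => f (t n))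
      (fun a b hab => hf _ (ht2 a).1 _ (ht2 b).1 (ht1.monotone hab)) (f z)
      (fun n => hf _ (ht2 n).1 _ hz (ht2 n).2.le)
    exact (hi (f (t N))).2 ⟨fun n => t (N + n), fun a b hab => ht1 (by omega),
      fun n => ⟨(ht2 _).1, hN n⟩⟩
  obtain ⟨N, hN⟩ := ev_const_mono (fun n => lev (s n))
    (fun a b hab => lev_anti (h1.antitone hab)) (lev y) (fun n => lev_anti (hys n).le)
  have key : ∀ k, sm (s (N + k)) + k ≤ sm (s N) := by
    intro k
    induction k with
    | zero => simp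
    | succ k ih =>
      have := sm_lt (h1 (show N + k < N + (k + 1) by omega)) (hE _) (hE _)
        ((hN (k + 1)).trans (hN k).symm)
      omega
  have := key (sm (s N) + 1)
  omega

theorem not_typeB {C : Set P} (hC : IsChain (· ≤ ·) C)
    (hs : ∀ x, x ∉ C → ∀ y ∈ C, ∀ z ∈ C, y < x → x < z → ¬ IsChain (· ≤ ·) (insert x C))
    (f : P → ℕ) (hf : ∀ x ∈ C, ∀ y ∈ C, x ≤ y → f y ≤ f x)
    (hi : ∀ i : ℕ, Set.Infinite {x | x ∈ C ∧ f x = i} ∧
      ¬ ∃ s : ℕ → P, StrictAnti s ∧ ∀ n, s n ∈ C ∧ f (s n) = i) : False := by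
  classical
  have hlt : ∀ a ∈ C, ∀ b ∈ C, f b < f a → a < b := by
    intro a ha b hb hab
    rcases hC.total ha hb with h | h
    · exact lt_of_le_of_ne h (fun h' => by rw [h'] at hab; omega)
    · have := hf b hb a ha h
      omega
  have noE : ∀ e ∈ C, ∀ y ∈ C, ∀ z ∈ C, y < e → e < z → ¬ IsE e := by
    intro e heC y hy z hz h1 h2 he
    obtain ⟨-, t, ht1, ht2⟩ := block_seq hC hs he heC hy hz h1 h2
    obtain ⟨N, hN⟩ := ev_const_mono (fun n => f (t n))
      (fun a b hab => hf _ (ht2 b).1 _ (ht2 a).1 (ht1.antitone hab)) (f y)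
      (fun n => hf _ hy _ (ht2 n).1 (ht2 n).2.le)
    exact (hi (f (t N))).2 ⟨fun n => t (N + n), fun a b hab => ht1 (by omega),
      fun n => ⟨(ht2 _).1, hN n⟩⟩
  obtain ⟨z0, hz0, hz0'⟩ := (hi 0).1.nonempty
  obtain ⟨z, hz, hz'⟩ := (hi 1).1.nonempty
  obtain ⟨y, hy, hy'⟩ := (hi 3).1.nonempty
  rcases seq_of_infinite (hC.mono fun x hx => hx.1) (hi 2).1 with ⟨s, h1, h2⟩ | ⟨s, h1, h2⟩
  swap
  · exact (hi 2).2 ⟨s, h1, h2⟩
  have hys : ∀ n, y < s n := fun n => hlt _ hy _ (h2 n).1 (by rw [hy', (h2 n).2]; omega)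
  have hsz : ∀ n, s n < z := fun n => hlt _ (h2 n).1 _ hz (by rw [hz', (h2 n).2]; omega)
  have hE : ∀ n, ¬ IsE (s n) := fun n => noE _ (h2 n).1 y hy z hz (hys n) (hsz n)
  have hzE : ¬ IsE z := noE z hz y hy z0 hz0 ((hys 0).trans (hsz 0))
    (hlt _ hz _ hz0 (by omega))
  obtain ⟨N, hN⟩ := ev_const_anti (fun n => lev (s n)) (fun a b hab => lev_anti (h1.monotone hab))
  have key : ∀ k, k ≤ sm (s (N + k)) := by
    intro k
    induction k with
    | zero => simp
    | succ k ih =>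
      have := sm_lt (h1 (show N + k < N + (k + 1) by omega)) (hE _) (hE _)
        ((hN k).trans (hN (k + 1)).symm)
      omega
  obtain ⟨m, x0, y0, h0⟩ := not_E (hE N)
  have hpt : ∀ k, ∃ x y, s (N + k) = pt m x y ∧ k ≤ x + y := by
    intro k
    obtain ⟨m', x, y, h⟩ := not_E (hE (N + k))
    have h3 := hN k
    have h4 := key k
    simp only [h, h0, lev, sm] at h3 h4
    exact ⟨x, y, by rw [h]; congr 1; omega, h4⟩
  choose X Y hXY hsum using hpt
  have hmono : ∀ k k', k ≤ k' → X k ≤ X k' ∧ Y k ≤ Y k' := by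
    intro k k' hk
    have := h1.monotone (show N + k ≤ N + k' by omega)
    rw [hXY, hXY] at this
    simp only [le_def, le'] at this
    omega
  have hU : ∀ l a b, (∀ k, s (N + k) ≤ pt l a b) → l < m ∧ (m = l + 1 →
      ∀ k, min (X k) (Y k) < min a b) := by
    intro l a b h
    constructor
    · have h3 := h (a + b + 1)
      have h4 := hsum (a + b + 1)
      rw [hXY] at h3
      simp only [le_def, le'] at h3
      omega
    · intro hm k
      have h3 := h (k + 4 * (a + b) + 1)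
      have h4 := hsum (k + 4 * (a + b) + 1)
      have h5 := hmono k (k + 4 * (a + b) + 1) (by omega)
      rw [hXY] at h3
      simp only [le_def, le'] at h3
      omega
  obtain ⟨l, a, b, rfl⟩ := not_E hzE
  have hlm := (hU l a b fun k => (hsz _).le).1
  obtain ⟨n, rfl⟩ : ∃ n, m = n + 1 := ⟨m - 1, by omega⟩
  have fin : ∀ e z', IsE e → z' ∈ C → e < z' → (∀ k, s (N + k) ≤ e) →
      (∀ l a b, pt l a b ∈ C → (∀ k, s (N + k) ≤ pt l a b) → e ≤ pt l a b) → False := by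
    intro e z' he hz' hez' h3 h4
    have h5 : s (N + 0) < e := lt_of_le_of_ne (h3 0) (fun h => hE _ (h ▸ he))
    have h6 : e ∈ C := by
      refine sat_mem hC hs (fun c hc => ?_) (h2 _).1 hz' h5 hez'
      by_cases hcE : IsE c
      · exact E_total he hcE
      · by_cases hcU : ∀ k, s (N + k) ≤ c
        · obtain ⟨l', a', b', rfl⟩ := not_E hcE
          exact Or.inl (h4 _ _ _ hc hcU)
        · push Not at hcU
          obtain ⟨k, hk⟩ := hcU
          exact Or.inr (((hC.total hc (h2 _).1).resolve_right hk).trans (h3 k))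
    exact noE e h6 _ (h2 _).1 z' hz' h5 hez' he
  by_cases hex : ∃ r, ∃ a b, pt n a b ∈ C ∧ (∀ k, s (N + k) ≤ pt n a b) ∧ min a b = r
  · obtain ⟨r, ⟨a', b', h3, h4, h5⟩, hmin⟩ : ∃ r, (∃ a b, pt n a b ∈ C ∧
        (∀ k, s (N + k) ≤ pt n a b) ∧ min a b = r) ∧ ∀ r', (∃ a b, pt n a b ∈ C ∧
        (∀ k, s (N + k) ≤ pt n a b) ∧ min a b = r') → r ≤ r' :=
      ⟨Nat.find hex, Nat.find_spec hex, fun _ h => Nat.find_min' hex h⟩
    have h6 := (hU n a' b' h4).2 rfl
    have h7 : ∀ l a b, pt l a b ∈ C → (∀ k, s (N + k) ≤ pt l a b) →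
        blk n r 0 0 ≤ pt l a b := by
      intro l' a'' b'' hc hcU
      have h8 := (hU l' a'' b'' hcU).1
      have h9 := h6 0
      simp only [le_def, le']
      by_cases h10 : l' = n
      · subst h10
        have := hmin _ ⟨a'', b'', hc, hcU, rfl⟩
        omega
      · omega
    refine fin (blk n r 0 0) (pt n a' b') trivial h3
      (lt_of_le_of_ne (h7 _ _ _ h3 h4) (by simp)) (fun k => ?_) h7
    rw [hXY]
    have := h6 k
    exact Or.inl ⟨rfl, by omega⟩
  · have h7 : ∀ l a b, pt l a b ∈ C → (∀ k, s (N + k) ≤ pt l a b) → top n 0 ≤ pt l a b := by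
      intro l' a'' b'' hc hcU
      have h8 := (hU l' a'' b'' hcU).1
      simp only [le_def, le']
      by_cases h10 : l' = n
      · subst h10
        exact absurd ⟨_, a'', b'', hc, hcU, rfl⟩ hex
      · omega
    refine fin (top n 0) (pt l a b) trivial hz
      (lt_of_le_of_ne (h7 _ _ _ hz fun k => (hsz _).le) (by simp)) (fun k => ?_) h7
    rw [hXY]
    simp only [le_def, le']
    omega

end Pool.Agent.H187Z.AK
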