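import Pool.Agent.H187Z.AKB

/-! The poset fails the 2-chain property. -/

namespace Pool.Agent.H187Z.AK
open P

variable {β : Type}

structure Sol (C D : Set P) (g : P → β) : Prop where
  cC : IsChain (· ≤ ·) C
  cD : IsChain (· ≤ ·) D
  disj : Disjoint C D
  anti : ∀ a b, g a = g b → a ≤ b → a = b
  h1 : ∀ z, z ∉ C → ∃ d ∈ D, g d = g z
  h2 : ∀ z, z ∉ D → ∃ c ∈ C, g c = g z

theorem Sol.symm {C D : Set P} {g : P → β} (S : Sol C D g) : Sol D C g :=
  ⟨S.cD, S.cC, S.disj.symm, S.anti, S.h2, S.h1⟩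

theorem start {C : Set P} (hC : IsChain (· ≤ ·) C) {n u v : ℕ} (h : pt n u v ∈ C) :
    ∃ u0 v0, pt n u0 v0 ∈ C ∧ ∀ a b, pt n a b ∈ C → u0 ≤ a ∧ v0 ≤ b := by
  classical
  have hex : ∃ k, ∃ a b, pt n a b ∈ C ∧ a + b = k := ⟨_, u, v, h, rfl⟩
  obtain ⟨u0, v0, h0, h1⟩ := Nat.find_spec hex
  refine ⟨u0, v0, h0, fun a b hab => ?_⟩
  have h2 := Nat.find_min' hex ⟨a, b, hab, rfl⟩
  rw [← h1] at h2
  have h3 := hC.total h0 hab
  simp only [le_def, le'] at h3
  omega

theorem same_sum {C : Set P} (hC : IsChain (· ≤ ·) C) {n a b u v : ℕ} (h : pt n u v ∈ C)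
    (h' : pt n a b ∈ C) (hs : u + v = a + b) : pt n u v = pt n a b := by
  have h3 := hC.total h h'
  simp only [le_def, le'] at h3
  congr 1 <;> omega

theorem finite_box (n N : ℕ) : {z | ∃ m x y, z = pt m x y ∧ m ≤ n ∧ x ≤ N ∧ y ≤ N}.Finite := by
  have : ((fun q : ℕ × ℕ × ℕ => pt q.1 q.2.1 q.2.2) ''
      (Set.Iic n ×ˢ Set.Iic N ×ˢ Set.Iic N)).Finite :=
    ((Set.finite_Iic n).prod ((Set.finite_Iic N).prod (Set.finite_Iic N))).image _
  refine this.subset ?_
  rintro _ ⟨m, x, y, rfl, h1, h2, h3⟩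
  exact ⟨(m, x, y), ⟨h1, h2, h3⟩, rfl⟩

section
variable {C D : Set P} {g : P → β} (S : Sol C D g)
include S

theorem block {n u0 v0 : ℕ} (h0 : pt n u0 v0 ∈ C)
    (hmin : ∀ a b, pt n a b ∈ C → u0 ≤ a ∧ v0 ≤ b) (w0 : ℚ) :
    blk n (min u0 v0) (u0 + v0) w0 ∈ D := by
  have hCB : ∀ w, blk n (min u0 v0) (u0 + v0) w ∉ C := by
    intro w hw
    have := S.cC.total h0 hw
    simp only [le_def, le'] at this
    omega
  by_contra hw0
  obtain ⟨d, hd, hgd⟩ := S.h1 _ (hCB w0)
  have hne : d ≠ blk n (min u0 v0) (u0 + v0) w0 := fun h => hw0 (h ▸ hd)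
  have h1 : ¬ d ≤ blk n (min u0 v0) (u0 + v0) w0 := fun h => hne (S.anti _ _ hgd h)
  have h2 : ¬ blk n (min u0 v0) (u0 + v0) w0 ≤ d := fun h => hne (S.anti _ _ hgd.symm h).symm
  have hdE : ¬ IsE d := fun h => by
    rcases E_total h (show IsE (blk n (min u0 v0) (u0 + v0) w0) from trivial) with h | h
    · exact h1 h
    · exact h2 h
  obtain ⟨m, x, y, rfl⟩ := not_E hdE
  have hDB : ∀ w, blk n (min u0 v0) (u0 + v0) w ∉ D := by
    intro w hw
    rcases S.cD.total hd hw with h | h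
    · exact h1 h
    · exact h2 h
  choose c hc hgc using fun w => S.h2 _ (hDB w)
  have hinj : Function.Injective c := by
    intro w w' h
    have h3 : g (blk n (min u0 v0) (u0 + v0) w) = g (blk n (min u0 v0) (u0 + v0) w') := by
      rw [← hgc, ← hgc, h]
    rcases E_total (show IsE (blk n (min u0 v0) (u0 + v0) w) from trivial)
      (show IsE (blk n (min u0 v0) (u0 + v0) w') from trivial) with h4 | h4
    · simpa using S.anti _ _ h3 h4
    · simpa using (S.anti _ _ h3.symm h4).symm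
  refine Set.infinite_of_injective_forall_mem hinj (fun w => ?_)
    (finite_box (n + 1) (4 * (u0 + v0)))
  have hne : c w ≠ blk n (min u0 v0) (u0 + v0) w := fun h => hCB w (h ▸ hc w)
  have h3 : ¬ c w ≤ blk n (min u0 v0) (u0 + v0) w := fun h => hne (S.anti _ _ (hgc w) h)
  have h4 : ¬ blk n (min u0 v0) (u0 + v0) w ≤ c w :=
    fun h => hne (S.anti _ _ (hgc w).symm h).symm
  have hcE : ¬ IsE (c w) := fun h => by
    rcases E_total h (show IsE (blk n (min u0 v0) (u0 + v0) w) from trivial) with h | h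
    · exact h3 h
    · exact h4 h
  obtain ⟨l, a, b, hl⟩ := not_E hcE
  have h5 := hc w
  rw [hl] at h3 h4 h5
  refine ⟨l, a, b, hl, ?_⟩
  have h6 := S.cC.total h0 h5
  simp only [le_def, le'] at h3 h4 h6
  by_cases h7 : l = n
  · subst h7
    have := hmin a b h5
    omega
  · omega

theorem desc {n u v : ℕ} (h : pt n u v ∈ C) : ∃ N, ∀ x y,
    (pt (n + 1) x y ∈ C ∨ pt (n + 1) x y ∈ D) → min x y < min u v ∨ x + y ≤ N := by
  obtain ⟨u0, v0, h0, hmin⟩ := start S.cC h
  have h1 := hmin u v h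
  refine ⟨4 * (u0 + v0), fun x y hxy => ?_⟩
  rcases hxy with hxy | hxy
  · have := S.cC.total h0 hxy
    simp only [le_def, le'] at this
    omega
  · have := S.cD.total (block S h0 hmin 0) hxy
    simp only [le_def, le'] at this
    omega

theorem not_all_inf (hinf : ∀ n N, ∃ x y, (pt n x y ∈ C ∨ pt n x y ∈ D) ∧ N < x + y) : False := by
  have key : ∀ r n u v, (pt n u v ∈ C ∨ pt n u v ∈ D) → min u v < r → False := by
    intro r
    induction r with
    | zero => intro n u v _ h; omega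
    | succ r ih =>
      intro n u v h hr
      rcases h with h | h
      · obtain ⟨N, hN⟩ := desc S h
        obtain ⟨x, y, h1, h2⟩ := hinf (n + 1) N
        have := hN x y h1
        exact ih _ x y h1 (by omega)
      · obtain ⟨N, hN⟩ := desc S.symm h
        obtain ⟨x, y, h1, h2⟩ := hinf (n + 1) N
        have := hN x y h1.symm
        exact ih _ x y h1 (by omega)
  obtain ⟨x, y, h, -⟩ := hinf 0 0
  exact key _ 0 x y h (Nat.lt_succ_self _)

end

/-- the diagonal chain of level `n` -/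
def κ (n t : ℕ) : P := pt n ((t + 1) / 2) (t / 2)

theorem κ_inj {C D : Set P} {g : P → β} (S : Sol C D g) (n : ℕ) :
    Function.Injective fun t => g (κ n t) := by
  have key : ∀ t t', t ≤ t' → g (κ n t) = g (κ n t') → t = t' := by
    intro t t' h hg
    have := S.anti _ _ hg (Or.inl ⟨rfl, by omega, by omega⟩)
    simp only [κ, pt.injEq] at this
    omega
  intro t t' h
  rcases le_total t t' with h1 | h1
  · exact key _ _ h1 h
  · exact (key _ _ h1 h.symm).symm

theorem up_infinite {C D : Set P} {g : P → β} (S : Sol C D g) {n N : ℕ}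
    (hfin : ∀ x y, (pt n x y ∈ C ∨ pt n x y ∈ D) → x + y ≤ N) :
    {t | ∃ x y, (pt (n + 1) x y ∈ C ∨ pt (n + 1) x y ∈ D) ∧
      g (pt (n + 1) x y) = g (κ n t)}.Infinite := by
  classical
  intro hup
  have hF : {t | ∃ x y, (pt n x y ∈ C ∨ pt n x y ∈ D) ∧ g (pt n x y) = g (κ n t)}.Finite := by
    refine (((finite_box n N).image g).preimage (κ_inj S n).injOn).subset ?_
    rintro t ⟨x, y, h1, h2⟩
    have := hfin x y h1
    exact ⟨pt n x y, ⟨n, x, y, rfl, le_rfl, by omega, by omega⟩, h2⟩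
  obtain ⟨M, hM⟩ := (hup.union hF).bddAbove
  have key : ∀ t, M < t → ∃ x y, (pt (n - 1) x y ∈ C ∨ pt (n - 1) x y ∈ D) ∧ 4 * (x + y) < t ∧
      g (pt (n - 1) x y) = g (κ n t) := by
    intro t ht
    have hn1 : ¬ ∃ x y, (pt (n + 1) x y ∈ C ∨ pt (n + 1) x y ∈ D) ∧
      g (pt (n + 1) x y) = g (κ n t) := fun h => by
        have := hM (Or.inl h : t ∈ _ ∪ _)
        omega
    have hn0 : ¬ ∃ x y, (pt n x y ∈ C ∨ pt n x y ∈ D) ∧ g (pt n x y) = g (κ n t) := fun h => by
        have := hM (Or.inr h : t ∈ _ ∪ _)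
        omega
    have hκC : κ n t ∉ C := fun h => hn0 ⟨_, _, Or.inl h, rfl⟩
    have hκD : κ n t ∉ D := fun h => hn0 ⟨_, _, Or.inr h, rfl⟩
    obtain ⟨d, hd, hgd⟩ := S.h1 _ hκC
    obtain ⟨c, hc, hgc⟩ := S.h2 _ hκD
    have hcd : c ≠ d := fun h => Set.disjoint_left.1 S.disj hc (h ▸ hd)
    obtain ⟨e, he, heE, hge⟩ : ∃ e, (e ∈ C ∨ e ∈ D) ∧ ¬ IsE e ∧ g e = g (κ n t) := by
      by_cases h : IsE c
      · refine ⟨d, Or.inr hd, fun h' => ?_, hgd⟩
        rcases E_total h h' with h1 | h1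
        · exact hcd (S.anti _ _ (hgc.trans hgd.symm) h1)
        · exact hcd (S.anti _ _ (hgd.trans hgc.symm) h1).symm
      · exact ⟨c, Or.inl hc, h, hgc⟩
    obtain ⟨m, x, y, rfl⟩ := not_E heE
    have hm0 : m ≠ n := fun h => hn0 ⟨x, y, h ▸ he, h ▸ hge⟩
    have hm1 : m ≠ n + 1 := fun h => hn1 ⟨x, y, h ▸ he, h ▸ hge⟩
    have hne : pt m x y ≠ κ n t := by simp [κ, hm0]
    have h1 : ¬ pt m x y ≤ κ n t := fun h => hne (S.anti _ _ hge h)
    have h2 : ¬ κ n t ≤ pt m x y := fun h => hne (S.anti _ _ hge.symm h).symm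
    simp only [κ, le_def, le'] at h1 h2
    have hm : m = n - 1 := by omega
    subst hm
    exact ⟨x, y, he, by omega, hge⟩
  choose! X Y hXY hlt hg using key
  have hcard := Finset.card_le_card_of_injOn (s := Finset.Ioc M (2 * M + 5))
    (t := Finset.range (M + 4))
    (fun t => 2 * (X t + Y t) + if pt (n - 1) (X t) (Y t) ∈ C then 1 else 0) ?_ ?_
  · simp at hcard
    omega
  · intro t ht
    simp only [Finset.coe_Ioc, Set.mem_Ioc] at ht
    have := hlt t ht.1
    simp only [Finset.coe_range, Set.mem_Iio]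
    split_ifs <;> omega
  · intro t ht t' ht' h
    simp only [Finset.coe_Ioc, Set.mem_Ioc] at ht ht'
    apply κ_inj S n
    show g (κ n t) = g (κ n t')
    rw [← hg t ht.1, ← hg t' ht'.1]
    congr 1
    simp only at h
    split_ifs at h with h1 h2 h2
    · exact same_sum S.cC h1 h2 (by omega)
    · omega
    · omega
    · exact same_sum S.cD ((hXY t ht.1).resolve_left h1) ((hXY t' ht'.1).resolve_left h2) (by omega)

open Classical in
theorem core {C D : Set P} {g : P → β} (S : Sol C D g) {n u0 v0 : ℕ}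
    (h0 : pt (n + 1) u0 v0 ∈ D) (hmin : ∀ a b, pt (n + 1) a b ∈ D → u0 ≤ a ∧ v0 ≤ b)
    (hT : {t | ∃ x y, pt (n + 1) x y ∈ D ∧ g (pt (n + 1) x y) = g (κ n t)}.Infinite) (B : ℕ)
    (H : ∀ R, ∃ p q, pt (n + 1) p q ∈ D ∧ R < p ∧ R < q ∧ ∃ a b : ℕ → ℕ,
      (∀ t, u0 + v0 ≤ t → t ≤ p + q → a t + b t = t ∧ min u0 v0 ≤ min (a t) (b t) ∧ a t ≤ p ∧
        b t ≤ q ∧ (min (a t) (b t) ≤ min u0 v0 ∨ R < a t ∨ R < b t)) ∧
      (∀ t t', u0 + v0 ≤ t → t ≤ t' → t' ≤ p + q → a t ≤ a t' ∧ b t ≤ b t') ∧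
      ((Finset.Icc (u0 + v0) (p + q)).filter (fun t => pt (n + 1) (a t) (b t) ∈ C)).card ≤ B) :
    False := by
  obtain ⟨T, hT1, hT2⟩ := (hT.diff (Set.finite_Iic (2 * min u0 v0 + 1))).exists_subset_card_eq
    (B + 1)
  have hT3 : ∀ t ∈ T, ∃ x y, pt (n + 1) x y ∈ D ∧ g (pt (n + 1) x y) = g (κ n t) :=
    fun t ht => (hT1 ht).1
  have hT4 : ∀ t ∈ T, 2 * min u0 v0 + 1 < t := fun t ht => by simpa using (hT1 ht).2
  choose! X Y hXY hg using hT3
  have hfin : (⋃ t ∈ (T : Set ℕ), {z | g z = g (κ n t)}).Finite :=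
    T.finite_toSet.biUnion fun t _ => fac fun a ha b hb hab h =>
      hab (S.anti _ _ (ha.trans hb.symm) h)
  obtain ⟨R, hR⟩ := (hfin.image sm).bddAbove
  have hR' : ∀ t ∈ T, ∀ x y, g (pt (n + 1) x y) = g (κ n t) → x + y ≤ R := by
    intro t ht x y h
    exact hR ⟨pt (n + 1) x y, Set.mem_biUnion ht h, rfl⟩
  obtain ⟨p, q, hpq, hp, hq, a, b, h1, h2, h3⟩ := H R
  have key : ∀ t, u0 + v0 ≤ t → t ≤ p + q → pt (n + 1) (a t) (b t) ∉ C →
      ∃ x y, pt (n + 1) x y ∈ D ∧ x + y ≤ p + q ∧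
        g (pt (n + 1) x y) = g (pt (n + 1) (a t) (b t)) := by
    intro t ht ht' hC
    obtain ⟨d, hd, hgd⟩ := S.h1 _ hC
    obtain ⟨e1, e2, e3, e4, -⟩ := h1 t ht ht'
    by_cases hde : d = pt (n + 1) (a t) (b t)
    · exact ⟨a t, b t, hde ▸ hd, by omega, rfl⟩
    have h4 : ¬ d ≤ pt (n + 1) (a t) (b t) := fun h => hde (S.anti _ _ hgd h)
    have h5 : ¬ pt (n + 1) (a t) (b t) ≤ d := fun h => hde (S.anti _ _ hgd.symm h).symm
    have h6 := S.cD.total hd h0
    have h7 := S.cD.total hd hpq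
    cases d with
    | pt m x y =>
      simp only [le_def, le'] at h4 h5 h6 h7
      have hm : m = n + 1 := by omega
      subst hm
      exact ⟨x, y, hd, by omega, hgd⟩
    | blk m s u w =>
      simp only [le_def, le'] at h4 h5 h6 h7
      omega
    | top m w =>
      simp only [le_def, le'] at h4 h5 h6 h7
      omega
  choose! x y hxy hle hgxy using key
  set I := Finset.Icc (u0 + v0) (p + q) with hI
  have hJ : T.image (fun t => X t + Y t) ⊆ I := by
    intro s hs
    obtain ⟨t, ht, rfl⟩ := Finset.mem_image.1 hs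
    have e1 := hmin _ _ (hXY t ht)
    have e2 := hR' t ht _ _ (hg t ht)
    rw [hI, Finset.mem_Icc]
    omega
  have hJc : (T.image (fun t => X t + Y t)).card = B + 1 := by
    rw [Finset.card_image_of_injOn, hT2]
    intro t ht t' ht' h
    apply κ_inj S n
    show g (κ n t) = g (κ n t')
    rw [← hg t ht, ← hg t' ht', same_sum S.cD (hXY t ht) (hXY t' ht') h]
  have hc1 := Finset.card_le_card_of_injOn
    (s := I.filter (fun t => ¬ pt (n + 1) (a t) (b t) ∈ C))
    (t := I \ T.image (fun t => X t + Y t)) (fun t => x t + y t) ?_ ?_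
  · have e1 := Finset.card_filter_add_card_filter_not (s := I)
      (fun t => pt (n + 1) (a t) (b t) ∈ C)
    rw [Finset.card_sdiff_of_subset hJ, hJc] at hc1
    have e2 := Finset.card_le_card hJ
    omega
  · intro t ht
    simp only [hI, Finset.coe_filter, Finset.mem_Icc, Set.mem_ofPred_eq] at ht
    obtain ⟨⟨ht1, ht2⟩, ht3⟩ := ht
    simp only [Finset.coe_sdiff, Set.mem_diff, Finset.mem_coe, hI, Finset.mem_Icc,
      Finset.mem_image, not_exists, not_and]
    have e1 := hmin _ _ (hxy t ht1 ht2 ht3)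
    refine ⟨⟨by omega, hle t ht1 ht2 ht3⟩, fun t' ht' h => ?_⟩
    have e2 : g (pt (n + 1) (a t) (b t)) = g (κ n t') := by
      rw [← hgxy t ht1 ht2 ht3, ← hg t' ht', same_sum S.cD (hXY t' ht') (hxy t ht1 ht2 ht3) h]
    have e3 := hR' t' ht' _ _ e2
    have e4 := hT4 t' ht'
    obtain ⟨-, -, -, -, e5⟩ := h1 t ht1 ht2
    have e6 := S.anti _ _ e2 (Or.inr (Or.inl ⟨rfl, Or.inl (by omega)⟩))
    simp [κ] at e6
  · intro t ht t' ht' h
    simp only [hI, Finset.coe_filter, Finset.mem_Icc, Set.mem_ofPred_eq] at ht ht'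
    obtain ⟨⟨ht1, ht2⟩, ht3⟩ := ht
    obtain ⟨⟨ht1', ht2'⟩, ht3'⟩ := ht'
    have e2 : g (pt (n + 1) (a t) (b t)) = g (pt (n + 1) (a t') (b t')) := by
      rw [← hgxy t ht1 ht2 ht3, ← hgxy t' ht1' ht2' ht3',
        same_sum S.cD (hxy t ht1 ht2 ht3) (hxy t' ht1' ht2' ht3') h]
    have e3 := (h1 t ht1 ht2).1
    have e4 := (h1 t' ht1' ht2').1
    rcases le_total t t' with h4 | h4
    · have := S.anti _ _ e2 (Or.inl ⟨rfl, h2 t t' ht1 h4 ht2'⟩)
      simp only [pt.injEq] at this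
      omega
    · have := S.anti _ _ e2.symm (Or.inl ⟨rfl, h2 t' t ht1' h4 ht2⟩)
      simp only [pt.injEq] at this
      omega

theorem tight {C D : Set P} {g : P → β} (S : Sol C D g) {n : ℕ}
    (hT : {t | ∃ x y, pt (n + 1) x y ∈ D ∧ g (pt (n + 1) x y) = g (κ n t)}.Infinite) : False := by
  classical
  obtain ⟨t0, x0, y0, h00, -⟩ := hT.nonempty
  obtain ⟨u0, v0, h0, hmin⟩ := start S.cD h00
  set m := min u0 v0 with hm
  set X := {x | pt (n + 1) x m ∈ C} with hX
  set Y := {y | pt (n + 1) m y ∈ C} with hY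
  refine core S h0 hmin hT (X.ncard + Y.ncard + 1) fun R => ?_
  obtain ⟨t, ⟨p, q, hpq, hg⟩, ht⟩ := hT.exists_gt (2 * (R + m + 1))
  have h1 : ¬ pt (n + 1) p q ≤ κ n t := fun h => by simpa [κ] using S.anti _ _ hg h
  have h1' : ¬ (min p q < min ((t + 1) / 2) (t / 2)) :=
    fun h => h1 (Or.inr (Or.inl ⟨rfl, Or.inl h⟩))
  have hp : R + m < p := by omega
  have hq : R + m < q := by omega
  have hpq0 := hmin p q hpq
  refine ⟨p, q, hpq, by omega, by omega, ?_⟩
  have good : (X.Finite ∧ ∀ y, m < y → y < q → pt (n + 1) p y ∉ C) ∨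
      (Y.Finite ∧ ∀ x, m < x → x < p → pt (n + 1) x q ∉ C) := by
    by_cases hXf : X.Finite
    · by_cases hYf : Y.Finite
      · by_contra hcon
        push Not at hcon
        obtain ⟨y, e1, e2, e3⟩ := hcon.1 hXf
        obtain ⟨x, e4, e5, e6⟩ := hcon.2 hYf
        have := S.cC.total e3 e6
        simp only [le_def, le'] at this
        omega
      · refine Or.inl ⟨hXf, fun y e1 e2 e3 => ?_⟩
        obtain ⟨y', e4, e5⟩ := Set.Infinite.exists_gt hYf y
        have := S.cC.total e3 e4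
        simp only [le_def, le'] at this
        omega
    · right
      constructor
      · obtain ⟨x', e4, e5⟩ := Set.Infinite.exists_gt hXf m
        refine (Set.finite_Iic m).subset fun y hy => ?_
        have := S.cC.total hy e4
        simp only [le_def, le'] at this
        simp only [Set.mem_Iic]
        omega
      · intro x e1 e2 e3
        obtain ⟨x', e4, e5⟩ := Set.Infinite.exists_gt hXf x
        have := S.cC.total e3 e4
        simp only [le_def, le'] at this
        omega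
  rcases good with ⟨hXf, hv⟩ | ⟨hYf, hv⟩
  · refine ⟨fun t => min p (t - m), fun t => t - min p (t - m), fun t h1 h2 => by beta_reduce; omega,
      fun t t' h1 h2 h3 => by beta_reduce; omega, ?_⟩
    refine le_trans (Finset.card_le_card (t := insert (p + q) (hXf.toFinset.image (· + m))) ?_) ?_
    · intro s hs
      simp only [Finset.mem_filter, Finset.mem_Icc] at hs
      obtain ⟨⟨e1, e2⟩, e3⟩ := hs
      simp only [Finset.mem_insert, Finset.mem_image, Set.Finite.mem_toFinset]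
      by_cases e4 : s ≤ p + m
      · right
        refine ⟨s - m, ?_, by omega⟩
        have e5 : min p (s - m) = s - m := by omega
        have e6 : s - (s - m) = m := by omega
        rw [e5, e6] at e3
        exact e3
      · left
        by_contra e7
        have e5 : min p (s - m) = p := by omega
        rw [e5] at e3
        exact hv _ (by omega) (by omega) e3
    · have e1 := Finset.card_insert_le (p + q) (hXf.toFinset.image (· + m))
      have e2 := Finset.card_image_le (s := hXf.toFinset) (f := (· + m))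
      rw [← Set.ncard_eq_toFinset_card X hXf] at e2
      omega
  · refine ⟨fun t => t - min q (t - m), fun t => min q (t - m), fun t h1 h2 => by beta_reduce; omega,
      fun t t' h1 h2 h3 => by beta_reduce; omega, ?_⟩
    refine le_trans (Finset.card_le_card (t := insert (p + q) (hYf.toFinset.image (· + m))) ?_) ?_
    · intro s hs
      simp only [Finset.mem_filter, Finset.mem_Icc] at hs
      obtain ⟨⟨e1, e2⟩, e3⟩ := hs
      simp only [Finset.mem_insert, Finset.mem_image, Set.Finite.mem_toFinset]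
      by_cases e4 : s ≤ q + m
      · right
        refine ⟨s - m, ?_, by omega⟩
        have e5 : min q (s - m) = s - m := by omega
        have e6 : s - (s - m) = m := by omega
        rw [e5, e6] at e3
        exact e3
      · left
        by_contra e7
        have e5 : min q (s - m) = q := by omega
        rw [e5] at e3
        exact hv _ (by omega) (by omega) e3
    · have e1 := Finset.card_insert_le (p + q) (hYf.toFinset.image (· + m))
      have e2 := Finset.card_image_le (s := hYf.toFinset) (f := (· + m))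
      rw [← Set.ncard_eq_toFinset_card Y hYf] at e2
      omega

theorem no_sol {C D : Set P} {g : P → β} (S : Sol C D g) : False := by
  refine not_all_inf S fun n N => ?_
  by_contra hcon
  push Not at hcon
  have h := up_infinite S hcon
  have h1 : {t | ∃ x y, (pt (n + 1) x y ∈ C ∨ pt (n + 1) x y ∈ D) ∧
      g (pt (n + 1) x y) = g (κ n t)} ⊆
      {t | ∃ x y, pt (n + 1) x y ∈ C ∧ g (pt (n + 1) x y) = g (κ n t)} ∪
      {t | ∃ x y, pt (n + 1) x y ∈ D ∧ g (pt (n + 1) x y) = g (κ n t)} := by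
    rintro t ⟨x, y, h2 | h2, h3⟩
    · exact Or.inl ⟨x, y, h2, h3⟩
    · exact Or.inr ⟨x, y, h2, h3⟩
  rcases Set.infinite_union.1 (h.mono h1) with h2 | h2
  · exact tight S.symm h2
  · exact tight S h2

end Pool.Agent.H187Z.AK
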