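import Mathlib

/-! Definitions for the k-chain Aharoni-Korman property. -/

namespace Pool.Agent.H187Z.AK

/-- Finite antichain condition: every antichain is finite. -/
def FAC (α : Type) [PartialOrder α] : Prop :=
  ∀ A : Set α, IsAntichain (· ≤ ·) A → A.Finite

/-- A saturated chain: a chain `C` such that no `x ∉ C` with `y < x < z` for some `y, z ∈ C`
has `C ∪ {x}` still a chain. -/
def IsSaturatedChain {α : Type} [PartialOrder α] (C : Set α) : Prop :=
  IsChain (· ≤ ·) C ∧
    ¬ ∃ x, x ∉ C ∧ ∃ y ∈ C, ∃ z ∈ C, y < x ∧ x < z ∧ IsChain (· ≤ ·) (insert x C)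

/-- `γ` is isomorphic to a linear sum, indexed by `ω`, of infinite co-wellfounded posets
(posets with no infinite strictly increasing sequence). -/
def IsOmegaSum (γ : Type) [PartialOrder γ] : Prop :=
  ∃ (ι : ℕ → Type) (_ : ∀ i, PartialOrder (ι i)),
    (∀ i, Infinite (ι i) ∧ ¬ ∃ s : ℕ → ι i, StrictMono s) ∧ Nonempty (γ ≃o Σₗ i, ι i)

/-- Vacillating: for no saturated chain `C` is `C` or its reverse such a linear sum. -/
def Vacillating (α : Type) [PartialOrder α] : Prop :=
  ¬ ∃ C : Set α, IsSaturatedChain C ∧ (IsOmegaSum C ∨ IsOmegaSum (C : Type)ᵒᵈ)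

/-- Property `AK_k`: `k` pairwise disjoint chains and a partition into antichains such that each
part `A` meets at least `min(|A|, k)` of the chains. -/
def HasAK (α : Type) [PartialOrder α] (k : ℕ) : Prop :=
  ∃ C : Fin k → Set α, (∀ j, IsChain (· ≤ ·) (C j)) ∧ Pairwise (fun i j => Disjoint (C i) (C j)) ∧
    ∃ 𝒜 : Set (Set α), Setoid.IsPartition 𝒜 ∧ ∀ A ∈ 𝒜, IsAntichain (· ≤ ·) A ∧
      min A.encard (k : ℕ∞) ≤ {j : Fin k | (C j ∩ A).Nonempty}.encard

end Pool.Agent.H187Z.AK
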