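import Pool.Agent.H187Z.AKC
import Pool.Agent.H187Z.AKDefs

namespace Pool.Agent.H187Z.AK

theorem other {α : Type} {C : Fin 2 → Set α} {A : Set α} {z : α} (hz : z ∈ A) {i j : Fin 2}
    (hij : ∀ k, k = i ∨ k = j) (hi : z ∉ C i)
    (h : min A.encard ((2 : ℕ) : ℕ∞) ≤ {k : Fin 2 | (C k ∩ A).Nonempty}.encard) :
    ∃ d ∈ C j, d ∈ A := by
  by_contra hcon
  have h1 : {k : Fin 2 | (C k ∩ A).Nonempty} ⊆ {i} := by
    intro k hk
    rcases hij k with h2 | h2
    · exact h2
    · subst h2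
      obtain ⟨d, hd⟩ := hk
      exact absurd ⟨d, hd.1, hd.2⟩ hcon
  have h2 : min A.encard ((2 : ℕ) : ℕ∞) ≤ 1 :=
    h.trans ((Set.encard_le_encard h1).trans (Set.encard_singleton i).le)
  have h3 : A.encard ≤ 1 := by
    rcases min_le_iff.1 h2 with h3 | h3
    · exact h3
    · exact absurd h3 (by decide)
  have h4 : 1 ≤ min A.encard ((2 : ℕ) : ℕ∞) :=
    le_min (Set.one_le_encard_iff_nonempty.2 ⟨z, hz⟩) (by decide)
  obtain ⟨k, hk⟩ := Set.one_le_encard_iff_nonempty.1 (h4.trans h)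
  have h5 : k = i := h1 hk
  subst h5
  obtain ⟨d, hd⟩ := hk
  rw [Set.encard_le_one_iff.1 h3 d z hd.2 hz] at hd
  exact hi hd.1

theorem fail {β : Type} (C : Fin 2 → Set P) (hC : ∀ j, IsChain (· ≤ ·) (C j))
    (hd : Pairwise (fun i j => Disjoint (C i) (C j))) (g : P → β)
    (h : ∀ z, IsAntichain (· ≤ ·) {x | g x = g z} ∧
      min (Set.encard {x | g x = g z}) ((2 : ℕ) : ℕ∞) ≤
        Set.encard {j : Fin 2 | (C j ∩ {x | g x = g z}).Nonempty}) : False := by
  refine no_sol (C := C 0) (D := C 1) (g := g) ⟨hC 0, hC 1, hd (by decide), ?_, ?_, ?_⟩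
  · intro a b hab hle
    by_contra hne
    exact (h b).1 hab rfl hne hle
  · intro z hz
    exact other (A := {x | g x = g z}) rfl (i := 0) (j := 1) (by decide) hz (h z).2
  · intro z hz
    exact other (A := {x | g x = g z}) rfl (i := 1) (j := 0) (by decide) hz (h z).2

theorem not_hasAK : ¬ HasAK P 2 := by
  rintro ⟨C, hC, hd, 𝒜, hp, h⟩
  choose cls hcls using fun z => (hp.2 z).exists
  have huniq : ∀ z, ∀ A ∈ 𝒜, z ∈ A → A = cls z := fun z A hA hz =>
    (hp.2 z).unique ⟨hA, hz⟩ (hcls z)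
  refine fail C hC hd cls fun z => ?_
  have : {x | cls x = cls z} = cls z := by
    ext x
    exact ⟨fun hx => (hx : cls x = cls z) ▸ (hcls x).2,
      fun hx => (huniq x _ (hcls z).1 hx).symm⟩
  rw [this]
  exact h _ (hcls z).1

theorem omega_data {γ : Type} [PartialOrder γ] (h : IsOmegaSum γ) : ∃ f : γ → ℕ, Monotone f ∧
    ∀ i, {x | f x = i}.Infinite ∧ ¬ ∃ s : ℕ → γ, StrictMono s ∧ ∀ n, f (s n) = i := by
  obtain ⟨ι, inst, h1, ⟨e⟩⟩ := h
  refine ⟨fun x => (ofLex (e x)).1, fun x y hxy => ?_, fun i => ⟨?_, ?_⟩⟩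
  · have := e.monotone hxy
    rcases Sigma.Lex.le_def.1 this with h2 | ⟨h2, -⟩
    · exact h2.le
    · exact h2.le
  · have := (h1 i).1
    refine Set.infinite_of_injective_forall_mem
      (f := fun a : ι i => e.symm (toLex ⟨i, a⟩)) (fun a b hab => ?_) (fun a => by simp)
    simpa using hab
  · rintro ⟨s, hs1, hs2⟩
    have h3 : ∀ n, ∃ a : ι i, e (s n) = toLex ⟨i, a⟩ := by
      intro n
      have h4 : (ofLex (e (s n))).1 = i := hs2 n
      generalize e (s n) = q at h4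
      obtain ⟨j, a⟩ := q
      have h5 : j = i := h4
      subst h5
      exact ⟨a, rfl⟩
    choose a ha using h3
    refine (h1 i).2 ⟨a, fun m n hmn => ?_⟩
    have h4 := e.strictMono (hs1 hmn)
    rw [ha, ha] at h4
    rcases Sigma.Lex.lt_def.1 h4 with h5 | ⟨h5, h6⟩
    · exact absurd h5 (lt_irrefl _)
    · exact h6

theorem vacillating : Vacillating P := by
  classical
  rintro ⟨C, ⟨hC, hs⟩, h⟩
  have hs' : ∀ x, x ∉ C → ∀ y ∈ C, ∀ z ∈ C, y < x → x < z → ¬ IsChain (· ≤ ·) (insert x C) :=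
    fun x hx y hy z hz h1 h2 h3 => hs ⟨x, hx, y, hy, z, hz, h1, h2, h3⟩
  rcases h with h | h
  · obtain ⟨f, hf, hi⟩ := omega_data h
    refine not_typeA hC hs' (fun x => if hx : x ∈ C then f ⟨x, hx⟩ else 0) ?_ fun i => ⟨?_, ?_⟩
    · intro x hx y hy hxy
      simp only [dif_pos hx, dif_pos hy]
      exact hf hxy
    · refine ((hi i).1.image Subtype.val_injective.injOn).mono ?_
      rintro _ ⟨x, hx, rfl⟩
      exact ⟨x.2, by simpa using hx⟩
    · rintro ⟨s, h1, h2⟩
      refine (hi i).2 ⟨fun n => ⟨s n, (h2 n).1⟩, fun a b hab => h1 hab, fun n => ?_⟩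
      have := (h2 n).2
      simpa only [dif_pos (h2 n).1] using this
  · obtain ⟨f, hf, hi⟩ := omega_data h
    refine not_typeB hC hs' (fun x => if hx : x ∈ C then f (OrderDual.toDual ⟨x, hx⟩) else 0) ?_
      fun i => ⟨?_, ?_⟩
    · intro x hx y hy hxy
      simp only [dif_pos hx, dif_pos hy]
      exact hf hxy
    · refine ((hi i).1.image (f := fun x => ((OrderDual.ofDual x : C) : P))
        (fun a _ b _ hab => Subtype.val_injective hab)).mono ?_
      rintro _ ⟨x, hx, rfl⟩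
      refine ⟨(OrderDual.ofDual x).2, ?_⟩
      simp only [dif_pos (OrderDual.ofDual x).2]
      exact hx
    · rintro ⟨s, h1, h2⟩
      refine (hi i).2 ⟨fun n => OrderDual.toDual ⟨s n, (h2 n).1⟩, fun a b hab => h1 hab,
        fun n => ?_⟩
      have := (h2 n).2
      simpa only [dif_pos (h2 n).1] using this

theorem main : ∃ (α : Type) (_ : PartialOrder α), Countable α ∧ FAC α ∧ Vacillating α ∧
    ¬ HasAK α 2 :=
  ⟨P, inferInstance, inferInstance, fun _ => fac, vacillating, not_hasAK⟩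

end Pool.Agent.H187Z.AK
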