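import Mathlib

/-! Bounded measurable functions, the lazy averaging operator, and its basic identities. -/

set_option linter.unusedSectionVars false

namespace Pool.Agent.H187Z.EA
open MeasureTheory Filter Topology

section BM
@[fun_prop]
def BM {X : Type*} [MeasurableSpace X] (φ : X → ℝ) : Prop :=
  Measurable φ ∧ ∃ C : ℝ, ∀ x, |φ x| ≤ C

variable {X : Type*} {mX : MeasurableSpace X}

@[fun_prop] theorem BM.const (c : ℝ) : BM (fun _ : X => c) := ⟨measurable_const, |c|, fun _ => le_rfl⟩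

@[fun_prop] theorem BM.add {f g : X → ℝ} (hf : BM f) (hg : BM g) : BM (fun x => f x + g x) := by
  obtain ⟨mf, C, hC⟩ := hf
  obtain ⟨mg, D, hD⟩ := hg
  exact ⟨mf.add mg, C + D, fun x => (abs_add_le _ _).trans (add_le_add (hC x) (hD x))⟩

@[fun_prop] theorem BM.neg {f : X → ℝ} (hf : BM f) : BM (fun x => - f x) := by
  obtain ⟨mf, C, hC⟩ := hf
  exact ⟨mf.neg, C, fun x => by simpa using hC x⟩

@[fun_prop] theorem BM.sub {f g : X → ℝ} (hf : BM f) (hg : BM g) : BM (fun x => f x - g x) := by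
  simpa [sub_eq_add_neg] using hf.add hg.neg

@[fun_prop] theorem BM.mul {f g : X → ℝ} (hf : BM f) (hg : BM g) : BM (fun x => f x * g x) := by
  obtain ⟨mf, C, hC⟩ := hf
  obtain ⟨mg, D, hD⟩ := hg
  refine ⟨mf.mul mg, C * D, fun x => ?_⟩
  rw [abs_mul]
  exact mul_le_mul (hC x) (hD x) (abs_nonneg _) ((abs_nonneg _).trans (hC x))

@[fun_prop] theorem BM.div_const {f : X → ℝ} (hf : BM f) (c : ℝ) : BM (fun x => f x / c) := by
  simpa [div_eq_mul_inv] using hf.mul (BM.const c⁻¹)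

@[fun_prop] theorem BM.pow {f : X → ℝ} (hf : BM f) (n : ℕ) : BM (fun x => f x ^ n) := by
  induction n with
  | zero => simpa using BM.const (X := X) 1
  | succ n ih => simpa [pow_succ] using ih.mul hf

@[fun_prop] theorem BM.abs {f : X → ℝ} (hf : BM f) : BM (fun x => |f x|) := by
  obtain ⟨mf, C, hC⟩ := hf
  exact ⟨mf.abs, C, fun x => by simpa using hC x⟩

@[fun_prop] theorem BM.max {f g : X → ℝ} (hf : BM f) (hg : BM g) :
    BM (fun x => max (f x) (g x)) := by
  obtain ⟨mf, C, hC⟩ := hf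
  obtain ⟨mg, D, hD⟩ := hg
  refine ⟨mf.max mg, Max.max C D, fun x => ?_⟩
  rcases le_total (f x) (g x) with h | h
  · simp only [max_eq_right h]; exact (hD x).trans (le_max_right _ _)
  · simp only [max_eq_left h]; exact (hC x).trans (le_max_left _ _)

@[fun_prop] theorem BM.sum {ι : Type*} (s : Finset ι) {f : ι → X → ℝ} (hf : ∀ i ∈ s, BM (f i)) :
    BM (fun x => ∑ i ∈ s, f i x) := by
  classical
  induction s using Finset.induction_on with
  | empty => simpa using BM.const (X := X) 0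
  | insert a s ha ih =>
    simp only [Finset.sum_insert ha]
    exact (hf a (Finset.mem_insert_self _ _)).add
      (ih fun i hi => hf i (Finset.mem_insert_of_mem hi))

@[fun_prop] theorem BM.comp {Y : Type*} {mY : MeasurableSpace Y} {f : X → ℝ} (hf : BM f) {g : Y → X}
    (hg : Measurable g) : BM (fun y => f (g y)) := by
  obtain ⟨mf, C, hC⟩ := hf
  exact ⟨mf.comp hg, C, fun y => hC _⟩

theorem BM.integrable {f : X → ℝ} (hf : BM f) (μ : Measure X) [IsFiniteMeasure μ] :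
    Integrable f μ := by
  obtain ⟨mf, C, hC⟩ := hf
  exact Integrable.of_bound mf.aestronglyMeasurable C (Eventually.of_forall hC)

theorem BM.meas {f : X → ℝ} (hf : BM f) : Measurable f := hf.1

theorem BM.indicator {f : X → ℝ} (hf : BM f) {s : Set X} (hs : MeasurableSet s) :
    BM (s.indicator f) := by
  obtain ⟨mf, C, hC⟩ := hf
  refine ⟨mf.indicator hs, C, fun x => ?_⟩
  by_cases h : x ∈ s
  · simpa [h] using hC x
  · simpa [h] using (abs_nonneg _).trans (hC x)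

end BM

section Avg
variable {X I : Type*} [Fintype I]

/-- Lazy averaging operator: stay with probability one half, otherwise move by a uniform `τ s`. -/
noncomputable def avg (τ : I → X → X) : Module.End ℝ (X → ℝ) where
  toFun Φ := fun x => Φ x / 2 + (∑ s, Φ (τ s x)) / (2 * Fintype.card I)
  map_add' Φ Ψ := by
    funext x
    simp only [Pi.add_apply, Finset.sum_add_distrib]
    ring
  map_smul' c Φ := by
    funext x
    simp only [Pi.smul_apply, smul_eq_mul, RingHom.id_apply, ← Finset.mul_sum]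
    ring

theorem avg_apply (τ : I → X → X) (Φ : X → ℝ) (x : X) :
    avg τ Φ x = Φ x / 2 + (∑ s, Φ (τ s x)) / (2 * Fintype.card I) := rfl

theorem avg_mono (τ : I → X → X) {Φ Ψ : X → ℝ} (h : ∀ x, Φ x ≤ Ψ x) (x : X) :
    avg τ Φ x ≤ avg τ Ψ x := by
  rw [avg_apply, avg_apply]
  have h1 : ∑ s, Φ (τ s x) ≤ ∑ s, Ψ (τ s x) := Finset.sum_le_sum fun s _ => h _
  have h2 := h x
  gcongr

theorem avg_const [Nonempty I] (τ : I → X → X) (c : ℝ) : avg τ (fun _ => c) = fun _ => c := by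
  funext x
  have : (0 : ℝ) < Fintype.card I := by exact_mod_cast Fintype.card_pos
  rw [avg_apply]
  simp only [Finset.sum_const, Finset.card_univ, nsmul_eq_mul]
  field_simp
  ring

theorem avg_pow_mono (τ : I → X → X) (n : ℕ) {Φ Ψ : X → ℝ} (h : ∀ x, Φ x ≤ Ψ x) (x : X) :
    (avg τ ^ n) Φ x ≤ (avg τ ^ n) Ψ x := by
  induction n generalizing x with
  | zero => simpa using h x
  | succ n ih =>
    rw [pow_succ', Module.End.mul_apply, Module.End.mul_apply]
    exact avg_mono τ ih x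

theorem avg_pow_const [Nonempty I] (τ : I → X → X) (n : ℕ) (c : ℝ) :
    (avg τ ^ n) (fun _ => c) = fun _ => c := by
  induction n with
  | zero => simp
  | succ n ih => rw [pow_succ', Module.End.mul_apply, ih, avg_const]

theorem avg_pow_abs_le [Nonempty I] (τ : I → X → X) (n : ℕ) {Φ : X → ℝ} {C : ℝ}
    (h : ∀ x, |Φ x| ≤ C) (x : X) : |(avg τ ^ n) Φ x| ≤ C := by
  rw [abs_le]
  constructor
  · have := avg_pow_mono τ n (Φ := fun _ => -C) (Ψ := Φ) (fun x => (abs_le.1 (h x)).1) x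
    rwa [avg_pow_const] at this
  · have := avg_pow_mono τ n (Ψ := fun _ => C) (Φ := Φ) (fun x => (abs_le.1 (h x)).2) x
    rwa [avg_pow_const] at this

theorem abs_avg_pow_le (τ : I → X → X) (n : ℕ) (Φ : X → ℝ) (x : X) :
    |(avg τ ^ n) Φ x| ≤ (avg τ ^ n) (fun y => |Φ y|) x := by
  rw [abs_le]
  constructor
  · have := avg_pow_mono τ n (Φ := - fun y => |Φ y|) (Ψ := Φ) (fun x => neg_abs_le _) x
    rwa [map_neg] at this
  · exact avg_pow_mono τ n (fun x => le_abs_self _) x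

variable [MeasurableSpace X]

theorem BM.avg {τ : I → X → X} (hτ : ∀ s, Measurable (τ s)) {Φ : X → ℝ} (h : BM Φ) :
    BM (avg τ Φ) := by
  have h1 : ∀ s, BM (fun x => Φ (τ s x)) := fun s => h.comp (hτ s)
  change BM (fun x => Φ x / 2 + (∑ s, Φ (τ s x)) / (2 * Fintype.card I))
  exact (h.div_const 2).add ((BM.sum _ fun s _ => h1 s).div_const _)

theorem BM.avg_pow {τ : I → X → X} (hτ : ∀ s, Measurable (τ s)) {Φ : X → ℝ} (h : BM Φ) (n : ℕ) :
    BM ((EA.avg τ ^ n) Φ) := by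
  induction n with
  | zero => simpa using h
  | succ n ih => rw [pow_succ', Module.End.mul_apply]; exact ih.avg hτ

/-- The symmetric measure preserving setting. -/
structure Sym (ν : Measure X) (τ : I → X → X) (fl : I ≃ I) : Prop where
  mp : ∀ s, MeasurePreserving (τ s) ν ν
  inv : ∀ s x, τ s (τ (fl s) x) = x

variable {ν : Measure X} [IsProbabilityMeasure ν] {τ : I → X → X} {fl : I ≃ I}

theorem Sym.meas (H : Sym ν τ fl) (s : I) : Measurable (τ s) := (H.mp s).measurable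

theorem Sym.int_comp (H : Sym ν τ fl) (s : I) {Φ : X → ℝ} (h : BM Φ) :
    ∫ x, Φ (τ s x) ∂ν = ∫ x, Φ x ∂ν := by
  have := integral_map (μ := ν) (H.meas s).aemeasurable (f := Φ)
    (h.meas.aestronglyMeasurable)
  rw [← this, (H.mp s).map_eq]

theorem Sym.adj (H : Sym ν τ fl) {Φ Ψ : X → ℝ} (hΦ : BM Φ) (hΨ : BM Ψ) :
    ∫ x, avg τ Φ x * Ψ x ∂ν = ∫ x, Φ x * avg τ Ψ x ∂ν := by
  have h1 : ∀ s, BM (fun x => Φ (τ s x)) := fun s => hΦ.comp (H.meas s)
  have hm := H.meas
  have key : ∀ s, ∫ x, Φ (τ s x) * Ψ x ∂ν = ∫ x, Φ x * Ψ (τ (fl s) x) ∂ν := by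
    intro s
    rw [← H.int_comp (fl s) ((h1 s).mul hΨ)]
    simp only [H.inv]
  have e1 : ∀ x, avg τ Φ x * Ψ x
      = Φ x * Ψ x / 2 + (∑ s, Φ (τ s x) * Ψ x) / (2 * Fintype.card I) := by
    intro x; rw [avg_apply, ← Finset.sum_mul]; ring
  have e2 : ∀ x, Φ x * avg τ Ψ x
      = Φ x * Ψ x / 2 + (∑ s, Φ x * Ψ (τ s x)) / (2 * Fintype.card I) := by
    intro x; rw [avg_apply, ← Finset.mul_sum]; ring
  simp only [e1, e2]
  rw [integral_add (BM.integrable (by fun_prop) ν) (BM.integrable (by fun_prop) ν),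
    integral_add (BM.integrable (by fun_prop) ν) (BM.integrable (by fun_prop) ν),
    integral_div, integral_div, integral_div,
    integral_finsetSum _ (fun s _ => BM.integrable (by fun_prop) ν),
    integral_finsetSum _ (fun s _ => BM.integrable (by fun_prop) ν)]
  simp only [key]
  rw [Equiv.sum_comp fl (fun s => ∫ x, Φ x * Ψ (τ s x) ∂ν)]

theorem Sym.int_avg [Nonempty I] (H : Sym ν τ fl) {Φ : X → ℝ} (hΦ : BM Φ) :
    ∫ x, avg τ Φ x ∂ν = ∫ x, Φ x ∂ν := by
  have := H.adj hΦ (BM.const 1)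
  simpa [avg_const] using this

theorem Sym.cross_le (H : Sym ν τ fl) (s : I) {Φ : X → ℝ} (hΦ : BM Φ) :
    |∫ x, Φ (τ s x) * Φ x ∂ν| ≤ ∫ x, Φ x ^ 2 ∂ν := by
  have hm := H.meas
  have h2 : ∫ x, Φ (τ s x) ^ 2 ∂ν = ∫ x, Φ x ^ 2 ∂ν := H.int_comp s (hΦ.pow 2)
  have h3 : ∫ x, (Φ (τ s x) ^ 2 + Φ x ^ 2) / 2 ∂ν = ∫ x, Φ x ^ 2 ∂ν := by
    rw [integral_div, integral_add (BM.integrable (by fun_prop) ν) (BM.integrable (by fun_prop) ν),
      h2]
    ring
  rw [← h3]
  refine (abs_integral_le_integral_abs).trans ?_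
  refine integral_mono (BM.integrable (by fun_prop) ν) (BM.integrable (by fun_prop) ν) fun x => ?_
  dsimp only
  rw [abs_le]
  constructor <;> nlinarith [sq_nonneg (Φ (τ s x) + Φ x), sq_nonneg (Φ (τ s x) - Φ x)]

theorem Sym.form [Nonempty I] (H : Sym ν τ fl) {Φ : X → ℝ} (hΦ : BM Φ) :
    0 ≤ ∫ x, avg τ Φ x * Φ x ∂ν ∧ ∫ x, avg τ Φ x * Φ x ∂ν ≤ ∫ x, Φ x ^ 2 ∂ν := by
  have hm := H.meas
  have e1 : ∀ x, avg τ Φ x * Φ x
      = Φ x ^ 2 / 2 + (∑ s, Φ (τ s x) * Φ x) / (2 * Fintype.card I) := by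
    intro x; rw [avg_apply, ← Finset.sum_mul]; ring
  simp only [e1]
  rw [integral_add (BM.integrable (by fun_prop) ν) (BM.integrable (by fun_prop) ν),
    integral_div, integral_div,
    integral_finsetSum _ (fun s _ => BM.integrable (by fun_prop) ν)]
  have hc : (0 : ℝ) < Fintype.card I := by exact_mod_cast Fintype.card_pos
  have h2 : |∑ s, ∫ x, Φ (τ s x) * Φ x ∂ν| ≤ Fintype.card I * ∫ x, Φ x ^ 2 ∂ν := by
    refine (Finset.abs_sum_le_sum_abs _ _).trans ?_
    refine (Finset.sum_le_sum fun s _ => H.cross_le s hΦ).trans ?_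
    simp
  have h3 : |(∑ s, ∫ x, Φ (τ s x) * Φ x ∂ν) / (2 * Fintype.card I)| ≤ (∫ x, Φ x ^ 2 ∂ν) / 2 := by
    rw [abs_div, abs_of_pos (by positivity : (0 : ℝ) < 2 * Fintype.card I), div_le_iff₀ (by positivity)]
    linarith
  rw [abs_le] at h3
  constructor <;> linarith [h3.1, h3.2]

theorem Sym.pow_pair (H : Sym ν τ fl) {Φ : X → ℝ} (hΦ : BM Φ) (a b : ℕ) :
    ∫ x, (avg τ ^ a) Φ x * (avg τ ^ b) Φ x ∂ν = ∫ x, (avg τ ^ (a + b)) Φ x * Φ x ∂ν := by
  induction b generalizing a with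
  | zero => simp
  | succ b ih =>
    rw [pow_succ' _ b, Module.End.mul_apply,
      ← H.adj (hΦ.avg_pow H.meas a) (hΦ.avg_pow H.meas b)]
    have := ih (a + 1)
    rw [pow_succ' _ a, Module.End.mul_apply] at this
    rw [this, show a + 1 + b = a + (b + 1) by ring]

end Avg

end Pool.Agent.H187Z.EA
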