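import Pool.Agent.H187Z.EA1

/-! Stein's square function bound, the Hopf maximal inequality, and almost sure convergence of
the powers of the lazy averaging operator. -/

set_option linter.unusedSectionVars false

namespace Pool.Agent.H187Z.EA
open MeasureTheory Filter Topology Finset

theorem stein_seq (m : ℕ → ℝ) (hD : ∀ k, 0 ≤ m (k + 2) - 2 * m (k + 1) + m k) (a : ℕ)
    (h0 : 0 ≤ m (2 * a)) (h1 : m (2 * a + 1) ≤ m (2 * a)) :
    ∑ j ∈ range a, ((j : ℝ) + 1) * (m (2 * j + 2) - 2 * m (2 * j + 1) + m (2 * j)) ≤ m 0 := by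
  have e : ∀ n : ℕ, ∑ k ∈ range n, ((k : ℝ) + 1) * (m (k + 2) - 2 * m (k + 1) + m k)
      = m 0 - m n + n * (m (n + 1) - m n) := by
    intro n
    induction n with
    | zero => simp
    | succ n ih => rw [sum_range_succ, ih]; push_cast; ring
  have c : ∀ a : ℕ, ∑ j ∈ range a, ((j : ℝ) + 1) * (m (2 * j + 2) - 2 * m (2 * j + 1) + m (2 * j))
      ≤ ∑ k ∈ range (2 * a), ((k : ℝ) + 1) * (m (k + 2) - 2 * m (k + 1) + m k) := by
    intro a
    induction a with
    | zero => simp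
    | succ a ih =>
      rw [sum_range_succ, show 2 * (a + 1) = 2 * a + 1 + 1 by ring, sum_range_succ, sum_range_succ]
      have h2 := hD (2 * a)
      have h3 := hD (2 * a + 1)
      have h4 : (0 : ℝ) ≤ a := Nat.cast_nonneg a
      push_cast
      nlinarith [mul_nonneg h4 h2, mul_nonneg h4 h3]
  refine (c a).trans ?_
  rw [e]
  have h4 : (0 : ℝ) ≤ ((2 * a : ℕ) : ℝ) := Nat.cast_nonneg _
  nlinarith [mul_nonneg h4 (sub_nonneg.2 h1)]

section Meas
variable {X : Type*} [MeasurableSpace X] {ν : Measure X} [IsProbabilityMeasure ν]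

theorem real_iUnion_le (A : ℕ → Set X) (hA : Monotone A) {c : ℝ} (h : ∀ n, ν.real (A n) ≤ c) :
    ν.real (⋃ n, A n) ≤ c := by
  have hc : 0 ≤ c := measureReal_nonneg.trans (h 0)
  rw [measureReal_def, hA.measure_iUnion]
  refine ENNReal.toReal_le_of_le_ofReal hc (iSup_le fun n => ?_)
  rw [← ENNReal.ofReal_toReal (measure_ne_top ν (A n))]
  exact ENNReal.ofReal_le_ofReal (h n)

theorem null_of_forall {A : Set X} (h : ∀ θ : ℝ, 0 < θ → ν.real A ≤ θ) : ν A = 0 := by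
  rw [← measureReal_eq_zero_iff]
  exact le_antisymm (le_of_forall_pos_le_add fun θ hθ => by simpa using h θ hθ) measureReal_nonneg

theorem markov {f : X → ℝ} (hf : BM f) (h0 : ∀ x, 0 ≤ f x) {ε : ℝ} (hε : 0 < ε) :
    ν.real {x | ε ≤ f x} ≤ (∫ x, f x ∂ν) / ε := by
  rw [le_div_iff₀ hε, mul_comm]
  exact mul_meas_ge_le_integral_of_nonneg (Eventually.of_forall h0) (hf.integrable ν) ε

theorem int_abs_le {f : X → ℝ} (hf : BM f) {η : ℝ} (hη : 0 < η) (h : ∫ x, f x ^ 2 ∂ν ≤ η ^ 2) :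
    ∫ x, |f x| ∂ν ≤ η := by
  have h1 : ∫ x, |f x| ∂ν ≤ ∫ x, (f x ^ 2 / (2 * η) + η / 2) ∂ν := by
    refine integral_mono (BM.integrable (by fun_prop) ν) (BM.integrable (by fun_prop) ν) fun x => ?_
    dsimp only
    rw [div_add' _ _ _ (by positivity), le_div_iff₀ (by positivity), ← sq_abs]
    nlinarith [sq_nonneg (|f x| - η)]
  rw [integral_add (BM.integrable (by fun_prop) ν) (BM.integrable (by fun_prop) ν), integral_div]
    at h1
  simp only [integral_const, probReal_univ, smul_eq_mul, one_mul] at h1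
  have h2 : (∫ x, f x ^ 2 ∂ν) / (2 * η) ≤ η / 2 := by
    rw [div_le_iff₀ (by positivity)]; nlinarith
  linarith

end Meas

variable {X I : Type*} [Fintype I] [Nonempty I] [MeasurableSpace X]
  {ν : Measure X} [IsProbabilityMeasure ν] {τ : I → X → X} {fl : I ≃ I}

/-- Garsia's envelope. -/
noncomputable def env (τ : I → X → X) (Φ : X → ℝ) : ℕ → X → ℝ
  | 0 => fun _ => 0
  | n + 1 => fun x => max 0 (Φ x + avg τ (env τ Φ n) x)

theorem env_nonneg (Φ : X → ℝ) (n : ℕ) (x : X) : 0 ≤ env τ Φ n x := by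
  cases n with
  | zero => exact le_rfl
  | succ n => exact le_max_left _ _

theorem env_mono (Φ : X → ℝ) (n : ℕ) (x : X) : env τ Φ n x ≤ env τ Φ (n + 1) x := by
  induction n generalizing x with
  | zero => exact le_max_left _ _
  | succ n ih =>
    change max 0 (Φ x + avg τ (env τ Φ n) x) ≤ max 0 (Φ x + avg τ (env τ Φ (n + 1)) x)
    exact max_le_max le_rfl (add_le_add le_rfl (avg_mono τ ih x))

theorem env_ge (Φ : X → ℝ) (n k : ℕ) (hk : k ≤ n) (x : X) :
    ∑ j ∈ range k, (avg τ ^ j) Φ x ≤ env τ Φ n x := by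
  induction n generalizing k x with
  | zero =>
    obtain rfl : k = 0 := by omega
    simp [env]
  | succ n ih =>
    cases k with
    | zero => simpa using env_nonneg Φ _ x
    | succ k =>
      refine le_trans ?_ (le_max_right _ _)
      rw [sum_range_succ']
      have h1 := avg_mono τ (Φ := ∑ j ∈ range k, (avg τ ^ j) Φ) (Ψ := env τ Φ n)
        (fun y => by simpa [Finset.sum_apply] using ih k (by omega) y) x
      rw [map_sum, Finset.sum_apply] at h1
      simp only [pow_succ', Module.End.mul_apply, pow_zero, Module.End.one_apply]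
      linarith

theorem env_BM (H : Sym ν τ fl) {Φ : X → ℝ} (hΦ : BM Φ) (n : ℕ) : BM (env τ Φ n) := by
  induction n with
  | zero => exact BM.const 0
  | succ n ih => exact (BM.const 0).max (hΦ.add (ih.avg H.meas))

theorem hopf (H : Sym ν τ fl) {Ψ : X → ℝ} (hΨ : BM Ψ) (h0 : ∀ x, 0 ≤ Ψ x) {l : ℝ} (hl : 0 < l)
    (n : ℕ) : ν.real {x | ∃ k ≤ n, l * k < ∑ j ∈ range k, (avg τ ^ j) Ψ x} ≤ (∫ x, Ψ x ∂ν) / l := by
  set Φ : X → ℝ := fun x => Ψ x - l with hΦdef
  have hΦ : BM Φ := hΨ.sub (BM.const l)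
  have hW := env_BM H hΦ (n + 1)
  set W := env τ Φ (n + 1) with hWdef
  have hTW : BM (avg τ W) := hW.avg H.meas
  have hsub : {x | ∃ k ≤ n, l * k < ∑ j ∈ range k, (avg τ ^ j) Ψ x}
      ⊆ {x | l ≤ Ψ x + avg τ W x - W x} := by
    rintro x ⟨k, hk, hx⟩
    have h1 := env_ge (τ := τ) Φ (n + 1) k (by omega) x
    have h2 : ∀ j, (avg τ ^ j) Φ x = (avg τ ^ j) Ψ x - l := by
      intro j
      have : Φ = Ψ - fun _ => l := rfl
      rw [this, map_sub, avg_pow_const]
      rfl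
    simp only [h2, sum_sub_distrib, sum_const, card_range, nsmul_eq_mul] at h1
    have h3 : 0 < W x := by linarith
    have h4 : W x = max 0 (Φ x + avg τ (env τ Φ n) x) := rfl
    have h5 : W x ≤ Φ x + avg τ (env τ Φ n) x := by
      rcases le_total 0 (Φ x + avg τ (env τ Φ n) x) with h | h
      · rw [h4, max_eq_right h]
      · rw [h4, max_eq_left h] at h3; exact absurd h3 (lt_irrefl _)
    have h6 := avg_mono τ (env_mono (τ := τ) Φ n) x
    change l ≤ Ψ x + avg τ W x - W x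
    have h7 : Φ x = Ψ x - l := rfl
    linarith
  have hnn : ∀ x, 0 ≤ Ψ x + avg τ W x - W x := by
    intro x
    have h4 : W x = max 0 (Φ x + avg τ (env τ Φ n) x) := rfl
    have h6 := avg_mono τ (env_mono (τ := τ) Φ n) x
    have h8 := avg_mono τ (Φ := fun _ => 0) (Ψ := W) (env_nonneg Φ _) x
    rw [avg_const] at h8
    have h7 : Φ x = Ψ x - l := rfl
    have := h0 x
    rcases le_total 0 (Φ x + avg τ (env τ Φ n) x) with h | h
    · rw [h4, max_eq_right h]; linarith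
    · rw [h4, max_eq_left h]; linarith
  refine (measureReal_mono hsub).trans ((markov (by fun_prop) hnn hl).trans (le_of_eq ?_))
  rw [integral_sub (BM.integrable (by fun_prop) ν) (hW.integrable ν),
    integral_add (hΨ.integrable ν) (hTW.integrable ν), H.int_avg hW]
  ring

/-- The moment sequence. -/
noncomputable def mom (ν : Measure X) (τ : I → X → X) (Φ : X → ℝ) (k : ℕ) : ℝ :=
  ∫ x, (avg τ ^ k) Φ x * Φ x ∂ν

theorem mom_diff (H : Sym ν τ fl) {Φ : X → ℝ} (hΦ : BM Φ) (a b : ℕ) :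
    ∫ x, ((avg τ ^ a) Φ x - (avg τ ^ b) Φ x) ^ 2 ∂ν
      = mom ν τ Φ (a + a) - 2 * mom ν τ Φ (a + b) + mom ν τ Φ (b + b) := by
  have ha := hΦ.avg_pow H.meas a
  have hb := hΦ.avg_pow H.meas b
  simp only [mom, ← H.pow_pair hΦ]
  generalize (avg τ ^ a) Φ = A at ha
  generalize (avg τ ^ b) Φ = B at hb
  rw [← integral_const_mul, ← integral_sub (BM.integrable (by fun_prop) ν)
    (BM.integrable (by fun_prop) ν), ← integral_add (BM.integrable (by fun_prop) ν)
    (BM.integrable (by fun_prop) ν)]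
  congr 1; funext x; ring

theorem mom_nonneg (H : Sym ν τ fl) {Φ : X → ℝ} (hΦ : BM Φ) (k : ℕ) : 0 ≤ mom ν τ Φ k := by
  obtain ⟨a, rfl | rfl⟩ := Nat.even_or_odd' k
  · rw [mom, two_mul, ← H.pow_pair hΦ]
    exact integral_nonneg fun x => mul_self_nonneg _
  · rw [mom, show 2 * a + 1 = a + 1 + a by ring, ← H.pow_pair hΦ, pow_succ',
      Module.End.mul_apply]
    exact (H.form (hΦ.avg_pow H.meas a)).1

theorem mom_odd_le (H : Sym ν τ fl) {Φ : X → ℝ} (hΦ : BM Φ) (a : ℕ) :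
    mom ν τ Φ (2 * a + 1) ≤ mom ν τ Φ (2 * a) := by
  rw [mom, mom, show 2 * a + 1 = a + 1 + a by ring, two_mul, ← H.pow_pair hΦ, ← H.pow_pair hΦ,
    pow_succ', Module.End.mul_apply]
  simpa [sq] using (H.form (hΦ.avg_pow H.meas a)).2

theorem mom_convex (H : Sym ν τ fl) {Φ : X → ℝ} (hΦ : BM Φ) (k : ℕ) :
    0 ≤ mom ν τ Φ (k + 2) - 2 * mom ν τ Φ (k + 1) + mom ν τ Φ k := by
  obtain ⟨a, rfl | rfl⟩ := Nat.even_or_odd' k
  · have := mom_diff H hΦ (a + 1) a
    rw [show a + 1 + (a + 1) = 2 * a + 2 by ring, show a + 1 + a = 2 * a + 1 by ring,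
      ← two_mul] at this
    rw [← this]
    exact integral_nonneg fun x => sq_nonneg _
  · have h0 := hΦ.avg_pow H.meas a
    have h1 := hΦ.avg_pow H.meas (a + 1)
    have h2 := hΦ.avg_pow H.meas (a + 2)
    have key := (H.form (Φ := (avg τ ^ (a + 1)) Φ - (avg τ ^ a) Φ) (h1.sub h0)).1
    rw [map_sub, ← Module.End.mul_apply, ← Module.End.mul_apply, ← pow_succ', ← pow_succ'] at key
    rw [mom, mom, mom, show 2 * a + 1 + 2 = a + 2 + (a + 1) by ring,
      show 2 * a + 1 = a + 1 + a by ring, ← H.pow_pair hΦ (a + 2) (a + 1),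
      ← H.pow_pair hΦ (a + 1) a]
    have e1 := H.pow_pair hΦ (a + 2) a
    have e2 := H.pow_pair hΦ (a + 1) (a + 1)
    rw [show a + 2 + a = a + 1 + a + 1 by ring] at e1
    rw [show a + 1 + (a + 1) = a + 1 + a + 1 by ring] at e2
    have e3 : 2 * ∫ x, (avg τ ^ (a + 1 + a + 1)) Φ x * Φ x ∂ν
        = ∫ x, (avg τ ^ (a + 2)) Φ x * (avg τ ^ a) Φ x ∂ν
          + ∫ x, (avg τ ^ (a + 1)) Φ x * (avg τ ^ (a + 1)) Φ x ∂ν := by rw [e1, e2]; ring
    rw [e3]
    simp only [Pi.sub_apply, show a + 1 + 1 = a + 2 from rfl] at key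
    generalize (avg τ ^ a) Φ = A at *
    generalize (avg τ ^ (a + 1)) Φ = B at *
    generalize (avg τ ^ (a + 2)) Φ = C at *
    rw [← integral_add (BM.integrable (by fun_prop) ν)
      (BM.integrable (by fun_prop) ν), ← integral_sub (BM.integrable (by fun_prop) ν)
      (BM.integrable (by fun_prop) ν), ← integral_add (BM.integrable (by fun_prop) ν)
      (BM.integrable (by fun_prop) ν)]
    refine key.trans (le_of_eq ?_)
    congr 1; funext x; ring

theorem mom_anti (H : Sym ν τ fl) {Φ : X → ℝ} (hΦ : BM Φ) : Antitone (mom ν τ Φ) := by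
  refine antitone_nat_of_succ_le fun k => ?_
  obtain ⟨a, rfl | rfl⟩ := Nat.even_or_odd' k
  · exact mom_odd_le H hΦ a
  · have h1 := mom_odd_le H hΦ (a + 1)
    have h2 := mom_convex H hΦ (2 * a + 1)
    rw [show 2 * (a + 1) = 2 * a + 1 + 1 by ring] at h1
    linarith

theorem stein (H : Sym ν τ fl) {Φ : X → ℝ} (hΦ : BM Φ) (n : ℕ) :
    ∫ x, ∑ j ∈ range n, ((j : ℝ) + 1) * ((avg τ ^ (j + 1)) Φ x - (avg τ ^ j) Φ x) ^ 2 ∂ν
      ≤ ∫ x, Φ x ^ 2 ∂ν := by
  rw [integral_finsetSum _ fun j _ => BM.integrable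
    ((BM.const _).mul (((hΦ.avg_pow H.meas (j + 1)).sub (hΦ.avg_pow H.meas j)).pow 2)) ν]
  simp only [integral_const_mul, mom_diff H hΦ]
  have := stein_seq (mom ν τ Φ) (mom_convex H hΦ) n (mom_nonneg H hΦ _) (mom_odd_le H hΦ n)
  refine le_trans (le_of_eq ?_) (this.trans (le_of_eq ?_))
  · refine sum_congr rfl fun j _ => ?_
    rw [show j + 1 + (j + 1) = 2 * j + 2 by ring, show j + 1 + j = 2 * j + 1 by ring, ← two_mul]
  · simp [mom, sq]

theorem abel_id (a : ℕ → ℝ) (k : ℕ) :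
    ((k : ℝ) + 1) * a k
      = ∑ j ∈ range (k + 1), a j + ∑ j ∈ range k, ((j : ℝ) + 1) * (a (j + 1) - a j) := by
  induction k with
  | zero => simp
  | succ k ih =>
    rw [sum_range_succ _ (k + 1), sum_range_succ (fun j : ℕ => ((j : ℝ) + 1) * (a (j + 1) - a j)) k]
    push_cast
    linarith

theorem abel_bound (a b : ℕ → ℝ) (hab : ∀ j, |a j| ≤ b j) {l : ℝ} (hl : 0 < l) {k n : ℕ}
    (hk : k ≤ n) (h1 : ∑ j ∈ range (k + 1), b j ≤ l * (k + 1 : ℕ))
    (h2 : ∑ j ∈ range n, ((j : ℝ) + 1) * (a (j + 1) - a j) ^ 2 ≤ l ^ 2) : |a k| ≤ 2 * l := by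
  have hk0 : (0 : ℝ) < (k : ℝ) + 1 := by positivity
  have e := abel_id a k
  have b1 : |∑ j ∈ range (k + 1), a j| ≤ l * (k + 1) := by
    refine (abs_sum_le_sum_abs _ _).trans ((sum_le_sum fun j _ => hab j).trans ?_)
    simpa using h1
  have b2 : (∑ j ∈ range k, ((j : ℝ) + 1) * (a (j + 1) - a j)) ^ 2
      ≤ (∑ j ∈ range k, ((j : ℝ) + 1)) * ∑ j ∈ range k, ((j : ℝ) + 1) * (a (j + 1) - a j) ^ 2 :=
    sum_sq_le_sum_mul_sum_of_sq_le_mul _ (fun j _ => by positivity) (fun j _ => by positivity)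
      (fun j _ => le_of_eq (by ring))
  have b3 : ∑ j ∈ range k, ((j : ℝ) + 1) ≤ ((k : ℝ) + 1) ^ 2 := by
    have : ∑ j ∈ range k, ((j : ℝ) + 1) ≤ ∑ j ∈ range k, ((k : ℝ) + 1) :=
      sum_le_sum fun j hj => by
        have : (j : ℝ) ≤ k := by exact_mod_cast (mem_range.1 hj).le
        linarith
    simp only [sum_const, card_range, nsmul_eq_mul] at this
    nlinarith
  have b4 : ∑ j ∈ range k, ((j : ℝ) + 1) * (a (j + 1) - a j) ^ 2 ≤ l ^ 2 :=
    (sum_le_sum_of_subset_of_nonneg (range_subset_range.2 hk) fun j _ _ => by positivity).trans h2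
  have b5 : |∑ j ∈ range k, ((j : ℝ) + 1) * (a (j + 1) - a j)| ≤ l * (k + 1) := by
    refine abs_le_of_sq_le_sq' ?_ (by positivity) |> abs_le.2
    refine b2.trans ?_
    calc _ ≤ ((k : ℝ) + 1) ^ 2 * l ^ 2 :=
          mul_le_mul b3 b4 (sum_nonneg fun j _ => by positivity) (by positivity)
      _ = _ := by ring
  have b6 : |((k : ℝ) + 1) * a k| ≤ 2 * l * (k + 1) := by
    rw [e]; refine (abs_add_le _ _).trans ?_; linarith
  rw [abs_mul, abs_of_pos hk0] at b6
  nlinarith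

theorem maximal (H : Sym ν τ fl) {Φ : X → ℝ} (hΦ : BM Φ) {l η : ℝ} (hl : 0 < l) (hη : 0 < η)
    (h : ∫ x, Φ x ^ 2 ∂ν ≤ η ^ 2) (n : ℕ) :
    ν.real {x | ∃ k ≤ n, 2 * l < |(avg τ ^ k) Φ x|} ≤ η / l + η ^ 2 / l ^ 2 := by
  have hsub : {x | ∃ k ≤ n, 2 * l < |(avg τ ^ k) Φ x|} ⊆
      {x | ∃ k ≤ n + 1, l * k < ∑ j ∈ range k, (avg τ ^ j) (fun y => |Φ y|) x} ∪
      {x | l ^ 2 ≤ ∑ j ∈ range n, ((j : ℝ) + 1) * ((avg τ ^ (j + 1)) Φ x - (avg τ ^ j) Φ x) ^ 2} := by
    rintro x ⟨k, hk, hx⟩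
    by_contra hc
    simp only [Set.mem_union, Set.mem_ofPred_eq, not_or, not_exists, not_and, not_lt, not_le] at hc
    have := abel_bound (fun j => (avg τ ^ j) Φ x) (fun j => (avg τ ^ j) (fun y => |Φ y|) x)
      (fun j => abs_avg_pow_le τ j Φ x) hl hk (hc.1 (k + 1) (by omega)) hc.2.le
    linarith
  refine (measureReal_mono hsub).trans ((measureReal_union_le _ _).trans (add_le_add ?_ ?_))
  · refine (hopf H hΦ.abs (fun x => abs_nonneg _) hl (n + 1)).trans ?_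
    gcongr
    exact int_abs_le hΦ hη h
  · refine (markov (BM.sum _ fun j _ => (BM.const _).mul (((hΦ.avg_pow H.meas (j + 1)).sub
      (hΦ.avg_pow H.meas j)).pow 2)) (fun x => sum_nonneg fun j _ => by positivity)
      (by positivity)).trans ?_
    gcongr
    exact (stein H hΦ n).trans h

theorem l2_cauchy (H : Sym ν τ fl) {F : X → ℝ} (hF : BM F) {η : ℝ} (hη : 0 < η) :
    ∃ n, ∀ a ≥ n, ∀ b ≥ n, ∫ x, ((avg τ ^ a) F x - (avg τ ^ b) F x) ^ 2 ∂ν ≤ η := by
  have hb : BddBelow (Set.range (mom ν τ F)) := ⟨0, by rintro _ ⟨k, rfl⟩; exact mom_nonneg H hF k⟩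
  obtain ⟨n, hn⟩ := exists_lt_of_ciInf_lt (f := mom ν τ F)
    (lt_add_of_pos_right (⨅ k, mom ν τ F k) (half_pos hη))
  refine ⟨n, fun a ha b hb' => ?_⟩
  rw [mom_diff H hF]
  have h1 := mom_anti H hF (show n ≤ a + a by omega)
  have h2 := mom_anti H hF (show n ≤ b + b by omega)
  have h3 := ciInf_le hb (a + b)
  linarith

theorem ae_tendsto (H : Sym ν τ fl) {F : X → ℝ} (hF : BM F) :
    ∀ᵐ x ∂ν, ∃ L, Tendsto (fun j => (avg τ ^ j) F x) atTop (𝓝 L) := by
  have key : ∀ l : ℝ, 0 < l →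
      ν {x | ∀ n, ∃ j, 5 * l < |(avg τ ^ (n + j)) F x - (avg τ ^ n) F x|} = 0 := by
    intro l hl
    refine null_of_forall fun θ hθ => ?_
    obtain ⟨η, hη, hη2⟩ : ∃ η : ℝ, 0 < η ∧ η / l + η ^ 2 / l ^ 2 ≤ θ / 2 := by
      refine ⟨l * min 1 (θ / 4), by positivity, ?_⟩
      have h1 : min 1 (θ / 4) ≤ 1 := min_le_left _ _
      have h2 : min 1 (θ / 4) ≤ θ / 4 := min_le_right _ _
      have h3 : 0 < min 1 (θ / 4) := by positivity
      rw [mul_pow, mul_div_cancel_left₀ _ hl.ne', mul_div_cancel_left₀ _ (by positivity)]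
      nlinarith
    obtain ⟨n, hn⟩ := l2_cauchy H hF (η := η ^ 2) (by positivity)
    have hsub : {x | ∀ n, ∃ j, 5 * l < |(avg τ ^ (n + j)) F x - (avg τ ^ n) F x|} ⊆
        ⋃ J : ℕ, {x | ∃ j ≤ J, 5 * l < |(avg τ ^ (n + j)) F x - (avg τ ^ n) F x|} := by
      intro x hx
      obtain ⟨j, hj⟩ := hx n
      exact Set.mem_iUnion.2 ⟨j, j, le_rfl, hj⟩
    refine (measureReal_mono hsub).trans (real_iUnion_le _ ?_ fun J => ?_)
    · intro a b hab x ⟨j, hj, hx⟩
      exact ⟨j, hj.trans hab, hx⟩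
    obtain ⟨b0, hb0⟩ := l2_cauchy H hF (η := θ / 2 * l ^ 2 / (J + 1)) (by positivity)
    set b := max n b0 with hbdef
    have hsub2 : {x | ∃ j ≤ J, 5 * l < |(avg τ ^ (n + j)) F x - (avg τ ^ n) F x|} ⊆
        {x | ∃ k ≤ J, 2 * l < |(avg τ ^ k) ((avg τ ^ n) F - (avg τ ^ b) F) x|} ∪
        ⋃ j ∈ range (J + 1), {x | l ^ 2 ≤ ((avg τ ^ (b + j)) F x - (avg τ ^ b) F x) ^ 2} := by
      rintro x ⟨j, hj, hx⟩
      by_contra hc
      simp only [Set.mem_union, Set.mem_ofPred_eq, not_or, not_exists, not_and, not_lt, not_le,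
        Set.mem_iUnion, mem_range] at hc
      have h1 := hc.1 j hj
      have h2 := hc.1 0 (Nat.zero_le _)
      have h3 := abs_lt_of_sq_lt_sq (hc.2 j (by omega)) hl.le
      rw [map_sub, ← Module.End.mul_apply, ← Module.End.mul_apply, ← pow_add, ← pow_add,
        add_comm j n, add_comm j b] at h1
      simp only [pow_zero, Module.End.one_apply, Pi.sub_apply] at h1 h2
      rw [abs_le] at h1 h2
      rw [abs_lt] at h3
      rw [lt_abs] at hx
      rcases hx with hx | hx <;> linarith [h1.1, h1.2, h2.1, h2.2, h3.1, h3.2]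
    refine (measureReal_mono hsub2).trans ((measureReal_union_le _ _).trans ?_)
    have m1 := maximal H (Φ := (avg τ ^ n) F - (avg τ ^ b) F)
      ((hF.avg_pow H.meas n).sub (hF.avg_pow H.meas b)) hl hη
      (hn n le_rfl b (le_max_left _ _)) J
    have m2 : ν.real (⋃ j ∈ range (J + 1),
        {x | l ^ 2 ≤ ((avg τ ^ (b + j)) F x - (avg τ ^ b) F x) ^ 2}) ≤ θ / 2 := by
      refine (measureReal_biUnion_finset_le _ _).trans ?_
      have : ∀ j ∈ range (J + 1), ν.real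
          {x | l ^ 2 ≤ ((avg τ ^ (b + j)) F x - (avg τ ^ b) F x) ^ 2} ≤ θ / 2 / (J + 1) := by
        intro j _
        refine (markov (((hF.avg_pow H.meas (b + j)).sub (hF.avg_pow H.meas b)).pow 2)
          (fun x => sq_nonneg _) (by positivity)).trans ?_
        rw [div_le_iff₀ (by positivity)]
        refine (hb0 (b + j) (by omega) b (le_max_right _ _)).trans (le_of_eq ?_)
        field_simp
      refine (sum_le_sum this).trans (le_of_eq ?_)
      simp only [sum_const, card_range, nsmul_eq_mul]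
      push_cast
      field_simp
    linarith
  have h2 : ∀ᵐ x ∂ν, ∀ i : ℕ, ¬ ∀ n, ∃ j,
      5 * (1 / ((i : ℝ) + 1)) < |(avg τ ^ (n + j)) F x - (avg τ ^ n) F x| := by
    rw [ae_all_iff]
    intro i
    rw [ae_iff]
    simpa using key (1 / ((i : ℝ) + 1)) (by positivity)
  filter_upwards [h2] with x hx
  refine cauchySeq_tendsto_of_complete (Metric.cauchySeq_iff'.2 fun ε hε => ?_)
  obtain ⟨i, hi⟩ := exists_nat_one_div_lt (K := ℝ) (show 0 < ε / 5 by positivity)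
  have := hx i
  push Not at this
  obtain ⟨n, hn⟩ := this
  refine ⟨n, fun m hm => ?_⟩
  obtain ⟨j, rfl⟩ := Nat.exists_eq_add_of_le hm
  rw [Real.dist_eq]
  linarith [hn j]

end Pool.Agent.H187Z.EA
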