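import Pool.Agent.H187Z.EA2

/-! The lattice, weighted Laplacians, and square summable estimates. -/

set_option linter.unusedSectionVars false

namespace Pool.Agent.H187Z.EA
open MeasureTheory Filter Topology Finset

abbrev V (d : ℕ) := Fin d → ℤ
abbrev Ed (d : ℕ) := V d × Fin d
abbrev Dir (d : ℕ) := Fin d × Bool

variable {d : ℕ}

def ue (i : Fin d) : V d := Pi.single i 1
def uu (s : Dir d) : V d := if s.2 then ue s.1 else - ue s.1
def ed (x : V d) (s : Dir d) : Ed d := if s.2 then (x, s.1) else (x - ue s.1, s.1)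
def mv (s : Dir d) (x : V d) : V d := x + uu s
def flp : Dir d ≃ Dir d := (Equiv.refl _).prodCongr Equiv.boolNot

theorem ue_ne (i : Fin d) : ue i ≠ 0 := by
  intro h
  have := congrFun h i
  simp [ue] at this

theorem uu_flp (s : Dir d) : uu (flp s) = - uu s := by
  obtain ⟨i, b⟩ := s
  cases b <;> simp [uu, flp]

theorem ed_flp (x : V d) (s : Dir d) : ed (x + uu s) (flp s) = ed x s := by
  obtain ⟨i, b⟩ := s
  cases b <;> simp [uu, flp, ed, sub_eq_add_neg]

theorem ed_inj (x : V d) : Function.Injective (ed x) := by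
  rintro ⟨i, b⟩ ⟨j, c⟩ h
  cases b <;> cases c <;> simp only [ed, Prod.mk.injEq, if_true, Bool.false_eq_true, if_false] at h
  · rw [h.2]
  · obtain ⟨h1, rfl⟩ := h
    exact absurd (sub_eq_self.1 h1) (ue_ne _)
  · obtain ⟨h1, rfl⟩ := h
    exact absurd (sub_eq_self.1 h1.symm) (ue_ne _)
  · rw [h.2]

theorem ed_add (x a : V d) (s : Dir d) : ed (x + a) s = ((ed x s).1 + a, (ed x s).2) := by
  obtain ⟨i, b⟩ := s
  cases b <;> simp [ed]
  abel

theorem card_dir : (Fintype.card (Dir d) : ℝ) = 2 * d := by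
  simp [mul_comm]

/-- Weighted Laplacian. -/
def lap (ξ : Ed d → ℝ) (g : V d → ℝ) (x : V d) : ℝ :=
  ∑ s : Dir d, ξ (ed x s) * (g (x + uu s) - g x)

/-- Local energy. -/
def gam (g : V d → ℝ) (x : V d) : ℝ := ∑ s : Dir d, (g (x + uu s) - g x) ^ 2

theorem gam_nonneg (g : V d → ℝ) (x : V d) : 0 ≤ gam g x := sum_nonneg fun _ _ => sq_nonneg _

theorem sq_le_gam (g : V d → ℝ) (x : V d) (s : Dir d) : (g (x + uu s) - g x) ^ 2 ≤ gam g x :=
  single_le_sum (f := fun s => (g (x + uu s) - g x) ^ 2) (fun _ _ => sq_nonneg _) (mem_univ s)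

theorem sum_sq_le_gam (g : V d → ℝ) (x : V d) : ∑ i, (g (x + ue i) - g x) ^ 2 ≤ gam g x := by
  rw [gam, Fintype.sum_prod_type]
  refine sum_le_sum fun i _ => ?_
  simp only [Fintype.univ_bool, mem_singleton, Bool.true_eq_false, not_false_eq_true, sum_insert,
    sum_singleton, uu, if_true]
  linarith [sq_nonneg (g (x + if false = true then ue i else - ue i) - g x)]

/-- The mean one step operator. -/
noncomputable def Pop (ρ : ℝ) : Module.End ℝ (V d → ℝ) :=
  (1 - 2 * d * ρ) • (1 : Module.End ℝ (V d → ℝ)) + (2 * d * ρ) • avg (mv (d := d))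

theorem Pop_apply [NeZero d] (ρ : ℝ) (g : V d → ℝ) (x : V d) :
    Pop ρ g x = g x + lap (fun _ => ρ) g x / 2 := by
  have hd : (d : ℝ) ≠ 0 := by exact_mod_cast NeZero.ne d
  simp only [Pop, LinearMap.add_apply, LinearMap.smul_apply, Module.End.one_apply, Pi.add_apply,
    Pi.smul_apply, smul_eq_mul, avg_apply, card_dir, lap, mv, ← mul_sum, sum_sub_distrib,
    sum_const, card_univ, nsmul_eq_mul]
  field_simp
  ring

theorem lap_sub (ξ : Ed d → ℝ) (ρ : ℝ) (g : V d → ℝ) (x : V d) :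
    lap ξ g x = lap (fun _ => ρ) g x + lap (fun e => ξ e - ρ) g x := by
  simp only [lap, ← sum_add_distrib]
  refine sum_congr rfl fun s _ => by ring

theorem Pop_sq_le [NeZero d] {ρ : ℝ} (h0 : 0 ≤ ρ) (h1 : ρ * d ≤ 1 / 4) (g : V d → ℝ) (x : V d) :
    Pop ρ g x ^ 2 ≤ g x ^ 2 + ρ / 2 * ∑ s : Dir d, (g (x + uu s) ^ 2 - g x ^ 2)
      - 3 / 8 * ρ * gam g x := by
  rw [Pop_apply]
  have e1 : g x * lap (fun _ => ρ) g x
      = ρ / 2 * ∑ s : Dir d, (g (x + uu s) ^ 2 - g x ^ 2) - ρ / 2 * gam g x := by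
    simp only [lap, gam, mul_sum, ← sum_sub_distrib]
    refine sum_congr rfl fun s _ => by ring
  have e2 : lap (fun _ => ρ) g x ^ 2 ≤ (∑ _s : Dir d, ρ ^ 2) * gam g x :=
    sum_sq_le_sum_mul_sum_of_sq_le_mul _ (fun _ _ => sq_nonneg _) (fun _ _ => sq_nonneg _)
      (fun s _ => le_of_eq (by ring))
  simp only [sum_const, card_univ, nsmul_eq_mul, card_dir] at e2
  have h2 := gam_nonneg g x
  have h3 : 2 * d * ρ ^ 2 * gam g x ≤ ρ / 2 * gam g x := by
    refine mul_le_mul_of_nonneg_right ?_ h2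
    nlinarith
  nlinarith

/-- Finitely supported. -/
def FS (q : V d → ℝ) : Prop := ∃ s : Finset (V d), ∀ x ∉ s, q x = 0

theorem FS.summable {q : V d → ℝ} (h : FS q) : Summable q := by
  obtain ⟨s, hs⟩ := h
  exact summable_of_ne_finset_zero hs

theorem FS.of_imp {q r : V d → ℝ} (h : FS q) (hr : ∀ x, q x = 0 → r x = 0) : FS r := by
  obtain ⟨s, hs⟩ := h
  exact ⟨s, fun x hx => hr x (hs x hx)⟩

theorem FS.shift {q : V d → ℝ} (h : FS q) (a : V d) : FS (fun x => q (x + a)) := by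
  classical
  obtain ⟨s, hs⟩ := h
  refine ⟨s.image (· - a), fun x hx => hs _ fun h => hx ?_⟩
  exact mem_image.2 ⟨x + a, h, by simp⟩

/-- A finite set outside which the function and all its neighbouring values vanish. -/
theorem FS.nbhd {q : V d → ℝ} (h : FS q) :
    ∃ t : Finset (V d), ∀ x ∉ t, q x = 0 ∧ ∀ s, q (x + uu s) = 0 := by
  classical
  choose t ht using fun s : Dir d => h.shift (uu s)
  obtain ⟨s0, hs0⟩ := h
  refine ⟨s0 ∪ univ.biUnion t, fun x hx => ?_⟩
  simp only [mem_union, mem_biUnion, mem_univ, true_and, not_or, not_exists] at hx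
  exact ⟨hs0 x hx.1, fun s => ht s x (hx.2 s)⟩

theorem FS.of_nbhd {q r : V d → ℝ} (h : FS q)
    (hr : ∀ x, q x = 0 → (∀ s, q (x + uu s) = 0) → r x = 0) : FS r := by
  obtain ⟨t, ht⟩ := h.nbhd
  exact ⟨t, fun x hx => hr x (ht x hx).1 (ht x hx).2⟩

theorem FS.Pop [NeZero d] {q : V d → ℝ} (h : FS q) (ρ : ℝ) : FS (Pop ρ q) :=
  h.of_nbhd fun x h1 h2 => by simp [Pop_apply, lap, h1, h2]

theorem FS.gam {q : V d → ℝ} (h : FS q) : FS (gam q) :=
  h.of_nbhd fun x h1 h2 => by simp [EA.gam, h1, h2]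

theorem tsum_shift (q : V d → ℝ) (a : V d) : ∑' x, q (x + a) = ∑' x, q x :=
  (Equiv.addRight a).tsum_eq q

theorem lap_eq (ξ : Ed d → ℝ) (g : V d → ℝ) (x : V d) :
    lap ξ g x = ∑ i, (ξ (x, i) * (g (x + ue i) - g x) + ξ (x - ue i, i) * (g (x - ue i) - g x)) := by
  rw [lap, Fintype.sum_prod_type]
  refine sum_congr rfl fun i _ => ?_
  simp [ed, uu, sub_eq_add_neg]

theorem sum_by_parts (ξ : Ed d → ℝ) {q g : V d → ℝ} (h : FS q ∨ FS g) :
    ∑' x, q x * lap ξ g x
      = ∑' x, ∑ i, ξ (x, i) * ((q x - q (x + ue i)) * (g (x + ue i) - g x)) := by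
  have hA : ∀ i, FS (fun x => q x * (ξ (x, i) * (g (x + ue i) - g x))) := by
    intro i
    rcases h with h | h
    · exact h.of_imp fun x hx => by simp [hx]
    · exact h.of_nbhd fun x h1 h2 => by
        have := h2 (i, true)
        simp only [uu, if_true] at this
        simp [h1, this]
  have hB : ∀ i, FS (fun x => q x * (ξ (x - ue i, i) * (g (x - ue i) - g x))) := by
    intro i
    rcases h with h | h
    · exact h.of_imp fun x hx => by simp [hx]
    · exact h.of_nbhd fun x h1 h2 => by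
        have := h2 (i, false)
        simp only [uu, Bool.false_eq_true, if_false, ← sub_eq_add_neg] at this
        simp [h1, this]
  have hC : ∀ i, FS (fun x => q (x + ue i) * (ξ (x, i) * (g x - g (x + ue i)))) := by
    intro i
    simpa using (hB i).shift (ue i)
  have e1 : ∀ i, ∑' x, q x * (ξ (x - ue i, i) * (g (x - ue i) - g x))
      = ∑' x, q (x + ue i) * (ξ (x, i) * (g x - g (x + ue i))) := by
    intro i
    rw [← tsum_shift _ (ue i)]
    simp
  simp only [lap_eq, mul_sum, mul_add]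
  rw [Summable.tsum_finsetSum fun i _ => (hA i).summable.add (hB i).summable]
  have e2 : ∀ i x, ξ (x, i) * ((q x - q (x + ue i)) * (g (x + ue i) - g x))
      = q x * (ξ (x, i) * (g (x + ue i) - g x)) + q (x + ue i) * (ξ (x, i) * (g x - g (x + ue i))) := by
    intro i x; ring
  simp only [e2]
  rw [Summable.tsum_finsetSum fun i _ => (hA i).summable.add (hC i).summable]
  refine sum_congr rfl fun i _ => ?_
  rw [(hA i).summable.tsum_add (hB i).summable, (hA i).summable.tsum_add (hC i).summable, e1]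

/-- The pairing of a finitely supported function with an arbitrary one. -/
noncomputable def pair (q g : V d → ℝ) : ℝ := ∑' x, q x * g x

theorem pair_add {q : V d → ℝ} (h : FS q) (g g' : V d → ℝ) :
    pair q (fun x => g x + g' x) = pair q g + pair q g' := by
  simp only [pair, mul_add]
  exact (h.of_imp fun x hx => by simp [hx]).summable.tsum_add
    (h.of_imp fun x hx => by simp [hx]).summable

theorem pair_div (q g : V d → ℝ) (c : ℝ) : pair q (fun x => g x / c) = pair q g / c := by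
  simp only [pair, ← mul_div_assoc, tsum_div_const]

theorem pair_Pop [NeZero d] {q : V d → ℝ} (h : FS q) (ρ : ℝ) (g : V d → ℝ) :
    pair q (Pop ρ g) = pair (Pop ρ q) g := by
  have e1 : pair q (Pop ρ g) = pair q g + pair q (lap (fun _ => ρ) g) / 2 := by
    rw [← pair_div, ← pair_add h]
    congr 1; funext x; exact Pop_apply ρ g x
  have e2 : pair (Pop ρ q) g = pair q g + (∑' x, g x * lap (fun _ => ρ) q x) / 2 := by
    rw [pair, pair, ← tsum_div_const, ← Summable.tsum_add (h.of_imp fun x hx => by simp [hx]).summable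
      (h.of_nbhd fun x h1 h2 => by simp [lap, h1, h2]).summable]
    congr 1; funext x; rw [Pop_apply]; ring
  rw [e1, e2, pair, pair, sum_by_parts _ (Or.inl h), sum_by_parts _ (Or.inr h)]
  congr 3; funext x
  exact sum_congr rfl fun i _ => by ring

theorem pair_single (v : V d) (g : V d → ℝ) : pair (Pi.single v 1) g = g v := by
  classical
  rw [pair, tsum_eq_single v]
  · simp
  · intro x hx; simp [Pi.single_eq_of_ne hx]

theorem FS_single (v : V d) : FS (Pi.single v (1 : ℝ)) := by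
  classical
  exact ⟨{v}, fun x hx => Pi.single_eq_of_ne (by simpa using hx) _⟩

theorem FS.Pop_pow [NeZero d] {q : V d → ℝ} (h : FS q) (ρ : ℝ) (m : ℕ) : FS ((EA.Pop ρ ^ m) q) := by
  induction m with
  | zero => simpa using h
  | succ m ih => rw [pow_succ', Module.End.mul_apply]; exact ih.Pop ρ

theorem l2_decay [NeZero d] {ρ : ℝ} (h0 : 0 ≤ ρ) (h1 : ρ * d ≤ 1 / 4) {q : V d → ℝ} (h : FS q) :
    ∑' x, Pop ρ q x ^ 2 ≤ ∑' x, q x ^ 2 - 3 / 8 * ρ * ∑' x, gam q x := by
  have s1 : Summable fun x => q x ^ 2 := (h.of_imp fun x hx => by simp [hx]).summable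
  have s2 : ∀ s : Dir d, Summable fun x => q (x + uu s) ^ 2 := fun s =>
    ((h.shift (uu s)).of_imp fun x hx => by simp [hx]).summable
  have s3 : Summable fun x => ∑ s : Dir d, (q (x + uu s) ^ 2 - q x ^ 2) :=
    summable_sum fun s _ => (s2 s).sub s1
  have s4 := h.gam.summable
  have e : ∑' x, ∑ s : Dir d, (q (x + uu s) ^ 2 - q x ^ 2) = 0 := by
    rw [Summable.tsum_finsetSum fun s _ => (s2 s).sub s1]
    refine sum_eq_zero fun s _ => ?_
    rw [(s2 s).tsum_sub s1, tsum_shift (fun x => q x ^ 2), sub_self]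
  refine (Summable.tsum_le_tsum (Pop_sq_le h0 h1 q)
    ((h.Pop ρ).of_imp fun x hx => by simp [hx]).summable
    ((s1.add (s3.mul_left _)).sub (s4.mul_left _))).trans (le_of_eq ?_)
  rw [(s1.add (s3.mul_left _)).tsum_sub (s4.mul_left _), s1.tsum_add (s3.mul_left _),
    tsum_mul_left, tsum_mul_left, e]
  ring

theorem sum_D_le [NeZero d] {ρ : ℝ} (h0 : 0 ≤ ρ) (h1 : ρ * d ≤ 1 / 4) (v : V d) (n : ℕ) :
    ρ * ∑ m ∈ range n, ∑' x, gam ((Pop ρ ^ m) (Pi.single v 1)) x ≤ 3 := by
  classical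
  have key : ∀ n, ∑' x, (Pop ρ ^ n) (Pi.single v 1) x ^ 2
      + 3 / 8 * ρ * ∑ m ∈ range n, ∑' x, gam ((Pop ρ ^ m) (Pi.single v 1)) x ≤ 1 := by
    intro n
    induction n with
    | zero =>
      simp only [pow_zero, Module.End.one_apply, range_zero, sum_empty, mul_zero, add_zero]
      rw [tsum_eq_single v]
      · simp
      · intro x hx; simp [Pi.single_eq_of_ne hx]
    | succ n ih =>
      rw [sum_range_succ, pow_succ', Module.End.mul_apply]
      have := l2_decay h0 h1 ((FS_single v).Pop_pow ρ n)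
      linarith
  have h2 : 0 ≤ ∑' x, (Pop ρ ^ n) (Pi.single v 1) x ^ 2 := tsum_nonneg fun _ => sq_nonneg _
  have h3 : 0 ≤ ρ * ∑ m ∈ range n, ∑' x, gam ((Pop ρ ^ m) (Pi.single v 1)) x :=
    mul_nonneg h0 (sum_nonneg fun _ _ => tsum_nonneg fun _ => gam_nonneg _ _)
  linarith [key n]

/-- Transfer of the convergence of the lazy walk averages to the powers of `Pop`. -/
theorem Pop_pow_close [NeZero d] {ρ : ℝ} (h0 : 0 ≤ ρ) (h1 : ρ * d ≤ 1 / 4) (g : V d → ℝ) (v : V d)
    {L ε C : ℝ} (h : ∀ j, |(avg (mv (d := d)) ^ j) g v - L| ≤ ε + C * (1 / 2) ^ j) (k j : ℕ) :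
    |(avg (mv (d := d)) ^ j) ((Pop ρ ^ k) g) v - L| ≤ ε + C * (1 - d * ρ) ^ k * (1 / 2) ^ j := by
  induction k generalizing j with
  | zero => simpa using h j
  | succ k ih =>
    have e : (avg (mv (d := d)) ^ j) ((Pop ρ ^ (k + 1)) g) v - L
        = (1 - 2 * d * ρ) * ((avg (mv (d := d)) ^ j) ((Pop ρ ^ k) g) v - L)
          + (2 * d * ρ) * ((avg (mv (d := d)) ^ (j + 1)) ((Pop ρ ^ k) g) v - L) := by
      rw [pow_succ' (Pop ρ), Module.End.mul_apply, pow_succ (avg _), Module.End.mul_apply]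
      generalize (Pop ρ ^ k) g = w
      simp only [Pop, LinearMap.add_apply, LinearMap.smul_apply, Module.End.one_apply, map_add,
        map_smul, Pi.add_apply, Pi.smul_apply, smul_eq_mul]
      ring
    have hd : (0 : ℝ) ≤ d := Nat.cast_nonneg d
    have p0 : 0 ≤ 2 * d * ρ := by positivity
    have p1 : 0 ≤ 1 - 2 * d * ρ := by nlinarith
    rw [e]
    refine (abs_add_le _ _).trans ?_
    rw [abs_mul, abs_mul, abs_of_nonneg p0, abs_of_nonneg p1]
    refine (add_le_add (mul_le_mul_of_nonneg_left (ih j) p1)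
      (mul_le_mul_of_nonneg_left (ih (j + 1)) p0)).trans (le_of_eq ?_)
    ring

end Pool.Agent.H187Z.EA
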