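import Pool.Agent.H187Z.EA3

/-! Independence structure of the slot counts. -/

set_option linter.unusedSectionVars false

namespace Pool.Agent.H187Z.EA
open MeasureTheory ProbabilityTheory Filter Topology Finset

theorem indep_reassoc {Ω A B C : Type*} [MeasurableSpace Ω] [MeasurableSpace A] [MeasurableSpace B]
    [MeasurableSpace C] {μ : Measure Ω} [IsProbabilityMeasure μ] {X : Ω → A} {Y : Ω → B}
    {Z : Ω → C} (hX : Measurable X) (hY : Measurable Y) (hZ : Measurable Z)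
    (h1 : IndepFun X (fun ω => (Y ω, Z ω)) μ) (h2 : IndepFun Y Z μ) :
    IndepFun Y (fun ω => (X ω, Z ω)) μ := by
  have h3 : IndepFun X Z μ := h1.comp measurable_id measurable_snd
  have := Measure.isProbabilityMeasure_map (μ := μ) hX.aemeasurable
  have := Measure.isProbabilityMeasure_map (μ := μ) hY.aemeasurable
  have := Measure.isProbabilityMeasure_map (μ := μ) hZ.aemeasurable
  rw [indepFun_iff_map_prod_eq_prod_map_map hY.aemeasurable (hX.prodMk hZ).aemeasurable,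
    h3.map_prod_eq_prod_map_map hX.aemeasurable hZ.aemeasurable]
  have e1 := h1.map_prod_eq_prod_map_map hX.aemeasurable (hY.prodMk hZ).aemeasurable
  rw [h2.map_prod_eq_prod_map_map hY.aemeasurable hZ.aemeasurable] at e1
  have m1 := (measurePreserving_prodAssoc (μ.map X) (μ.map Y) (μ.map Z)).symm
  have m2 := (Measure.measurePreserving_swap (μ := μ.map X) (ν := μ.map Y)).prod
    (MeasurePreserving.id (μ.map Z))
  have m3 := measurePreserving_prodAssoc (μ.map Y) (μ.map X) (μ.map Z)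
  have m4 := m3.comp (m2.comp m1)
  rw [← m4.map_eq, ← e1, Measure.map_map m4.measurable (hX.prodMk (hY.prodMk hZ))]
  rfl

theorem BM.mono {Ω : Type*} {m m' : MeasurableSpace Ω} (h : m ≤ m') {φ : Ω → ℝ}
    (hφ : @BM Ω m φ) : @BM Ω m' φ := ⟨hφ.1.mono h le_rfl, hφ.2⟩

theorem quad {Ω ι : Type*} [DecidableEq ι] (m : MeasurableSpace Ω) {mΩ : MeasurableSpace Ω}
    (hm : m ≤ mΩ) {μ : Measure Ω} [IsProbabilityMeasure μ] (s : Finset ι) {ξ : ι → Ω → ℝ}
    (hξ : ∀ j, BM (ξ j)) {σ : ℝ}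
    (h1 : ∀ j φ, @BM Ω m φ → ∫ ω, ξ j ω * φ ω ∂μ = 0)
    (h2 : ∀ j j' φ, @BM Ω m φ →
      ∫ ω, ξ j ω * ξ j' ω * φ ω ∂μ = if j = j' then σ * ∫ ω, φ ω ∂μ else 0)
    {a0 : Ω → ℝ} {a : ι → Ω → ℝ} (ha0 : @BM Ω m a0) (ha : ∀ j, @BM Ω m (a j)) :
    ∫ ω, (a0 ω + ∑ j ∈ s, ξ j ω * a j ω) ^ 2 ∂μ
      = ∫ ω, a0 ω ^ 2 ∂μ + σ * ∑ j ∈ s, ∫ ω, a j ω ^ 2 ∂μ := by
  have hb0 : BM a0 := ha0.mono hm
  have hb : ∀ j, BM (a j) := fun j => (ha j).mono hm
  have e : ∀ ω, (a0 ω + ∑ j ∈ s, ξ j ω * a j ω) ^ 2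
      = a0 ω ^ 2 + ∑ j ∈ s, ξ j ω * (2 * a0 ω * a j ω)
        + ∑ j ∈ s, ∑ j' ∈ s, ξ j ω * ξ j' ω * (a j ω * a j' ω) := by
    intro ω
    rw [add_sq, sq (∑ j ∈ s, ξ j ω * a j ω), sum_mul_sum, mul_sum]
    congr 1
    · congr 1
      exact sum_congr rfl fun j _ => by ring
    · exact sum_congr rfl fun j _ => sum_congr rfl fun j' _ => by ring
  simp only [e]
  rw [integral_add (BM.integrable (by fun_prop) μ) (BM.integrable (by fun_prop) μ),
    integral_add (BM.integrable (by fun_prop) μ) (BM.integrable (by fun_prop) μ),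
    integral_finsetSum _ (fun j _ => BM.integrable (by fun_prop) μ),
    integral_finsetSum _ (fun j _ => BM.integrable (by fun_prop) μ)]
  have e1 : ∀ j ∈ s, ∫ ω, ξ j ω * (2 * a0 ω * a j ω) ∂μ = 0 := fun j _ =>
    h1 j _ (((BM.const 2).mul ha0).mul (ha j))
  have e2 : ∀ j ∈ s, ∫ ω, ∑ j' ∈ s, ξ j ω * ξ j' ω * (a j ω * a j' ω) ∂μ
      = σ * ∫ ω, a j ω ^ 2 ∂μ := by
    intro j hj
    rw [integral_finsetSum _ (fun j _ => BM.integrable (by fun_prop) μ)]
    have : ∀ j' ∈ s, ∫ ω, ξ j ω * ξ j' ω * (a j ω * a j' ω) ∂μ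
        = if j = j' then σ * ∫ ω, a j ω * a j' ω ∂μ else 0 := fun j' _ =>
      h2 j j' _ ((ha j).mul (ha j'))
    rw [sum_congr rfl this, sum_ite_eq, if_pos hj]
    simp only [sq]
  rw [sum_congr rfl e1, sum_congr rfl e2, mul_sum]
  simp

variable {d : ℕ} {Ω : Type*} [mΩ : MeasurableSpace Ω]

/-- The discrete data: initial field, and independent identically distributed slot counts. -/
structure Disc (μ : Measure Ω) (f0 : Ω → V d → ℝ) (c : Ed d × ℕ → Ω → ℕ) (π : Measure ℕ)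
    (M : ℝ) : Prop where
  mf : Measurable f0
  bdd : ∀ ω v, |f0 ω v| ≤ M
  mc : ∀ p, Measurable (c p)
  ind : iIndepFun c μ
  law : ∀ p, μ.map (c p) = π
  indf : IndepFun f0 (fun ω p => c p ω) μ
  stat : ∀ a, μ.map (fun ω v => f0 ω (v + a)) = μ.map f0

/-- The past of slot `k`. -/
def past (f0 : Ω → V d → ℝ) (c : Ed d × ℕ → Ω → ℕ) (k : ℕ) (ω : Ω) :
    (V d → ℝ) × (Ed d × ℕ → ℕ) :=
  (f0 ω, fun p => if p.2 < k then c p ω else 0)

/-- The sigma algebra of the past of slot `k`. -/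
@[reducible] def FF (f0 : Ω → V d → ℝ) (c : Ed d × ℕ → Ω → ℕ) (k : ℕ) : MeasurableSpace Ω :=
  MeasurableSpace.comap (past f0 c k) inferInstance

variable {μ : Measure Ω} [IsProbabilityMeasure μ] {f0 : Ω → V d → ℝ} {c : Ed d × ℕ → Ω → ℕ}
  {π : Measure ℕ} {M : ℝ}

theorem Disc.meas_trunc (H : Disc μ f0 c π M) (k : ℕ) :
    Measurable (fun ω (p : Ed d × ℕ) => if p.2 < k then c p ω else 0) := by
  refine measurable_pi_iff.2 fun p => ?_
  split_ifs
  · exact H.mc p
  · exact measurable_const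

theorem Disc.FF_le (H : Disc μ f0 c π M) (k : ℕ) : FF f0 c k ≤ mΩ :=
  measurable_iff_comap_le.1 (H.mf.prodMk (H.meas_trunc k))

theorem FF_f0 (k : ℕ) (v : V d) : Measurable[FF f0 c k] (fun ω => f0 ω v) :=
  ((measurable_pi_apply v).comp measurable_fst).comp (comap_measurable (past f0 c k))

theorem FF_c (k : ℕ) (p : Ed d × ℕ) (h : p.2 < k) : Measurable[FF f0 c k] (c p) := by
  have : Measurable[FF f0 c k] (fun ω => (past f0 c k ω).2 p) :=
    ((measurable_pi_apply p).comp measurable_snd).comp (comap_measurable (past f0 c k))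
  convert this using 1
  funext ω
  simp [past, h]

theorem Disc.indep_slot (H : Disc μ f0 c π M) (k : ℕ) :
    IndepFun (fun ω e => c (e, k) ω) (past f0 c k) μ := by
  have mY : Measurable (fun ω e => c (e, k) ω) := measurable_pi_iff.2 fun e => H.mc _
  refine indep_reassoc H.mf mY (H.meas_trunc k) ?_ ?_
  · have hm : Measurable (fun w : Ed d × ℕ → ℕ =>
        ((fun e => w (e, k)), (fun p : Ed d × ℕ => if p.2 < k then w p else 0))) := by
      refine Measurable.prodMk (by fun_prop) (measurable_pi_iff.2 fun p => ?_)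
      split_ifs
      · fun_prop
      · exact measurable_const
    exact H.indf.comp measurable_id hm
  · have h := indep_iSup_of_disjoint (fun p => measurable_iff_comap_le.1 (H.mc p)) H.ind.iIndep
      (S := {p | p.2 = k}) (T := {p | p.2 < k})
      (Set.disjoint_left.2 fun p h1 h2 => by simp only [Set.mem_ofPred_eq] at h1 h2; omega)
    rw [IndepFun_iff_Indep]
    refine indep_of_indep_of_le h (measurable_iff_comap_le.1 ?_) (measurable_iff_comap_le.1 ?_)
    · refine (@measurable_pi_iff _ _ _ (_) _ _).2 fun e => ?_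
      exact measurable_iff_comap_le.2 (le_iSup₂_of_le (e, k) rfl le_rfl)
    · refine (@measurable_pi_iff _ _ _ (_) _ _).2 fun p => ?_
      split_ifs with hp
      · exact measurable_iff_comap_le.2 (le_iSup₂_of_le p hp le_rfl)
      · exact measurable_const

theorem Disc.factor (H : Disc μ f0 c π M) (k : ℕ) {ψ : (Ed d → ℕ) → ℝ} (hψ : Measurable ψ)
    {φ : Ω → ℝ} (hφ : @BM Ω (FF f0 c k) φ) :
    ∫ ω, ψ (fun e => c (e, k) ω) * φ ω ∂μ
      = (∫ ω, ψ (fun e => c (e, k) ω) ∂μ) * ∫ ω, φ ω ∂μ := by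
  have mY : Measurable (fun ω e => c (e, k) ω) := measurable_pi_iff.2 fun e => H.mc _
  have h1 : IndepFun (fun ω => ψ (fun e => c (e, k) ω)) φ μ := by
    have h := (H.indep_slot k)
    rw [IndepFun_iff_Indep] at h ⊢
    exact indep_of_indep_of_le h
      (measurable_iff_comap_le.1 (hψ.comp (comap_measurable (fun ω e => c (e, k) ω))))
      (measurable_iff_comap_le.1 hφ.1)
  exact h1.integral_fun_mul_eq_mul_integral (hψ.comp mY).aestronglyMeasurable
    (hφ.mono (H.FF_le k)).meas.aestronglyMeasurable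

theorem Disc.int_c (H : Disc μ f0 c π M) (p : Ed d × ℕ) (ψ : ℕ → ℝ) :
    ∫ ω, ψ (c p ω) ∂μ = ∫ n, ψ n ∂π := by
  rw [← H.law p, integral_map (H.mc p).aemeasurable (measurable_of_countable ψ).aestronglyMeasurable]

theorem Disc.int_cc (H : Disc μ f0 c π M) {p p' : Ed d × ℕ} (h : p ≠ p') (ψ ψ' : ℕ → ℝ) :
    ∫ ω, ψ (c p ω) * ψ' (c p' ω) ∂μ = (∫ n, ψ n ∂π) * ∫ n, ψ' n ∂π := by
  rw [← H.int_c p, ← H.int_c p']
  exact ((H.ind.indepFun h).comp (measurable_of_countable ψ)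
    (measurable_of_countable ψ')).integral_fun_mul_eq_mul_integral
    ((measurable_of_countable ψ).comp (H.mc p)).aestronglyMeasurable
    ((measurable_of_countable ψ').comp (H.mc p')).aestronglyMeasurable

/-- Indicator that a slot is active. -/
def bit (n : ℕ) : ℝ := if n = 0 then 0 else 1

theorem bit_nonneg (n : ℕ) : 0 ≤ bit n := by unfold bit; split_ifs <;> norm_num
theorem bit_le (n : ℕ) : bit n ≤ 1 := by unfold bit; split_ifs <;> norm_num
theorem bit_sq (n : ℕ) : bit n * bit n = bit n := by unfold bit; split_ifs <;> norm_num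
theorem bit_BM : BM bit :=
  ⟨measurable_of_countable _, 1, fun n => by rw [abs_of_nonneg (bit_nonneg n)]; exact bit_le n⟩

theorem Disc.shift_law (H : Disc μ f0 c π M) (a : V d) :
    μ.map (fun ω => ((fun v => f0 ω (v + a)), fun p : Ed d × ℕ => c ((p.1.1 + a, p.1.2), p.2) ω))
      = μ.map (fun ω => (f0 ω, fun p => c p ω)) := by
  have mC : Measurable (fun ω p => c p ω) := measurable_pi_iff.2 H.mc
  have mf := H.mf
  have inj : Function.Injective (fun p : Ed d × ℕ => (((p.1.1 + a, p.1.2), p.2) : Ed d × ℕ)) := by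
    rintro ⟨⟨x, i⟩, k⟩ ⟨⟨y, j⟩, l⟩ h
    simpa using h
  have h1 : IndepFun (fun ω v => f0 ω (v + a))
      (fun ω (p : Ed d × ℕ) => c ((p.1.1 + a, p.1.2), p.2) ω) μ :=
    H.indf.comp (φ := fun (x : V d → ℝ) v => x (v + a))
      (ψ := fun (w : Ed d × ℕ → ℕ) (p : Ed d × ℕ) => w ((p.1.1 + a, p.1.2), p.2))
      (by fun_prop) (by fun_prop)
  rw [h1.map_prod_eq_prod_map_map (Measurable.aemeasurable (by fun_prop))
    (measurable_pi_iff.2 fun p => H.mc _).aemeasurable,
    H.indf.map_prod_eq_prod_map_map mf.aemeasurable mC.aemeasurable, H.stat a,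
    (H.ind.precomp inj).map_fun_eq_infinitePi_map (fun p => H.mc _),
    H.ind.map_fun_eq_infinitePi_map H.mc]
  simp only [H.law]

end Pool.Agent.H187Z.EA
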