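import Pool.Agent.H187Z.EA4

/-! The linear discrete chain and its second moment estimates. -/

set_option linter.unusedSectionVars false

namespace Pool.Agent.H187Z.EA
open MeasureTheory ProbabilityTheory Filter Topology Finset

variable {d : ℕ}

/-- The linear discrete chain driven by the slot counts. -/
noncomputable def chain (x : V d → ℝ) (c : Ed d × ℕ → ℕ) : ℕ → V d → ℝ
  | 0 => x
  | k + 1 => fun v => chain x c k v + lap (fun e => bit (c (e, k))) (chain x c k) v / 2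

theorem chain_shift (x : V d → ℝ) (c : Ed d × ℕ → ℕ) (a : V d) (k : ℕ) (v : V d) :
    chain (fun v => x (v + a)) (fun p : Ed d × ℕ => c ((p.1.1 + a, p.1.2), p.2)) k v
      = chain x c k (v + a) := by
  induction k generalizing v with
  | zero => rfl
  | succ k ih =>
    simp only [chain, lap, ih, ed_add, add_right_comm v a]

theorem chain_meas (k : ℕ) (v : V d) :
    Measurable (fun w : (V d → ℝ) × (Ed d × ℕ → ℕ) => chain w.1 w.2 k v) := by
  induction k generalizing v with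
  | zero => simp only [chain]; fun_prop
  | succ k ih =>
    simp only [chain, lap]
    refine (ih v).add (Measurable.div_const (Finset.measurable_sum _ fun s _ => ?_) _)
    exact (bit_BM.meas.comp (by fun_prop)).mul ((ih _).sub (ih _))

variable {Ω : Type*} [mΩ : MeasurableSpace Ω]
variable {μ : Measure Ω} [IsProbabilityMeasure μ] {f0 : Ω → V d → ℝ} {c : Ed d × ℕ → Ω → ℕ}
  {π : Measure ℕ} {M : ℝ}

/-- The chain as a random field. -/
noncomputable def gg (f0 : Ω → V d → ℝ) (c : Ed d × ℕ → Ω → ℕ) (k : ℕ) (ω : Ω) : V d → ℝ :=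
  chain (f0 ω) (fun p => c p ω) k

theorem gg_succ (k : ℕ) (ω : Ω) (v : V d) : gg f0 c (k + 1) ω v
    = gg f0 c k ω v + lap (fun e => bit (c (e, k) ω)) (gg f0 c k ω) v / 2 := rfl

theorem Disc.f0_BM (H : Disc μ f0 c π M) (k : ℕ) (v : V d) :
    @BM Ω (FF f0 c k) (fun ω => f0 ω v) := ⟨FF_f0 k v, M, fun ω => H.bdd ω v⟩

theorem Disc.gg_BM (H : Disc μ f0 c π M) {j k : ℕ} (h : j ≤ k) (v : V d) :
    @BM Ω (FF f0 c k) (fun ω => gg f0 c j ω v) := by
  induction j generalizing v with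
  | zero => exact H.f0_BM k v
  | succ j ih =>
    simp only [gg_succ, lap]
    refine (ih (by omega) v).add (BM.div_const (BM.sum _ fun s _ => ?_) _)
    exact (bit_BM.comp (FF_c k (ed v s, j) h)).mul ((ih (by omega) _).sub (ih (by omega) _))

theorem Disc.hh_BM [NeZero d] (H : Disc μ f0 c π M) (ρ : ℝ) (j k : ℕ) (v : V d) :
    @BM Ω (FF f0 c k) (fun ω => (Pop ρ ^ j) (f0 ω) v) := by
  induction j generalizing v with
  | zero => exact H.f0_BM k v
  | succ j ih =>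
    simp only [pow_succ', Module.End.mul_apply, Pop_apply, lap]
    exact (ih v).add (BM.div_const (BM.sum _ fun s _ =>
      (BM.const _).mul ((ih _).sub (ih _))) _)

theorem pair_BM {m : MeasurableSpace Ω} {q : V d → ℝ} (hq : FS q) {g : Ω → V d → ℝ}
    (hg : ∀ x, @BM Ω m (fun ω => g ω x)) : @BM Ω m (fun ω => pair q (g ω)) := by
  obtain ⟨s, hs⟩ := hq
  have : ∀ ω, pair q (g ω) = ∑ x ∈ s, q x * g ω x := fun ω =>
    tsum_eq_sum fun x hx => by simp [hs x hx]
  simp only [this]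
  exact BM.sum _ fun x _ => (BM.const _).mul (hg x)

theorem gam_BM {m : MeasurableSpace Ω} {g : Ω → V d → ℝ}
    (hg : ∀ x, @BM Ω m (fun ω => g ω x)) (v : V d) : @BM Ω m (fun ω => gam (g ω) v) :=
  BM.sum _ fun _ _ => ((hg _).sub (hg _)).pow 2

theorem Disc.stat_gg (H : Disc μ f0 c π M) (k : ℕ) (a : V d) {Φ : (V d → ℝ) → ℝ}
    (hΦ : Measurable Φ) :
    ∫ ω, Φ (fun y => gg f0 c k ω (y + a)) ∂μ = ∫ ω, Φ (gg f0 c k ω) ∂μ := by
  have mC : Measurable (fun ω p => c p ω) := measurable_pi_iff.2 H.mc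
  have mf := H.mf
  have m1 : Measurable (fun w : (V d → ℝ) × (Ed d × ℕ → ℕ) => Φ (chain w.1 w.2 k)) :=
    hΦ.comp (measurable_pi_iff.2 (chain_meas k))
  have m2 : Measurable (fun ω => ((fun v => f0 ω (v + a)),
      fun p : Ed d × ℕ => c ((p.1.1 + a, p.1.2), p.2) ω)) :=
    Measurable.prodMk (by fun_prop) (measurable_pi_iff.2 fun p => H.mc _)
  have e1 := integral_map (μ := μ) m2.aemeasurable m1.aestronglyMeasurable
  have e2 := integral_map (μ := μ) (mf.prodMk mC).aemeasurable m1.aestronglyMeasurable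
  rw [H.shift_law a, e2] at e1
  simp only [gg]
  rw [e1]
  congr 1; funext ω; congr 1; funext y
  exact (chain_shift (f0 ω) (fun p => c p ω) a k y).symm

/-- Mean of the activity indicator. -/
noncomputable def rho (π : Measure ℕ) : ℝ := ∫ n, bit n ∂π

theorem Disc.prob (H : Disc μ f0 c π M) [NeZero d] : IsProbabilityMeasure π := by
  rw [← H.law ((0, 0), 0)]
  exact Measure.isProbabilityMeasure_map (H.mc _).aemeasurable

theorem rho_nonneg (π : Measure ℕ) : 0 ≤ rho π := integral_nonneg bit_nonneg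

theorem Disc.bit_mul (H : Disc μ f0 c π M) (k : ℕ) (e : Ed d) {φ : Ω → ℝ}
    (hφ : @BM Ω (FF f0 c k) φ) :
    ∫ ω, bit (c (e, k) ω) * φ ω ∂μ = rho π * ∫ ω, φ ω ∂μ := by
  rw [H.factor k (ψ := fun w => bit (w e)) (bit_BM.meas.comp (by fun_prop)) hφ,
    H.int_c (e, k) bit, rho]

theorem Disc.xi1 (H : Disc μ f0 c π M) (k : ℕ) (e : Ed d) {φ : Ω → ℝ}
    (hφ : @BM Ω (FF f0 c k) φ) :
    ∫ ω, (bit (c (e, k) ω) - rho π) * φ ω ∂μ = 0 := by
  have h1 := hφ.mono (H.FF_le k)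
  have h2 : BM (fun ω => bit (c (e, k) ω)) := bit_BM.comp (H.mc _)
  simp only [sub_mul]
  rw [integral_sub ((h2.mul h1).integrable μ) (((BM.const _).mul h1).integrable μ),
    H.bit_mul k e hφ, integral_const_mul, sub_self]

theorem Disc.xi2 [NeZero d] (H : Disc μ f0 c π M) (k : ℕ) (e e' : Ed d) {φ : Ω → ℝ}
    (hφ : @BM Ω (FF f0 c k) φ) :
    ∫ ω, (bit (c (e, k) ω) - rho π) * (bit (c (e', k) ω) - rho π) * φ ω ∂μ
      = if e = e' then rho π * (1 - rho π) * ∫ ω, φ ω ∂μ else 0 := by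
  have := H.prob
  have hb := bit_BM
  rw [H.factor k (ψ := fun w => (bit (w e) - rho π) * (bit (w e') - rho π))
    (((bit_BM.meas.comp (by fun_prop)).sub measurable_const).mul
      ((bit_BM.meas.comp (by fun_prop)).sub measurable_const)) hφ]
  split_ifs with h
  · subst h
    rw [H.int_c (e, k) (fun n => (bit n - rho π) * (bit n - rho π))]
    have e1 : ∀ n, (bit n - rho π) * (bit n - rho π) = (1 - 2 * rho π) * bit n + rho π ^ 2 := by
      intro n; linear_combination bit_sq n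
    simp only [e1]
    rw [integral_add (BM.integrable (by fun_prop) π) (BM.integrable (by fun_prop) π),
      integral_const_mul]
    simp only [integral_const, probReal_univ, smul_eq_mul, one_mul]
    change ((1 - 2 * rho π) * rho π + rho π ^ 2) * _ = _
    ring
  · rw [H.int_cc (by simpa using h) (fun n => bit n - rho π) (fun n => bit n - rho π),
      integral_sub (BM.integrable (by fun_prop) π) (BM.integrable (by fun_prop) π)]
    simp [rho]

theorem Disc.quad' [NeZero d] (H : Disc μ f0 c π M) (k : ℕ) {ι : Type*} (s : Finset ι)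
    {e : ι → Ed d} (he : Function.Injective e) {a0 : Ω → ℝ} {a : ι → Ω → ℝ}
    (ha0 : @BM Ω (FF f0 c k) a0) (ha : ∀ j, @BM Ω (FF f0 c k) (a j)) :
    ∫ ω, (a0 ω + ∑ j ∈ s, (bit (c (e j, k) ω) - rho π) * a j ω) ^ 2 ∂μ
      ≤ ∫ ω, a0 ω ^ 2 ∂μ + rho π * ∑ j ∈ s, ∫ ω, a j ω ^ 2 ∂μ := by
  classical
  rw [quad (FF f0 c k) (H.FF_le k) s (ξ := fun j ω => bit (c (e j, k) ω) - rho π)
    (fun j => (bit_BM.comp (H.mc _)).sub (BM.const _)) (σ := rho π * (1 - rho π))
    (fun j φ hφ => H.xi1 k _ hφ) (fun j j' φ hφ => by rw [H.xi2 k _ _ hφ]; simp [he.eq_iff])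
    ha0 ha]
  have h1 : 0 ≤ ∑ j ∈ s, ∫ ω, a j ω ^ 2 ∂μ :=
    sum_nonneg fun j _ => integral_nonneg fun ω => sq_nonneg _
  nlinarith [mul_nonneg (sq_nonneg (rho π)) h1]

/-- Mean local energy. -/
noncomputable def GG (μ : Measure Ω) (f0 : Ω → V d → ℝ) (c : Ed d × ℕ → Ω → ℕ) (k : ℕ) : ℝ :=
  ∫ ω, gam (gg f0 c k ω) 0 ∂μ

theorem GG_nonneg (k : ℕ) : 0 ≤ GG μ f0 c k := integral_nonneg fun _ => gam_nonneg _ _

theorem Disc.int_gam (H : Disc μ f0 c π M) (k : ℕ) (x : V d) :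
    ∫ ω, gam (gg f0 c k ω) x ∂μ = GG μ f0 c k := by
  rw [GG, ← H.stat_gg k x (Φ := fun g => gam g 0) (by unfold gam; fun_prop)]
  simp only [gam, zero_add, add_comm x]

theorem Disc.int_sq (H : Disc μ f0 c π M) (k : ℕ) (x : V d) :
    ∫ ω, gg f0 c k ω x ^ 2 ∂μ = ∫ ω, gg f0 c k ω 0 ^ 2 ∂μ := by
  rw [← H.stat_gg k x (Φ := fun g => g 0 ^ 2) (by fun_prop)]
  simp only [zero_add]

theorem gg_split [NeZero d] (ρ : ℝ) (k : ℕ) (ω : Ω) (v : V d) : gg f0 c (k + 1) ω v
    = Pop ρ (gg f0 c k ω) v + lap (fun e => bit (c (e, k) ω) - ρ) (gg f0 c k ω) v / 2 := by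
  rw [gg_succ, Pop_apply, lap_sub _ ρ]
  ring

theorem Disc.energy [NeZero d] (H : Disc μ f0 c π M) (h1 : rho π * d ≤ 1 / 4) (k : ℕ) :
    ∫ ω, gg f0 c (k + 1) ω 0 ^ 2 ∂μ + rho π / 8 * GG μ f0 c k ≤ ∫ ω, gg f0 c k ω 0 ^ 2 ∂μ := by
  have hg := H.gg_BM (le_refl k)
  have hg' : ∀ x, BM (fun ω => gg f0 c k ω x) := fun x => (hg x).mono (H.FF_le k)
  have hP : @BM Ω (FF f0 c k) (fun ω => Pop (rho π) (gg f0 c k ω) 0) := by
    simp only [Pop_apply, lap]
    exact (hg _).add (BM.div_const (BM.sum _ fun s _ => (BM.const _).mul ((hg _).sub (hg _))) _)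
  have e1 : ∀ ω, gg f0 c (k + 1) ω 0 = Pop (rho π) (gg f0 c k ω) 0 + ∑ s : Dir d,
      (bit (c (ed 0 s, k) ω) - rho π) * ((gg f0 c k ω (0 + uu s) - gg f0 c k ω 0) / 2) := by
    intro ω
    rw [gg_split (rho π), lap, sum_div]
    simp only [mul_div_assoc]
  simp only [e1]
  have q := H.quad' k univ (ed_inj 0) hP
    (a := fun s ω => (gg f0 c k ω (0 + uu s) - gg f0 c k ω 0) / 2)
    (fun s => ((hg _).sub (hg _)).div_const 2)
  have e2 : ∑ s : Dir d, ∫ ω, ((gg f0 c k ω (0 + uu s) - gg f0 c k ω 0) / 2) ^ 2 ∂μ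
      = GG μ f0 c k / 4 := by
    rw [GG, ← integral_div, ← integral_finsetSum _
      (fun s _ => ((((hg' _).sub (hg' _)).div_const 2).pow 2).integrable μ)]
    congr 1; funext ω
    rw [gam, sum_div]
    exact sum_congr rfl fun s _ => by ring
  have hs : ∀ s : Dir d, BM (fun ω => gg f0 c k ω (0 + uu s) ^ 2 - gg f0 c k ω 0 ^ 2) :=
    fun s => ((hg' _).pow 2).sub ((hg' _).pow 2)
  have b1 : BM (fun ω => gg f0 c k ω 0 ^ 2 + rho π / 2 *
      ∑ s : Dir d, (gg f0 c k ω (0 + uu s) ^ 2 - gg f0 c k ω 0 ^ 2)) :=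
    ((hg' _).pow 2).add ((BM.const _).mul (BM.sum _ fun s _ => hs s))
  have b2 : BM (fun ω => 3 / 8 * rho π * gam (gg f0 c k ω) 0) := (BM.const _).mul (gam_BM hg' 0)
  have e3 := integral_mono (μ := μ) (((hP.mono (H.FF_le k)).pow 2).integrable μ)
    ((b1.sub b2).integrable μ) (fun ω => Pop_sq_le (rho_nonneg π) h1 (gg f0 c k ω) 0)
  rw [integral_sub (b1.integrable μ) (b2.integrable μ),
    integral_add (((hg' _).pow 2).integrable μ)
      (((BM.const _).mul (BM.sum _ fun s _ => hs s)).integrable μ), integral_const_mul,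
    integral_const_mul, integral_finsetSum _ (fun s _ => (hs s).integrable μ)] at e3
  have e4 : ∀ s : Dir d, ∫ ω, (gg f0 c k ω (0 + uu s) ^ 2 - gg f0 c k ω 0 ^ 2) ∂μ = 0 := by
    intro s
    rw [integral_sub (((hg' _).pow 2).integrable μ) (((hg' _).pow 2).integrable μ),
      H.int_sq k (0 + uu s), sub_self]
  simp only [e4, sum_const_zero, mul_zero, add_zero] at e3
  rw [e2] at q
  change _ ≤ _ - 3 / 8 * rho π * GG μ f0 c k at e3
  linarith

theorem Disc.sum_GG [NeZero d] (H : Disc μ f0 c π M) (h1 : rho π * d ≤ 1 / 4) (n : ℕ) :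
    rho π * ∑ k ∈ range n, GG μ f0 c k ≤ 8 * M ^ 2 := by
  have key : ∀ n, ∫ ω, gg f0 c n ω 0 ^ 2 ∂μ + rho π / 8 * ∑ k ∈ range n, GG μ f0 c k ≤ M ^ 2 := by
    intro n
    induction n with
    | zero =>
      simp only [range_zero, sum_empty, mul_zero, add_zero]
      have h2 := integral_mono (μ := μ) ((((H.f0_BM 0 0).mono (H.FF_le 0)).pow 2).integrable μ)
        (integrable_const (M ^ 2)) (fun ω => sq_le_sq' (abs_le.1 (H.bdd ω 0)).1
          (abs_le.1 (H.bdd ω 0)).2)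
      simp only [integral_const, probReal_univ, smul_eq_mul, one_mul] at h2
      exact h2
    | succ n ih =>
      rw [sum_range_succ]
      linarith [H.energy h1 n]
  have h2 : 0 ≤ ∫ ω, gg f0 c n ω 0 ^ 2 ∂μ := integral_nonneg fun _ => sq_nonneg _
  linarith [key n]

/-- Mean square error between the chain and its conditional mean, tested against `q`. -/
noncomputable def Err (μ : Measure Ω) (f0 : Ω → V d → ℝ) (c : Ed d × ℕ → Ω → ℕ) (ρ : ℝ) (k : ℕ)
    (q : V d → ℝ) : ℝ :=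
  ∫ ω, (pair q (gg f0 c k ω) - pair q ((Pop ρ ^ k) (f0 ω))) ^ 2 ∂μ

theorem Disc.Err_succ [NeZero d] (H : Disc μ f0 c π M) (k : ℕ) {q : V d → ℝ} (hq : FS q) :
    Err μ f0 c (rho π) (k + 1) q ≤ Err μ f0 c (rho π) k (Pop (rho π) q)
      + rho π / 4 * ((∑' x, gam q x) * GG μ f0 c k) := by
  have hg := H.gg_BM (le_refl k)
  have hg' : ∀ x, BM (fun ω => gg f0 c k ω x) := fun x => (hg x).mono (H.FF_le k)
  obtain ⟨t, ht⟩ := hq.nbhd
  have e1 : ∀ ω, pair q (gg f0 c (k + 1) ω) - pair q ((Pop (rho π) ^ (k + 1)) (f0 ω))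
      = (pair (Pop (rho π) q) (gg f0 c k ω) - pair (Pop (rho π) q) ((Pop (rho π) ^ k) (f0 ω)))
        + ∑ e ∈ t ×ˢ univ, (bit (c (e, k) ω) - rho π) *
          ((q e.1 - q (e.1 + ue e.2)) * (gg f0 c k ω (e.1 + ue e.2) - gg f0 c k ω e.1) / 2) := by
    intro ω
    have : gg f0 c (k + 1) ω = fun v => Pop (rho π) (gg f0 c k ω) v
        + lap (fun e => bit (c (e, k) ω) - rho π) (gg f0 c k ω) v / 2 :=
      funext fun v => gg_split _ k ω v
    rw [this, pair_add hq, pair_div, pow_succ', Module.End.mul_apply, pair_Pop hq, pair_Pop hq]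
    rw [pair.eq_1 q, sum_by_parts _ (Or.inl hq), tsum_eq_sum (s := t), sum_product]
    · simp only [← mul_div_assoc, ← sum_div]
      ring
    · intro x hx
      refine sum_eq_zero fun i _ => ?_
      have := (ht x hx).2 (i, true)
      simp only [uu, if_true] at this
      simp [(ht x hx).1, this]
  have q1 := H.quad' k (t ×ˢ univ) Function.injective_id
    ((pair_BM (hq.Pop (rho π)) hg).sub (pair_BM (hq.Pop (rho π)) (H.hh_BM (rho π) k k)))
    (a := fun e ω =>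
      (q e.1 - q (e.1 + ue e.2)) * (gg f0 c k ω (e.1 + ue e.2) - gg f0 c k ω e.1) / 2)
    (fun e => ((BM.const _).mul ((hg _).sub (hg _))).div_const 2)
  rw [Err]
  simp only [e1]
  refine q1.trans (add_le_add le_rfl ?_)
  have b1 : ∀ e : Ed d, ∫ ω, ((q e.1 - q (e.1 + ue e.2))
      * (gg f0 c k ω (e.1 + ue e.2) - gg f0 c k ω e.1) / 2) ^ 2 ∂μ
      ≤ (q (e.1 + ue e.2) - q e.1) ^ 2 / 4 * GG μ f0 c k := by
    intro e
    rw [← H.int_gam k e.1, ← integral_const_mul]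
    refine integral_mono (((((BM.const _).mul ((hg' _).sub (hg' _))).div_const 2).pow 2).integrable μ)
      (((BM.const _).mul (gam_BM hg' _)).integrable μ) fun ω => ?_
    have := sq_le_gam (gg f0 c k ω) e.1 (e.2, true)
    simp only [uu, if_true] at this
    dsimp only
    calc _ = (q (e.1 + ue e.2) - q e.1) ^ 2 / 4
          * (gg f0 c k ω (e.1 + ue e.2) - gg f0 c k ω e.1) ^ 2 := by ring
      _ ≤ _ := by gcongr
  have b2 : ∑ e ∈ t ×ˢ univ, (q (e.1 + ue e.2) - q e.1) ^ 2 ≤ ∑' x, gam q x := by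
    rw [sum_product]
    exact (sum_le_sum fun x _ => sum_sq_le_gam q x).trans
      (hq.gam.summable.sum_le_tsum t fun x _ => gam_nonneg q x)
  have b3 := (sum_le_sum (s := t ×ˢ univ) fun e _ => b1 e)
  rw [← sum_mul, ← sum_div] at b3
  have h0 := rho_nonneg π
  have h4 := GG_nonneg (μ := μ) (f0 := f0) (c := c) k
  refine (mul_le_mul_of_nonneg_left b3 h0).trans ?_
  calc _ = rho π / 4 * ((∑ e ∈ t ×ˢ univ, (q (e.1 + ue e.2) - q e.1) ^ 2) * GG μ f0 c k) := by ring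
    _ ≤ _ := by gcongr

theorem Disc.Err_le [NeZero d] (H : Disc μ f0 c π M) (k : ℕ) {q : V d → ℝ} (hq : FS q) :
    Err μ f0 c (rho π) k q ≤ rho π / 4 * ∑ j ∈ range k,
      (∑' x, gam ((Pop (rho π) ^ (k - 1 - j)) q) x) * GG μ f0 c j := by
  induction k generalizing q with
  | zero => simp [Err, gg, chain]
  | succ k ih =>
    refine (H.Err_succ k hq).trans ?_
    rw [sum_range_succ, mul_add]
    refine add_le_add ((ih (hq.Pop _)).trans (le_of_eq ?_)) (by simp)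
    congr 1
    refine sum_congr rfl fun j hj => ?_
    rw [← Module.End.mul_apply, ← pow_succ]
    have := mem_range.1 hj
    rw [show k - 1 - j + 1 = k + 1 - 1 - j by omega]

theorem conv_le (D G : ℕ → ℝ) (hD : ∀ n, 0 ≤ D n) (hG : ∀ n, 0 ≤ G n) (n : ℕ) :
    ∑ k ∈ range n, ∑ j ∈ range k, D (k - 1 - j) * G j
      ≤ (∑ m ∈ range n, D m) * ∑ j ∈ range n, G j := by
  have e : ∑ k ∈ range n, ∑ j ∈ range k, D (k - 1 - j) * G j
      = ∑ j ∈ range n, ∑ k ∈ Ioo j n, D (k - 1 - j) * G j := by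
    refine sum_comm' ?_
    intro k j
    simp only [mem_range, mem_Ioo]
    omega
  rw [e, mul_sum]
  refine sum_le_sum fun j _ => ?_
  rw [← sum_mul]
  refine mul_le_mul_of_nonneg_right ?_ (hG j)
  rw [← sum_image (g := fun k => k - 1 - j) (f := D)]
  · refine sum_le_sum_of_subset_of_nonneg ?_ (fun m _ _ => hD m)
    intro m hm
    obtain ⟨k, hk, rfl⟩ := mem_image.1 hm
    simp only [mem_range, mem_Ioo] at hk ⊢
    omega
  · intro a ha b hb hab
    simp only [coe_Ioo, Set.mem_Ioo] at ha hb hab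
    omega

theorem Disc.sum_Err [NeZero d] (H : Disc μ f0 c π M) (h1 : rho π * d ≤ 1 / 4) (v : V d) (n : ℕ) :
    rho π * ∑ k ∈ range n, ∫ ω, (gg f0 c k ω v - (Pop (rho π) ^ k) (f0 ω) v) ^ 2 ∂μ
      ≤ 6 * M ^ 2 := by
  have h0 := rho_nonneg π
  have b1 := fun k => H.Err_le k (FS_single v)
  simp only [Err, pair_single] at b1
  have b2 := sum_le_sum (s := range n) fun k _ => b1 k
  rw [← mul_sum] at b2
  have b3 := conv_le (fun m => ∑' x, gam ((Pop (rho π) ^ m) (Pi.single v 1)) x) (GG μ f0 c)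
    (fun m => tsum_nonneg fun _ => gam_nonneg _ _) GG_nonneg n
  have b4 := sum_D_le h0 h1 v n
  have b5 := H.sum_GG h1 n
  have p1 : 0 ≤ rho π * ∑ k ∈ range n, GG μ f0 c k :=
    mul_nonneg h0 (sum_nonneg fun _ _ => GG_nonneg _)
  have b6 := mul_le_mul b4 b5 p1 (by norm_num)
  have b7 := mul_le_mul_of_nonneg_left b3 (show 0 ≤ rho π * (rho π / 4) by positivity)
  have b8 := mul_le_mul_of_nonneg_left b2 h0
  nlinarith

/-- The weight of slot `k` at the vertex `v`. -/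
noncomputable def Xi (f0 : Ω → V d → ℝ) (c : Ed d × ℕ → Ω → ℕ) (ρ : ℝ) (v : V d) (k : ℕ)
    (ω : Ω) : ℝ :=
  ∑ s : Dir d, bit (c (ed v s, k) ω) * ((gg f0 c k ω v - (Pop ρ ^ k) (f0 ω) v) ^ 2
    + (gg f0 c k ω (v + uu s) - gg f0 c k ω v) ^ 2)

theorem Xi_nonneg (ρ : ℝ) (v : V d) (k : ℕ) (ω : Ω) : 0 ≤ Xi f0 c ρ v k ω :=
  sum_nonneg fun _ _ => mul_nonneg (bit_nonneg _) (by positivity)

theorem Disc.Xi_bound [NeZero d] (H : Disc μ f0 c π M) (h1 : rho π * d ≤ 1 / 4) (v : V d) (n : ℕ)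
    {r : ℝ} (hr : 0 < r) :
    μ.real {ω | r ≤ ∑ k ∈ range n, Xi f0 c (rho π) v k ω} ≤ (12 * d + 8) * M ^ 2 / r := by
  have hA : ∀ k, @BM Ω (FF f0 c k) (fun ω => (gg f0 c k ω v - (Pop (rho π) ^ k) (f0 ω) v) ^ 2) :=
    fun k => ((H.gg_BM le_rfl v).sub (H.hh_BM _ k k v)).pow 2
  have hB : ∀ k s, @BM Ω (FF f0 c k) (fun ω => (gg f0 c k ω (v + uu s) - gg f0 c k ω v) ^ 2) :=
    fun k s => ((H.gg_BM le_rfl _).sub (H.gg_BM le_rfl _)).pow 2
  have hT : ∀ k s, BM (fun ω => bit (c (ed v s, k) ω) *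
      ((gg f0 c k ω v - (Pop (rho π) ^ k) (f0 ω) v) ^ 2
        + (gg f0 c k ω (v + uu s) - gg f0 c k ω v) ^ 2)) := fun k s =>
    (bit_BM.comp (H.mc _)).mul (((hA k).add (hB k s)).mono (H.FF_le k))
  have hX : ∀ k, BM (Xi f0 c (rho π) v k) := fun k => BM.sum _ fun s _ => hT k s
  refine (markov (BM.sum _ fun k _ => hX k) (fun ω => sum_nonneg fun k _ => Xi_nonneg _ _ _ _)
    hr).trans ?_
  gcongr
  rw [integral_finsetSum _ fun k _ => (hX k).integrable μ]
  have e : ∀ k, ∫ ω, Xi f0 c (rho π) v k ω ∂μ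
      = 2 * d * (rho π * ∫ ω, (gg f0 c k ω v - (Pop (rho π) ^ k) (f0 ω) v) ^ 2 ∂μ)
        + rho π * GG μ f0 c k := by
    intro k
    simp only [Xi]
    rw [integral_finsetSum _ fun s _ => (hT k s).integrable μ]
    simp only [fun s => H.bit_mul k (ed v s) ((hA k).add (hB k s)),
      fun s => integral_add (((hA k).mono (H.FF_le k)).integrable μ)
        (((hB k s).mono (H.FF_le k)).integrable μ)]
    rw [← mul_sum, sum_add_distrib, ← integral_finsetSum _
      fun s _ => ((hB k s).mono (H.FF_le k)).integrable μ, ← H.int_gam k v]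
    simp only [sum_const, card_univ, nsmul_eq_mul, card_dir, gam]
    ring
  simp only [e, sum_add_distrib, ← mul_sum]
  have b1 := H.sum_Err h1 v n
  have b2 := H.sum_GG h1 n
  have hd : (0 : ℝ) ≤ 2 * d := by positivity
  nlinarith [mul_le_mul_of_nonneg_left b1 hd]

end Pool.Agent.H187Z.EA
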