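import Pool.Agent.H187Z.EA5

/-! The probability that the backward cone of a vertex sees two nearby rings in one slot. -/

set_option linter.unusedSectionVars false

namespace Pool.Agent.H187Z.EA
open MeasureTheory ProbabilityTheory Filter Topology Finset

variable {d : ℕ}

def BadP (c : Ed d → ℕ) (x : V d) : Prop :=
  ∃ s, c (ed x s) ≠ 0 ∧ (2 ≤ c (ed x s) ∨ (∃ s', ed x s' ≠ ed x s ∧ c (ed x s') ≠ 0) ∨
    (∃ s', ed (x + uu s) s' ≠ ed x s ∧ c (ed (x + uu s) s') ≠ 0))

def UP (c : Ed d × ℕ → ℕ) : ℕ → V d → Prop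
  | 0 => fun _ => False
  | k + 1 => fun x => BadP (fun e => c (e, k)) x ∨ UP c k x ∨
      ∃ s, c (ed x s, k) ≠ 0 ∧ UP c k (x + uu s)

theorem UP_mono {c : Ed d × ℕ → ℕ} {j k : ℕ} (h : j ≤ k) {x : V d} (hx : UP c j x) : UP c k x := by
  induction k, h using Nat.le_induction with
  | base => exact hx
  | succ k _ ih => exact Or.inr (Or.inl ih)

def big (n : ℕ) : ℝ := if 2 ≤ n then 1 else 0

theorem big_nonneg (n : ℕ) : 0 ≤ big n := by unfold big; split_ifs <;> norm_num
theorem big_BM : BM big :=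
  ⟨measurable_of_countable _, 1, fun n => by unfold big; split_ifs <;> norm_num⟩

noncomputable def two (c : Ed d → ℕ) (e e' : Ed d) : ℝ :=
  if e' = e then 0 else bit (c e) * bit (c e')

theorem two_nonneg (c : Ed d → ℕ) (e e' : Ed d) : 0 ≤ two c e e' := by
  unfold two; split_ifs
  · exact le_rfl
  · exact mul_nonneg (bit_nonneg _) (bit_nonneg _)

theorem two_eq_one {c : Ed d → ℕ} {e e' : Ed d} (h : e' ≠ e) (h1 : c e ≠ 0) (h2 : c e' ≠ 0) :
    two c e e' = 1 := by simp [two, bit, h, h1, h2]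

noncomputable def BadR (c : Ed d → ℕ) (x : V d) : ℝ :=
  ∑ s, (big (c (ed x s)) + ∑ s', two c (ed x s) (ed x s') + ∑ s', two c (ed x s) (ed (x + uu s) s'))

theorem BadR_nonneg (c : Ed d → ℕ) (x : V d) : 0 ≤ BadR c x :=
  sum_nonneg fun _ _ => add_nonneg (add_nonneg (big_nonneg _)
    (sum_nonneg fun _ _ => two_nonneg _ _ _)) (sum_nonneg fun _ _ => two_nonneg _ _ _)

theorem BadP.one_le {c : Ed d → ℕ} {x : V d} (h : BadP c x) : 1 ≤ BadR c x := by
  obtain ⟨s, h0, h⟩ := h
  refine le_trans ?_ (single_le_sum (f := fun s => big (c (ed x s)) + ∑ s', two c (ed x s) (ed x s')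
    + ∑ s', two c (ed x s) (ed (x + uu s) s')) (fun _ _ => add_nonneg (add_nonneg (big_nonneg _)
    (sum_nonneg fun _ _ => two_nonneg _ _ _)) (sum_nonneg fun _ _ => two_nonneg _ _ _))
    (mem_univ s))
  have p1 := big_nonneg (c (ed x s))
  have p2 : 0 ≤ ∑ s', two c (ed x s) (ed x s') := sum_nonneg fun _ _ => two_nonneg _ _ _
  have p3 : 0 ≤ ∑ s', two c (ed x s) (ed (x + uu s) s') := sum_nonneg fun _ _ => two_nonneg _ _ _
  rcases h with h | ⟨s', h1, h2⟩ | ⟨s', h1, h2⟩
  · have : big (c (ed x s)) = 1 := if_pos h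
    linarith
  · have := single_le_sum (f := fun s' => two c (ed x s) (ed x s'))
      (fun _ _ => two_nonneg _ _ _) (mem_univ s')
    rw [two_eq_one h1 h0 h2] at this
    linarith
  · have := single_le_sum (f := fun s' => two c (ed x s) (ed (x + uu s) s'))
      (fun _ _ => two_nonneg _ _ _) (mem_univ s')
    rw [two_eq_one h1 h0 h2] at this
    linarith

noncomputable def UR (c : Ed d × ℕ → ℕ) : ℕ → V d → ℝ
  | 0 => fun _ => 0
  | k + 1 => fun x => BadR (fun e => c (e, k)) x + UR c k x +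
      ∑ s, bit (c (ed x s, k)) * UR c k (x + uu s)

theorem UR_nonneg (c : Ed d × ℕ → ℕ) (k : ℕ) (x : V d) : 0 ≤ UR c k x := by
  induction k generalizing x with
  | zero => exact le_rfl
  | succ k ih =>
    exact add_nonneg (add_nonneg (BadR_nonneg _ _) (ih x))
      (sum_nonneg fun s _ => mul_nonneg (bit_nonneg _) (ih _))

theorem UP.one_le {c : Ed d × ℕ → ℕ} {k : ℕ} {x : V d} (h : UP c k x) : 1 ≤ UR c k x := by
  induction k generalizing x with
  | zero => exact h.elim
  | succ k ih =>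
    have p1 := BadR_nonneg (fun e => c (e, k)) x
    have p2 := UR_nonneg c k x
    have p3 : 0 ≤ ∑ s, bit (c (ed x s, k)) * UR c k (x + uu s) :=
      sum_nonneg fun s _ => mul_nonneg (bit_nonneg _) (UR_nonneg _ _ _)
    change 1 ≤ BadR (fun e => c (e, k)) x + UR c k x + ∑ s, bit (c (ed x s, k)) * UR c k (x + uu s)
    rcases h with h | h | ⟨s, h1, h2⟩
    · linarith [h.one_le]
    · linarith [ih h]
    · have := single_le_sum (f := fun s => bit (c (ed x s, k)) * UR c k (x + uu s))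
        (fun s _ => mul_nonneg (bit_nonneg _) (UR_nonneg _ _ _)) (mem_univ s)
      have h3 : bit (c (ed x s, k)) = 1 := if_neg h1
      rw [h3, one_mul] at this
      linarith [ih h2]

variable {Ω : Type*} [mΩ : MeasurableSpace Ω]
variable {μ : Measure Ω} [IsProbabilityMeasure μ] {f0 : Ω → V d → ℝ} {c : Ed d × ℕ → Ω → ℕ}
  {π : Measure ℕ} {M : ℝ}

theorem two_BM {m : MeasurableSpace Ω} {w : Ed d → Ω → ℕ} (hw : ∀ e, Measurable[m] (w e))
    (e e' : Ed d) : @BM Ω m (fun ω => two (fun e => w e ω) e e') := by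
  unfold two
  split_ifs
  · exact BM.const 0
  · exact (bit_BM.comp (hw _)).mul (bit_BM.comp (hw _))

theorem BadR_BM {m : MeasurableSpace Ω} {w : Ed d → Ω → ℕ} (hw : ∀ e, Measurable[m] (w e))
    (x : V d) : @BM Ω m (fun ω => BadR (fun e => w e ω) x) :=
  BM.sum _ fun _ _ => ((big_BM.comp (hw _)).add (BM.sum _ fun _ _ => two_BM hw _ _)).add
    (BM.sum _ fun _ _ => two_BM hw _ _)

theorem UR_BM {j k : ℕ} (h : j ≤ k) (x : V d) :
    @BM Ω (FF f0 c k) (fun ω => UR (fun p => c p ω) j x) := by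
  induction j generalizing x with
  | zero => exact BM.const 0
  | succ j ih =>
    exact ((BadR_BM (w := fun e => c (e, j)) (fun e => FF_c k (e, j) h) x).add
      (ih (by omega) x)).add (BM.sum _ fun s _ =>
        (bit_BM.comp (FF_c k (ed x s, j) h)).mul (ih (by omega) _))

theorem Disc.int_two (H : Disc μ f0 c π M) (k : ℕ) (e e' : Ed d) :
    ∫ ω, two (fun e => c (e, k) ω) e e' ∂μ ≤ rho π ^ 2 := by
  unfold two
  split_ifs with h
  · simpa using sq_nonneg _
  · rw [H.int_cc (by simpa using Ne.symm h) bit bit, sq, rho]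

theorem Disc.int_BadR (H : Disc μ f0 c π M) (k : ℕ) (x : V d) :
    ∫ ω, BadR (fun e => c (e, k) ω) x ∂μ ≤ 2 * d * (∫ n, big n ∂π + 4 * d * rho π ^ 2) := by
  have hw : ∀ e, Measurable (c (e, k)) := fun e => H.mc _
  have h2 : ∀ e (e' : Dir d → Ed d), BM (fun ω => ∑ s', two (fun e => c (e, k) ω) e (e' s')) :=
    fun e e' => BM.sum _ fun _ _ => two_BM (w := fun e => c (e, k)) hw _ _
  have h3 : ∀ e (e' : Dir d → Ed d), ∫ ω, ∑ s', two (fun e => c (e, k) ω) e (e' s') ∂μ
      ≤ 2 * d * rho π ^ 2 := by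
    intro e e'
    rw [integral_finsetSum _ fun _ _ => (two_BM (w := fun e => c (e, k)) hw _ _).integrable μ]
    refine (sum_le_sum fun s _ => H.int_two k e (e' s)).trans (le_of_eq ?_)
    simp only [sum_const, card_univ, nsmul_eq_mul, card_dir]
  simp only [BadR]
  rw [integral_finsetSum _ fun s _ =>
    (((big_BM.comp (hw _)).add (h2 _ _)).add (h2 _ _)).integrable μ]
  refine (sum_le_sum (g := fun _ => ∫ n, big n ∂π + 4 * d * rho π ^ 2) fun s _ => ?_).trans
    (le_of_eq ?_)
  · rw [integral_add (((big_BM.comp (hw _)).add (h2 _ _)).integrable μ) ((h2 _ _).integrable μ),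
      integral_add ((big_BM.comp (hw _)).integrable μ) ((h2 _ _).integrable μ), H.int_c _ big]
    linarith [h3 (ed x s) (ed x), h3 (ed x s) (ed (x + uu s))]
  · simp only [sum_const, card_univ, nsmul_eq_mul, card_dir]

theorem Disc.int_UR (H : Disc μ f0 c π M) {β : ℝ}
    (hβ : 2 * d * (∫ n, big n ∂π + 4 * d * rho π ^ 2) ≤ β) (k : ℕ) (x : V d) :
    ∫ ω, UR (fun p => c p ω) k x ∂μ ≤ β * k * (1 + 2 * d * rho π) ^ k := by
  have h0 := rho_nonneg π
  have hβ0 : 0 ≤ β := (integral_nonneg fun ω => BadR_nonneg _ _).trans ((H.int_BadR 0 x).trans hβ)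
  induction k generalizing x with
  | zero => simp [UR]
  | succ k ih =>
    have b1 : BM (fun ω => BadR (fun e => c (e, k) ω) x) :=
      BadR_BM (w := fun e => c (e, k)) (fun e => H.mc _) x
    have b2 : ∀ y, BM (fun ω => UR (fun p => c p ω) k y) := fun y =>
      (UR_BM (f0 := f0) le_rfl y).mono (H.FF_le k)
    have b3 : ∀ s, BM (fun ω => bit (c (ed x s, k) ω) * UR (fun p => c p ω) k (x + uu s)) :=
      fun s => (bit_BM.comp (H.mc _)).mul (b2 _)
    simp only [UR]
    rw [integral_add ((b1.add (b2 x)).integrable μ) ((BM.sum _ fun s _ => b3 s).integrable μ),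
      integral_add (b1.integrable μ) ((b2 x).integrable μ),
      integral_finsetSum _ fun s _ => (b3 s).integrable μ]
    have e1 : ∀ s ∈ (univ : Finset (Dir d)),
        ∫ ω, bit (c (ed x s, k) ω) * UR (fun p => c p ω) k (x + uu s) ∂μ
        ≤ rho π * (β * k * (1 + 2 * d * rho π) ^ k) := by
      intro s _
      rw [H.bit_mul k _ (UR_BM le_rfl _)]
      exact mul_le_mul_of_nonneg_left (ih _) h0
    have e2 := sum_le_sum e1
    simp only [sum_const, card_univ, nsmul_eq_mul, card_dir] at e2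
    have e3 := (H.int_BadR k x).trans hβ
    have e4 := ih x
    have e5 : 1 ≤ (1 + 2 * d * rho π) ^ (k + 1) :=
      one_le_pow₀ (le_add_of_nonneg_right (by positivity))
    have e6 := mul_le_mul_of_nonneg_left e5 hβ0
    push_cast
    rw [pow_succ] at e6 ⊢
    nlinarith

theorem Disc.UP_bound (H : Disc μ f0 c π M) {β : ℝ}
    (hβ : 2 * d * (∫ n, big n ∂π + 4 * d * rho π ^ 2) ≤ β) (k : ℕ) (x : V d) :
    μ.real {ω | UP (fun p => c p ω) k x} ≤ β * k * (1 + 2 * d * rho π) ^ k := by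
  have h1 := markov (ν := μ) ((UR_BM (f0 := f0) (c := c) le_rfl x).mono (H.FF_le k))
    (fun ω => UR_nonneg _ _ _) one_pos
  rw [div_one] at h1
  exact (measureReal_mono fun ω hω => UP.one_le hω).trans (h1.trans (H.int_UR hβ k x))

theorem int_ind (r : NNReal) (m : ℕ) :
    ∫ n, Set.indicator {m} (fun _ => (1 : ℝ)) n ∂(poissonMeasure r)
      = Real.exp (-r) * r ^ m / m.factorial := by
  rw [integral_indicator (by simp), setIntegral_const, poissonMeasure_real_singleton]
  simp

theorem rho_poisson (r : NNReal) : rho (poissonMeasure r) = 1 - Real.exp (-r) := by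
  have e : bit = fun n => 1 - Set.indicator {0} (fun _ => (1 : ℝ)) n := by
    funext n; by_cases h : n = 0 <;> simp [bit, h]
  rw [rho, e, integral_sub (integrable_const _) ((integrable_const _).indicator (by simp)),
    int_ind]
  simp

theorem big_poisson (r : NNReal) :
    ∫ n, big n ∂(poissonMeasure r) = 1 - Real.exp (-r) - Real.exp (-r) * r := by
  have e : ∀ n, big n = bit n - Set.indicator {1} (fun _ => (1 : ℝ)) n := by
    intro n
    match n with
    | 0 => simp [big, bit]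
    | 1 => simp [big, bit]
    | n + 2 => simp [big, bit]
  simp only [e]
  rw [integral_sub (bit_BM.integrable _) ((integrable_const _).indicator (by simp)), int_ind,
    ← rho_poisson, rho]
  simp

theorem rho_le (r : NNReal) : rho (poissonMeasure r) ≤ r := by
  rw [rho_poisson]
  linarith [Real.add_one_le_exp (-(r : ℝ))]

theorem le_rho (r : NNReal) (h : (r : ℝ) ≤ 1) : (r : ℝ) / 2 ≤ rho (poissonMeasure r) := by
  rw [rho_poisson, Real.exp_neg]
  have h1 := Real.add_one_le_exp (r : ℝ)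
  have h0 : (0 : ℝ) ≤ r := r.2
  have h2 : (Real.exp r)⁻¹ ≤ 1 - r / 2 := by
    rw [inv_le_iff_one_le_mul₀ (Real.exp_pos _)]
    nlinarith
  linarith

theorem big_le (r : NNReal) : ∫ n, big n ∂(poissonMeasure r) ≤ (r : ℝ) ^ 2 := by
  rw [big_poisson]
  have h1 := Real.add_one_le_exp (-(r : ℝ))
  have h0 : (0 : ℝ) ≤ r := r.2
  nlinarith

theorem Disc.UP_poisson {r : NNReal} (H : Disc μ f0 c (poissonMeasure r) M) (k : ℕ) (x : V d) :
    μ.real {ω | UP (fun p => c p ω) k x}
      ≤ 2 * d * (1 + 4 * d) * r * (r * k) * Real.exp (2 * d * (r * k)) := by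
  have h0 := rho_nonneg (poissonMeasure r)
  have h1 := rho_le r
  have hr : (0 : ℝ) ≤ r := r.2
  have hβ : 2 * d * (∫ n, big n ∂(poissonMeasure r) + 4 * d * rho (poissonMeasure r) ^ 2)
      ≤ 2 * d * ((r : ℝ) ^ 2 + 4 * d * (r : ℝ) ^ 2) := by
    gcongr
    exact big_le r
  refine (H.UP_bound hβ k x).trans ?_
  have h2 : (1 + 2 * d * rho (poissonMeasure r)) ^ k ≤ Real.exp (2 * d * (r * k)) := by
    rw [show 2 * d * ((r : ℝ) * k) = k * (2 * d * r) by ring, Real.exp_nat_mul]
    gcongr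
    linarith [Real.add_one_le_exp (2 * d * (r : ℝ)),
      mul_le_mul_of_nonneg_left h1 (show (0 : ℝ) ≤ 2 * d by positivity)]
  calc _ ≤ 2 * d * ((r : ℝ) ^ 2 + 4 * d * (r : ℝ) ^ 2) * k * Real.exp (2 * d * (r * k)) := by gcongr
    _ = _ := by ring

end Pool.Agent.H187Z.EA
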