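import Mathlib

/-! Definitions for the edge-averaging process on the lattice `Fin d → ℤ`.
The nearest-neighbour edge joining `x` and `x + e_i` is encoded by the pair `(x, i)`. -/

namespace Pool.Agent.H187Z.EdgeAvg
open MeasureTheory ProbabilityTheory

/-- The number of points of `A` in the time interval `(s, t]`. -/
noncomputable def cnt (A : Set ℝ) (s t : ℝ) : ℕ := (A ∩ Set.Ioc s t).ncard

/-- `R ω` is the set of ring times of a rate one Poisson clock: it is almost surely locally
finite, the number of rings in `(s, t]` is a Poisson variable of mean `t - s`, and the numbers of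
rings in consecutive intervals are independent. -/
structure IsPoissonClock {Ω : Type*} [MeasurableSpace Ω] (μ : Measure Ω) (R : Ω → Set ℝ) :
    Prop where
  locFin : ∀ᵐ ω ∂μ, ∀ t : ℝ, (R ω ∩ Set.Ioc 0 t).Finite
  meas : ∀ s t : ℝ, Measurable fun ω => cnt (R ω) s t
  law : ∀ s t : ℝ, 0 ≤ s → s ≤ t →
    μ.map (fun ω => cnt (R ω) s t) = poissonMeasure (t - s).toNNReal
  indep : ∀ t : ℕ → ℝ, 0 ≤ t 0 → Monotone t →
    iIndepFun (fun k ω => cnt (R ω) (t k) (t (k + 1))) μ

/-- `f` is a trajectory of the edge-averaging dynamics with ring times `R` and initial profile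
`x0`: it starts at `x0`; the value at `v` does not change during a time interval in which no edge
at `v` rings; and when the edge `{x, x + e_i}` rings at time `t`, both endpoints take the average
of their values just before `t`. -/
structure IsEdgeAveraging {d : ℕ} (R : (Fin d → ℤ) × Fin d → Set ℝ) (x0 : (Fin d → ℤ) → ℝ)
    (f : ℝ → (Fin d → ℤ) → ℝ) : Prop where
  start : f 0 = x0
  stay : ∀ (v : Fin d → ℤ) (s t : ℝ), 0 ≤ s → s ≤ t →
    (∀ x i, v = x ∨ v = x + Pi.single i 1 → R (x, i) ∩ Set.Ioc s t = ∅) → f t v = f s v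
  ring : ∀ (x : Fin d → ℤ) (i : Fin d) (t : ℝ), 0 < t → t ∈ R (x, i) →
    ∀ v, v = x ∨ v = x + Pi.single i 1 →
      f t v = (Function.leftLim (fun s => f s x) t
        + Function.leftLim (fun s => f s (x + Pi.single i 1)) t) / 2

end Pool.Agent.H187Z.EdgeAvg
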