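import Pool.Agent.H187Z.EA6
import Pool.Agent.H187Z.EADefs

/-! Deterministic comparison between a trajectory and the discrete chain. -/

set_option linter.unusedSectionVars false

namespace Pool.Agent.H187Z.EA
open MeasureTheory ProbabilityTheory Filter Topology Finset EdgeAvg

variable {d : ℕ} {R : Ed d → Set ℝ} {x0 : V d → ℝ} {f : ℝ → V d → ℝ}

theorem ed_of_inc {v x : V d} {i : Fin d} (h : v = x ∨ v = x + Pi.single i 1) :
    ∃ σ, ed v σ = (x, i) := by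
  rcases h with rfl | rfl
  · exact ⟨(i, true), rfl⟩
  · exact ⟨(i, false), by simp [ed, ue]⟩

theorem stay' (hf : IsEdgeAveraging R x0 f) {v : V d} {s t : ℝ} (hs : 0 ≤ s) (hst : s ≤ t)
    (h : ∀ σ, ∀ r ∈ R (ed v σ), r ∉ Set.Ioc s t) : f t v = f s v := by
  refine hf.stay v s t hs hst fun x i hx => ?_
  obtain ⟨σ, hσ⟩ := ed_of_inc hx
  rw [← hσ]
  exact Set.eq_empty_of_forall_notMem fun r hr => h σ r hr.1 hr.2

theorem ring' (hf : IsEdgeAveraging R x0 f) {v : V d} {σ : Dir d} {t : ℝ} (ht : 0 < t)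
    (h : t ∈ R (ed v σ)) : f t v = (Function.leftLim (fun s => f s v) t
      + Function.leftLim (fun s => f s (v + uu σ)) t) / 2 := by
  obtain ⟨i, b⟩ := σ
  cases b
  · have := hf.ring (v - ue i) i t ht h v (Or.inr (by simp [ue]))
    rw [this, add_comm]
    simp [uu, ue, sub_eq_add_neg]
  · exact hf.ring v i t ht h v (Or.inl rfl)

theorem leftLim_of_const {φ : ℝ → ℝ} {s t c : ℝ} (hst : s < t) (h : ∀ r ∈ Set.Ioo s t, φ r = c) :
    Function.leftLim φ t = c := by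
  refine leftLim_eq_of_tendsto (tendsto_const_nhds.congr' ?_)
  filter_upwards [Ioo_mem_nhdsLT hst] with r hr using (h r hr).symm

theorem leftLim' (hf : IsEdgeAveraging R x0 f) {v : V d} {s t : ℝ} (hs : 0 ≤ s) (hst : s < t)
    (h : ∀ σ, ∀ r ∈ R (ed v σ), r ∉ Set.Ioo s t) :
    Function.leftLim (fun r => f r v) t = f s v :=
  leftLim_of_const hst fun _ hr => stay' hf hs hr.1.le
    fun σ r' h1 h2 => h σ r' h1 ⟨h2.1, h2.2.trans_lt hr.2⟩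

/-- Local finiteness of all clocks. -/
def LF (R : Ed d → Set ℝ) : Prop := ∀ e t, (R e ∩ Set.Ioc 0 t).Finite

theorem LF.fin (h : LF R) (e : Ed d) {a : ℝ} (ha : 0 ≤ a) (b : ℝ) : (R e ∩ Set.Ioc a b).Finite :=
  (h e b).subset (Set.inter_subset_inter_right _ (Set.Ioc_subset_Ioc_left ha))

theorem LF.cnt_ne (h : LF R) {e : Ed d} {a b t : ℝ} (ha : 0 ≤ a) (h1 : t ∈ R e)
    (h2 : t ∈ Set.Ioc a b) : cnt (R e) a b ≠ 0 := by
  intro h0
  rw [cnt, Set.ncard_eq_zero (h.fin e ha b)] at h0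
  exact (h0 ▸ Set.mem_inter h1 h2 : t ∈ (∅ : Set ℝ))

theorem exists_of_cnt_ne {A : Set ℝ} {a b : ℝ} (h : cnt A a b ≠ 0) : ∃ t ∈ A, t ∈ Set.Ioc a b :=
  Set.nonempty_of_ncard_ne_zero h

theorem LF.slot (h : LF R) {v : V d} {σ : Dir d} {a b t : ℝ} (ha : 0 ≤ a)
    (hB : ¬ BadP (fun e => cnt (R e) a b) v) (h1 : t ∈ R (ed v σ)) (h2 : t ∈ Set.Ioc a b) :
    (∀ σ', ∀ r ∈ R (ed v σ'), r ∈ Set.Ioc a b → σ' = σ ∧ r = t) ∧
    (∀ σ', ∀ r ∈ R (ed (v + uu σ) σ'), r ∈ Set.Ioc a b → r = t) := by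
  have h0 := h.cnt_ne ha h1 h2
  simp only [BadP, not_exists, not_and, not_or, not_le, ne_eq, not_not] at hB
  obtain ⟨b1, b2, b3⟩ := hB σ h0
  have uniq : ∀ r ∈ R (ed v σ), r ∈ Set.Ioc a b → r = t := by
    intro r hr hr2
    have : (R (ed v σ) ∩ Set.Ioc a b).ncard ≤ 1 := Nat.lt_succ_iff.1 b1
    exact (Set.ncard_le_one (h.fin _ ha b)).1 this r ⟨hr, hr2⟩ t ⟨h1, h2⟩
  constructor
  · intro σ' r hr hr2
    by_cases he : ed v σ' = ed v σ
    · exact ⟨ed_inj v he, uniq r (he ▸ hr) hr2⟩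
    · exact absurd (b2 σ' he) (h.cnt_ne ha hr hr2)
  · intro σ' r hr hr2
    by_cases he : ed (v + uu σ) σ' = ed v σ
    · exact uniq r (he ▸ hr) hr2
    · exact absurd (b3 σ' he) (h.cnt_ne ha hr hr2)

theorem LF.slot_val (h : LF R) (hf : IsEdgeAveraging R x0 f) {v : V d} {σ : Dir d} {a b t : ℝ}
    (ha : 0 ≤ a) (hB : ¬ BadP (fun e => cnt (R e) a b) v) (h1 : t ∈ R (ed v σ))
    (h2 : t ∈ Set.Ioc a b) :
    f t v = (f a v + f a (v + uu σ)) / 2 ∧ f b v = f t v := by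
  obtain ⟨s1, s2⟩ := h.slot ha hB h1 h2
  constructor
  · rw [ring' hf (ha.trans_lt h2.1) h1, leftLim' hf ha h2.1, leftLim' hf ha h2.1]
    · intro σ' r hr hr2
      exact hr2.2.ne (s2 σ' r hr ⟨hr2.1, hr2.2.le.trans h2.2⟩)
    · intro σ' r hr hr2
      exact hr2.2.ne (s1 σ' r hr ⟨hr2.1, hr2.2.le.trans h2.2⟩).2
  · refine stay' hf (ha.trans h2.1.le) h2.2 fun σ' r hr hr2 => ?_
    exact hr2.1.ne' (s1 σ' r hr ⟨h2.1.trans hr2.1, hr2.2⟩).2

/-- Slot counts at mesh `δ`. -/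
noncomputable def cc (R : Ed d → Set ℝ) (δ : ℝ) (p : Ed d × ℕ) : ℕ :=
  cnt (R p.1) (p.2 * δ) ((p.2 + 1 : ℕ) * δ)

theorem LF.agree (h : LF R) (hf : IsEdgeAveraging R x0 f) {δ : ℝ} (hδ : 0 < δ) (k : ℕ) (v : V d)
    (hU : ¬ UP (cc R δ) k v) : f (k * δ) v = chain x0 (cc R δ) k v := by
  induction k generalizing v with
  | zero => simp [chain, hf.start]
  | succ k ih =>
    simp only [UP, not_or, not_exists, not_and] at hU
    obtain ⟨u1, u2, u3⟩ := hU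
    replace u1 : ¬ BadP (fun e => cnt (R e) (k * δ) ((k + 1 : ℕ) * δ)) v := u1
    have ha : (0 : ℝ) ≤ k * δ := by positivity
    have hab : (k : ℝ) * δ ≤ (k + 1 : ℕ) * δ := by gcongr; omega
    by_cases hc : ∀ σ, cc R δ (ed v σ, k) = 0
    · rw [stay' hf ha hab fun σ r hr hr2 => h.cnt_ne ha hr hr2 (hc σ), ih v u2]
      simp [chain, lap, hc, bit]
    · push Not at hc
      obtain ⟨σ, hσ⟩ := hc
      obtain ⟨t, h1, h2⟩ := exists_of_cnt_ne hσ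
      obtain ⟨e1, e2⟩ := h.slot_val hf ha u1 h1 h2
      rw [e2, e1, ih v u2, ih _ (u3 σ hσ)]
      simp only [chain, lap]
      rw [sum_eq_single σ]
      · rw [bit, if_neg hσ]; ring
      · intro σ' _ hne
        have : cc R δ (ed v σ', k) = 0 := by
          by_contra h0
          obtain ⟨r, hr, hr2⟩ := exists_of_cnt_ne h0
          exact hne ((h.slot ha u1 h1 h2).1 σ' r hr hr2).1
        simp [this, bit]
      · simp

theorem exists_slot {δ : ℝ} (hδ : 0 < δ) {t : ℝ} (ht : 0 < t) :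
    ∃ k : ℕ, t ∈ Set.Ioc (k * δ) ((k + 1 : ℕ) * δ) := by
  have h1 : 0 < ⌈t / δ⌉₊ := Nat.ceil_pos.2 (by positivity)
  obtain ⟨k, hk⟩ : ∃ k, ⌈t / δ⌉₊ = k + 1 := ⟨⌈t / δ⌉₊ - 1, by omega⟩
  refine ⟨k, ?_, ?_⟩
  · have := Nat.ceil_lt_add_one (show 0 ≤ t / δ by positivity)
    rw [hk] at this
    push_cast at this
    rw [← lt_div_iff₀ hδ]; linarith
  · have := Nat.le_ceil (t / δ)
    rw [hk] at this
    rwa [← div_le_iff₀ hδ]

theorem slot_lt {δ : ℝ} (hδ : 0 < δ) {t : ℝ} {k K : ℕ} (h1 : k * δ < t) (h2 : t ≤ K * δ) :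
    k < K := by
  have := lt_of_mul_lt_mul_right (h1.trans_le h2) hδ.le
  exact_mod_cast this

theorem LF.count [NeZero d] (h : LF R) (hf : IsEdgeAveraging R x0 f) {δ : ℝ} (hδ : 0 < δ) {K : ℕ}
    {v : V d} (hU : ¬ UP (cc R δ) K v) {ρ ε L T0 : ℝ} (hε : 0 < ε) (hT : 0 ≤ T0)
    (hP : ∀ k : ℕ, T0 < (k + 1 : ℕ) * δ → |(Pop ρ ^ k) x0 v - L| ≤ 2 * ε) (A : Finset ℝ)
    (hA : ∀ t ∈ A, T0 < t ∧ t ≤ K * δ ∧ (∃ σ, t ∈ R (ed v σ)) ∧ 4 * ε < |f t v - L|) :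
    A.card * ε ^ 2 ≤ ∑ k ∈ range K,
      Xi (fun _ : Unit => x0) (fun p _ => cc R δ p) ρ v k () := by
  classical
  have hs : ∀ t ∈ A, ∃ k : ℕ, t ∈ Set.Ioc (k * δ) ((k + 1 : ℕ) * δ) := fun t ht =>
    exists_slot hδ (hT.trans_lt (hA t ht).1)
  choose! κ hκ using hs
  have hlt : ∀ t ∈ A, κ t < K := fun t ht => slot_lt hδ (hκ t ht).1 (hA t ht).2.1
  have hU' : ∀ t ∈ A, ¬ UP (cc R δ) (κ t + 1) v := fun t ht hc => hU (UP_mono (hlt t ht) hc)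
  have inj : Set.InjOn κ A := by
    intro t ht t' ht' e
    obtain ⟨σ, hσ⟩ := (hA t ht).2.2.1
    obtain ⟨σ', hσ'⟩ := (hA t' ht').2.2.1
    have hB : ¬ BadP (fun e => cnt (R e) (κ t * δ) ((κ t + 1 : ℕ) * δ)) v :=
      fun hc => hU' t ht (Or.inl hc)
    exact (((h.slot (by positivity) hB hσ (hκ t ht)).1 σ' t' hσ' (e ▸ hκ t' ht')).2).symm
  have big : ∀ t ∈ A, ε ^ 2 ≤ Xi (fun _ : Unit => x0) (fun p _ => cc R δ p) ρ v (κ t) () := by
    intro t ht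
    obtain ⟨a1, a2, ⟨σ, hσ⟩, a4⟩ := hA t ht
    have hu := hU' t ht
    simp only [UP, not_or, not_exists, not_and] at hu
    obtain ⟨u1, u2, u3⟩ := hu
    replace u1 : ¬ BadP (fun e => cnt (R e) (κ t * δ) ((κ t + 1 : ℕ) * δ)) v := u1
    have ha : (0 : ℝ) ≤ κ t * δ := by positivity
    have hc : cc R δ (ed v σ, κ t) ≠ 0 := h.cnt_ne ha hσ (hκ t ht)
    have e1 := (h.slot_val hf ha u1 hσ (hκ t ht)).1
    rw [h.agree hf hδ _ _ u2, h.agree hf hδ _ _ (u3 σ hc)] at e1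
    have p1 := hP (κ t) (a1.trans_le (hκ t ht).2)
    refine le_trans ?_ (single_le_sum (f := fun s : Dir d => bit (cc R δ (ed v s, κ t)) *
      ((chain x0 (cc R δ) (κ t) v - (Pop ρ ^ κ t) x0 v) ^ 2
        + (chain x0 (cc R δ) (κ t) (v + uu s) - chain x0 (cc R δ) (κ t) v) ^ 2))
      (fun s _ => mul_nonneg (bit_nonneg _) (by positivity)) (mem_univ σ))
    simp only [bit, if_neg hc, one_mul]
    rw [e1] at a4
    generalize chain x0 (cc R δ) (κ t) v = g1 at *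
    generalize chain x0 (cc R δ) (κ t) (v + uu σ) = g2 at *
    generalize (Pop ρ ^ κ t) x0 v = p at *
    by_contra hc2
    push Not at hc2
    have q1 : |g1 - p| < ε := abs_lt_of_sq_lt_sq (by nlinarith [sq_nonneg (g2 - g1)]) hε.le
    have q2 : |g2 - g1| < ε := abs_lt_of_sq_lt_sq (by nlinarith [sq_nonneg (g1 - p)]) hε.le
    rw [abs_lt] at q1 q2
    rw [abs_le] at p1
    rw [lt_abs] at a4
    rcases a4 with a4 | a4 <;> linarith [q1.1, q1.2, q2.1, q2.2, p1.1, p1.2]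
  calc (A.card : ℝ) * ε ^ 2 = ∑ _t ∈ A, ε ^ 2 := by simp
    _ ≤ ∑ t ∈ A, Xi (fun _ : Unit => x0) (fun p _ => cc R δ p) ρ v (κ t) () := sum_le_sum big
    _ = ∑ k ∈ A.image κ, Xi (fun _ : Unit => x0) (fun p _ => cc R δ p) ρ v k () :=
        (sum_image (f := fun k => Xi (fun _ : Unit => x0) (fun p _ => cc R δ p) ρ v k ()) inj).symm
    _ ≤ _ := by
        refine sum_le_sum_of_subset_of_nonneg ?_ fun k _ _ => Xi_nonneg _ _ _ _
        intro k hk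
        obtain ⟨t, ht, rfl⟩ := mem_image.1 hk
        exact mem_range.2 (hlt t ht)

theorem LF.rings_fin (h : LF R) (v : V d) (t : ℝ) :
    {r | (∃ σ, r ∈ R (ed v σ)) ∧ r ∈ Set.Ioc 0 t}.Finite := by
  refine (Set.finite_iUnion fun σ : Dir d => h (ed v σ) t).subset ?_
  rintro r ⟨⟨σ, h1⟩, h2⟩
  exact Set.mem_iUnion.2 ⟨σ, h1, h2⟩

/-- If the bad ring times are bounded, the trajectory eventually oscillates by little. -/
theorem LF.osc (h : LF R) (hf : IsEdgeAveraging R x0 f) {v : V d} {L η T : ℝ} (hη : 0 ≤ η)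
    (hT : 0 ≤ T) (hb : ∀ t, T < t → (∃ σ, t ∈ R (ed v σ)) → |f t v - L| ≤ η) :
    ∃ T', ∀ t ≥ T', |f t v - f T' v| ≤ 2 * η := by
  by_cases hr : ∃ t, T < t ∧ ∃ σ, t ∈ R (ed v σ)
  · obtain ⟨T', hT', hσ⟩ := hr
    refine ⟨T', fun t ht => ?_⟩
    obtain ⟨r, hr, hmax⟩ := Set.exists_max_image _ id (h.rings_fin v t)
      ⟨T', hσ, hT.trans_lt hT', ht⟩
    have h1 : T' ≤ r := hmax T' ⟨hσ, hT.trans_lt hT', ht⟩
    have h2 : f t v = f r v := stay' hf hr.2.1.le hr.2.2 fun σ r' h3 h4 =>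
      absurd (hmax r' ⟨⟨σ, h3⟩, hr.2.1.trans h4.1, h4.2⟩) (not_le.2 h4.1)
    have h3 := abs_le.1 (hb r (hT'.trans_le h1) hr.1)
    have h4 := abs_le.1 (hb T' hT' hσ)
    rw [h2, abs_le]
    constructor <;> linarith [h3.1, h3.2, h4.1, h4.2]
  · refine ⟨T, fun t ht => ?_⟩
    rw [stay' hf hT ht fun σ r h1 h2 => hr ⟨r, h2.1, σ, h1⟩]
    simpa using hη

end Pool.Agent.H187Z.EA
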