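import Pool.Agent.H187Z.EA7

/-! Existence and uniqueness of the trajectory for good clock configurations. -/

set_option linter.unusedSectionVars false

namespace Pool.Agent.H187Z.EA
open MeasureTheory ProbabilityTheory Filter Topology Finset EdgeAvg

variable {d : ℕ} {R : Ed d → Set ℝ} {x0 : V d → ℝ}

/-- Every backward cone is clean at some mesh. -/
def Clean (R : Ed d → Set ℝ) : Prop :=
  ∀ (v : V d) (T : ℝ), ∃ δ : ℝ, 0 < δ ∧ ∃ K : ℕ, T ≤ K * δ ∧ ¬ UP (cc R δ) K v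

theorem LF.val (h : LF R) {f : ℝ → V d → ℝ} (hf : IsEdgeAveraging R x0 f) {δ : ℝ} (hδ : 0 < δ)
    {k : ℕ} {v : V d} (hU : ¬ UP (cc R δ) (k + 1) v) {t : ℝ}
    (ht : t ∈ Set.Ioc (k * δ) ((k + 1 : ℕ) * δ)) :
    ((∃ σ, ∃ r ∈ R (ed v σ), r ∈ Set.Ioc (k * δ) t) → f t v = chain x0 (cc R δ) (k + 1) v) ∧
    ((¬ ∃ σ, ∃ r ∈ R (ed v σ), r ∈ Set.Ioc (k * δ) t) → f t v = chain x0 (cc R δ) k v) := by
  have ha : (0 : ℝ) ≤ k * δ := by positivity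
  constructor
  · rintro ⟨σ, r, h1, h2⟩
    have hB : ¬ BadP (fun e => cnt (R e) (k * δ) ((k + 1 : ℕ) * δ)) v := fun hc => hU (Or.inl hc)
    rw [← h.agree hf hδ _ _ hU]
    refine (stay' hf (ha.trans ht.1.le) ht.2 fun σ' r' h3 h4 => ?_).symm
    have := ((h.slot ha hB h1 ⟨h2.1, h2.2.trans ht.2⟩).1 σ' r' h3 ⟨ht.1.trans h4.1, h4.2⟩).2
    exact absurd h4.1 (not_lt.2 (this ▸ h2.2))
  · intro hn
    rw [← h.agree hf hδ _ _ fun hc => hU (Or.inr (Or.inl hc))]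
    exact stay' hf ha ht.1.le fun σ r h1 h2 => hn ⟨σ, r, h1, h2⟩

theorem LF.unique (h : LF R) (hc : Clean R) {f g : ℝ → V d → ℝ} (hf : IsEdgeAveraging R x0 f)
    (hg : IsEdgeAveraging R x0 g) {t : ℝ} (ht : 0 ≤ t) : f t = g t := by
  rcases ht.eq_or_lt with rfl | ht
  · rw [hf.start, hg.start]
  funext v
  obtain ⟨δ, hδ, K, hK, hU⟩ := hc v t
  obtain ⟨k, hk⟩ := exists_slot hδ ht
  have hU' : ¬ UP (cc R δ) (k + 1) v := fun h => hU (UP_mono (slot_lt hδ hk.1 hK) h)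
  by_cases hr : ∃ σ, ∃ r ∈ R (ed v σ), r ∈ Set.Ioc (k * δ) t
  · rw [(h.val hf hδ hU' hk).1 hr, (h.val hg hδ hU' hk).1 hr]
  · rw [(h.val hf hδ hU' hk).2 hr, (h.val hg hδ hU' hk).2 hr]

theorem LF.dir_unique (h : LF R) (hc : Clean R) {v : V d} {t : ℝ} (ht : 0 < t) {σ σ' : Dir d}
    (h1 : t ∈ R (ed v σ)) (h2 : t ∈ R (ed v σ')) : σ' = σ := by
  obtain ⟨δ, hδ, K, hK, hU⟩ := hc v t
  obtain ⟨k, hk⟩ := exists_slot hδ ht
  have hU' : ¬ UP (cc R δ) (k + 1) v := fun h => hU (UP_mono (slot_lt hδ hk.1 hK) h)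
  have hB : ¬ BadP (fun e => cnt (R e) (k * δ) ((k + 1 : ℕ) * δ)) v := fun hc => hU' (Or.inl hc)
  exact ((h.slot (by positivity) hB h1 hk).1 σ' t h2 hk).1

/-- The dependence relation between space-time points. -/
def Dep (R : Ed d → Set ℝ) (p q : ℝ × V d) : Prop :=
  0 < p.1 ∧ p.1 < q.1 ∧ ∃ σ, p.1 ∈ R (ed q.2 σ) ∧ (p.2 = q.2 ∨ p.2 = q.2 + uu σ)

theorem LF.acc (h : LF R) {δ : ℝ} (hδ : 0 < δ) (k : ℕ) (v : V d) (hU : ¬ UP (cc R δ) k v)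
    (r : ℝ) (σ : Dir d) (u : V d) (h0 : 0 < r) (h1 : r ≤ k * δ) (h2 : r ∈ R (ed v σ))
    (h3 : u = v ∨ u = v + uu σ) : Acc (Dep R) (r, u) := by
  induction k generalizing v r σ u with
  | zero => simp only [Nat.cast_zero, zero_mul] at h1; linarith
  | succ k ih =>
    simp only [UP, not_or, not_exists, not_and] at hU
    obtain ⟨u1, u2, u3⟩ := hU
    replace u1 : ¬ BadP (fun e => cnt (R e) (k * δ) ((k + 1 : ℕ) * δ)) v := u1
    have ha : (0 : ℝ) ≤ k * δ := by positivity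
    rcases le_or_gt r (k * δ) with hr | hr
    · exact ih v u2 r σ u h0 hr h2 h3
    have hc : cc R δ (ed v σ, k) ≠ 0 := h.cnt_ne ha h2 ⟨hr, h1⟩
    obtain ⟨s1, s2⟩ := h.slot ha u1 h2 ⟨hr, h1⟩
    refine Acc.intro _ ?_
    rintro ⟨r', u'⟩ ⟨d1, d2, σ', d3, d4⟩
    dsimp only at d1 d2 d3 d4
    have hr' : r' ≤ k * δ := by
      by_contra hlt
      push Not at hlt
      rcases h3 with rfl | rfl
      · exact d2.ne (s1 σ' r' d3 ⟨hlt, d2.le.trans h1⟩).2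
      · exact d2.ne (s2 σ' r' d3 ⟨hlt, d2.le.trans h1⟩)
    refine ih u ?_ r' σ' u' d1 hr' d3 d4
    rcases h3 with rfl | rfl
    · exact u2
    · exact u3 σ hc

theorem LF.wf (h : LF R) (hc : Clean R) : WellFounded (Dep R) := by
  refine ⟨fun ⟨t, v⟩ => Acc.intro _ ?_⟩
  rintro ⟨r, u⟩ ⟨d1, d2, σ, d3, d4⟩
  obtain ⟨δ, hδ, K, hK, hU⟩ := hc v t
  exact h.acc hδ K v hU r σ u d1 (d2.le.trans hK) d3 d4

theorem exists_fix {α : Type*} {r : α → α → Prop} (hr : WellFounded r) (G : (α → ℝ) → α → ℝ)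
    (hG : ∀ φ ψ a, (∀ b, r b a → φ b = ψ b) → G φ a = G ψ a) : ∃ F : α → ℝ, ∀ a, F a = G F a := by
  classical
  refine ⟨hr.fix (C := fun _ => ℝ) fun a ih => G (fun b => if h : r b a then ih b h else 0) a,
    fun a => ?_⟩
  rw [WellFounded.fix_eq]
  exact hG _ _ a fun b hb => by simp [hb]

/-- The direction of an edge at `v` ringing at time `r`. -/
noncomputable def dirAt [NeZero d] (R : Ed d → Set ℝ) (r : ℝ) (v : V d) : Dir d :=
  Classical.epsilon fun σ => r ∈ R (ed v σ)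

open Classical in
/-- The value after the last ring in `S`. -/
noncomputable def after [NeZero d] (R : Ed d → Set ℝ) (x0 : V d → ℝ) (φ : ℝ × V d → ℝ) (S : Set ℝ)
    (v : V d) : ℝ :=
  if S.Nonempty then (φ (sSup S, v) + φ (sSup S, v + uu (dirAt R (sSup S) v))) / 2 else x0 v

theorem LF.exists_sol [NeZero d] (h : LF R) (hc : Clean R) (x0 : V d → ℝ) :
    ∃ f, IsEdgeAveraging R x0 f := by
  have hfin : ∀ (v : V d) (t : ℝ), {r | (∃ σ, r ∈ R (ed v σ)) ∧ r ∈ Set.Ioo 0 t}.Finite :=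
    fun v t => (h.rings_fin v t).subset fun r hr => ⟨hr.1, hr.2.1, hr.2.2.le⟩
  obtain ⟨F, hF⟩ := exists_fix (h.wf hc)
    (fun φ q => after R x0 φ {r | (∃ σ, r ∈ R (ed q.2 σ)) ∧ r ∈ Set.Ioo 0 q.1} q.2) (by
      rintro φ ψ ⟨t, v⟩ hφ
      unfold after
      split_ifs with hne
      · have hm := hne.csSup_mem (hfin v t)
        generalize sSup {r | (∃ σ, r ∈ R (ed (t, v).2 σ)) ∧ r ∈ Set.Ioo 0 (t, v).1} = r at hm ⊢
        have hd : r ∈ R (ed v (dirAt R r v)) := Classical.epsilon_spec hm.1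
        rw [hφ (r, v) ⟨hm.2.1, hm.2.2, _, hd, Or.inl rfl⟩,
          hφ (r, v + uu (dirAt R r v)) ⟨hm.2.1, hm.2.2, _, hd, Or.inr rfl⟩]
      · rfl)
  have hL : ∀ (u : V d) (t : ℝ), 0 < t → Function.leftLim (fun s => after R x0 F
      {r | (∃ σ, r ∈ R (ed u σ)) ∧ r ∈ Set.Ioc 0 s} u) t = F (t, u) := by
    intro u t ht
    obtain ⟨s, hs0, hst, hs⟩ : ∃ s, 0 ≤ s ∧ s < t ∧
        ∀ r, (∃ σ, r ∈ R (ed u σ)) → r ∈ Set.Ioo 0 t → r ≤ s := by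
      by_cases hne : {r | (∃ σ, r ∈ R (ed u σ)) ∧ r ∈ Set.Ioo 0 t}.Nonempty
      · have hm := hne.csSup_mem (hfin u t)
        exact ⟨_, hm.2.1.le, hm.2.2, fun r h1 h2 => le_csSup (hfin u t).bddAbove ⟨h1, h2⟩⟩
      · exact ⟨0, le_rfl, ht, fun r h1 h2 => absurd ⟨r, h1, h2⟩ hne⟩
    refine leftLim_of_const hst fun r hr => ?_
    rw [hF]
    congr 1
    ext r'
    constructor
    · rintro ⟨h1, h2⟩
      exact ⟨h1, h2.1, h2.2.trans_lt hr.2⟩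
    · rintro ⟨h1, h2⟩
      exact ⟨h1, h2.1, (hs r' h1 h2).trans hr.1.le⟩
  refine ⟨fun t v => after R x0 F {r | (∃ σ, r ∈ R (ed v σ)) ∧ r ∈ Set.Ioc 0 t} v, ?_, ?_, ?_⟩
  · funext v
    simp [after]
  · intro v s t hs hst hno
    congr 1
    ext r
    constructor
    · rintro ⟨⟨σ, h1⟩, h2⟩
      refine ⟨⟨σ, h1⟩, h2.1, ?_⟩
      by_contra hlt
      push Not at hlt
      have : R (ed v σ) ∩ Set.Ioc s t = ∅ := by
        obtain ⟨i, b⟩ := σ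
        cases b
        · exact hno (v - ue i) i (Or.inr (by simp [ue]))
        · exact hno v i (Or.inl rfl)
      exact (this ▸ Set.mem_inter h1 ⟨hlt, h2.2⟩ : r ∈ (∅ : Set ℝ))
    · rintro ⟨h1, h2⟩
      exact ⟨h1, h2.1, h2.2.trans hst⟩
  · intro x i t ht hR v hv
    rw [hL x t ht, hL _ t ht]
    have key : ∀ σ, t ∈ R (ed v σ) → after R x0 F {r | (∃ σ, r ∈ R (ed v σ)) ∧ r ∈ Set.Ioc 0 t} v
        = (F (t, v) + F (t, v + uu σ)) / 2 := by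
      intro σ hσ
      have hg : IsGreatest {r | (∃ σ, r ∈ R (ed v σ)) ∧ r ∈ Set.Ioc 0 t} t :=
        ⟨⟨⟨σ, hσ⟩, ht, le_rfl⟩, fun r hr => hr.2.2⟩
      have hd : dirAt R t v = σ :=
        h.dir_unique hc ht hσ (Classical.epsilon_spec (p := fun σ => t ∈ R (ed v σ)) ⟨σ, hσ⟩)
      rw [after, if_pos ⟨t, hg.1⟩, hg.csSup_eq, hd]
    rcases hv with rfl | rfl
    · exact key (i, true) hR
    · rw [key (i, false) (by simpa [ed, ue] using hR), add_comm]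
      simp [uu, ue]

end Pool.Agent.H187Z.EA
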