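import Pool.Agent.H187Z.EA8

/-! Assembly of the almost sure convergence theorem. -/

set_option linter.unusedSectionVars false

namespace Pool.Agent.H187Z.EA
open MeasureTheory ProbabilityTheory Filter Topology Finset EdgeAvg

variable {d : ℕ} {Ω : Type*} [mΩ : MeasurableSpace Ω] {μ : Measure Ω} [IsProbabilityMeasure μ]
  {R : Ed d → Ω → Set ℝ} {f0 : Ω → V d → ℝ} {M : ℝ}

/-- The hypotheses, with a surely bounded initial field. -/
structure Hyp (μ : Measure Ω) (R : Ed d → Ω → Set ℝ) (f0 : Ω → V d → ℝ) (M : ℝ) : Prop where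
  clock : ∀ e, IsPoissonClock μ (R e)
  ind : iIndepFun (fun e ω (p : ℝ × ℝ) => cnt (R e ω) p.1 p.2) μ
  mf : Measurable f0
  indf : IndepFun f0 (fun ω e (p : ℝ × ℝ) => cnt (R e ω) p.1 p.2) μ
  bdd : ∀ ω v, |f0 ω v| ≤ M
  stat : ∀ a, μ.map (fun ω v => f0 ω (v + a)) = μ.map f0

theorem Hyp.disc (H : Hyp μ R f0 M) (δ : NNReal) :
    Disc μ f0 (fun p ω => cc (fun e => R e ω) δ p) (poissonMeasure δ) M where
  mf := H.mf
  bdd := H.bdd
  mc := fun p => (H.clock p.1).meas _ _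
  ind := by
    have hδ : (0 : ℝ) ≤ δ := δ.2
    refine iIndepFun_uncurry' (X := fun (e : Ed d) (k : ℕ) ω =>
      cnt (R e ω) (k * (δ : ℝ)) ((k + 1 : ℕ) * (δ : ℝ))) (fun e k => (H.clock e).meas _ _) ?_ ?_
    · exact H.ind.comp (fun _ (φ : ℝ × ℝ → ℕ) (k : ℕ) => φ (k * (δ : ℝ), (k + 1 : ℕ) * (δ : ℝ)))
        (fun _ => by fun_prop)
    · intro e
      refine (H.clock e).indep (fun k => k * (δ : ℝ)) (by simp) ?_
      intro a b hab
      dsimp only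
      gcongr
  law := by
    intro p
    have hδ : (0 : ℝ) ≤ δ := δ.2
    have := (H.clock p.1).law (p.2 * (δ : ℝ)) ((p.2 + 1 : ℕ) * (δ : ℝ)) (by positivity)
      (by gcongr; omega)
    rw [show ((p.2 + 1 : ℕ) : ℝ) * (δ : ℝ) - p.2 * δ = δ by push_cast; ring,
      Real.toNNReal_coe] at this
    exact this
  indf := H.indf.comp measurable_id
    (ψ := fun (w : Ed d → ℝ × ℝ → ℕ) (p : Ed d × ℕ) =>
      w p.1 (p.2 * (δ : ℝ), (p.2 + 1 : ℕ) * (δ : ℝ))) (by fun_prop)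
  stat := H.stat

theorem Hyp.UP_small (H : Hyp μ R f0 M) (v : V d) (T : ℕ) {θ : ℝ} (hθ : 0 < θ) :
    ∃ (δ : NNReal) (K : ℕ), 0 < δ ∧ (δ : ℝ) ≤ 1 ∧ (δ : ℝ) * d ≤ 1 / 4 ∧ (K : ℝ) * δ = T ∧
      μ.real {ω | UP (cc (fun e => R e ω) δ) K v} ≤ θ := by
  set B : ℝ := 2 * d * (1 + 4 * d) * T * Real.exp (2 * d * T) with hB
  have hB0 : 0 ≤ B := by positivity
  obtain ⟨N, hN⟩ := exists_nat_gt (B / θ + 4 * d + 1)
  have h1 : 0 ≤ B / θ := by positivity
  have hd : (0 : ℝ) ≤ d := Nat.cast_nonneg d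
  have hN0 : (0 : ℝ) < N := by linarith
  refine ⟨⟨1 / N, by positivity⟩, N * T, ?_, ?_, ?_, ?_, ?_⟩
  · exact show (0 : ℝ) < 1 / N by positivity
  · change 1 / (N : ℝ) ≤ 1
    rw [div_le_one hN0]; linarith
  · change 1 / (N : ℝ) * d ≤ 1 / 4
    rw [div_mul_eq_mul_div, div_le_iff₀ hN0]; linarith
  · change ((N * T : ℕ) : ℝ) * (1 / N) = T
    push_cast; field_simp
  · refine ((H.disc ⟨1 / N, by positivity⟩).UP_poisson (N * T) v).trans ?_
    change 2 * d * (1 + 4 * d) * (1 / (N : ℝ)) * (1 / (N : ℝ) * ((N * T : ℕ) : ℝ))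
      * Real.exp (2 * d * (1 / (N : ℝ) * ((N * T : ℕ) : ℝ))) ≤ θ
    have e : 1 / (N : ℝ) * ((N * T : ℕ) : ℝ) = T := by push_cast; field_simp
    rw [e]
    have h2 : B / θ ≤ N := by linarith
    rw [div_le_iff₀ hθ] at h2
    calc _ = B / N := by rw [hB]; ring
      _ ≤ θ := by rw [div_le_iff₀ hN0]; linarith

theorem Hyp.ae_LF (H : Hyp μ R f0 M) : ∀ᵐ ω ∂μ, LF (fun e => R e ω) :=
  ae_all_iff.2 fun e => (H.clock e).locFin

theorem Hyp.ae_clean (H : Hyp μ R f0 M) : ∀ᵐ ω ∂μ, Clean (fun e => R e ω) := by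
  have : ∀ᵐ ω ∂μ, ∀ (v : V d) (T : ℕ), ∃ δ : ℝ, 0 < δ ∧ ∃ K : ℕ, (T : ℝ) ≤ K * δ ∧
      ¬ UP (cc (fun e => R e ω) δ) K v := by
    refine ae_all_iff.2 fun v => ae_all_iff.2 fun T => ?_
    rw [ae_iff]
    refine null_of_forall fun θ hθ => ?_
    obtain ⟨δ, K, h1, -, -, h4, h5⟩ := H.UP_small v T hθ
    refine (measureReal_mono fun ω hω => ?_).trans h5
    by_contra hc
    exact hω ⟨δ, h1, K, h4.ge, hc⟩
  filter_upwards [this] with ω hω v T
  obtain ⟨δ, h1, K, h2, h3⟩ := hω v ⌈T⌉₊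
  exact ⟨δ, h1, K, (Nat.le_ceil T).trans h2, h3⟩

theorem avg_field (M : ℝ) (v : V d) (j : ℕ) (x : V d → ℝ) (hx : ∀ y, |x y| ≤ M) (y : V d) :
    (avg (fun (s : Dir d) (z : V d → ℝ) w => z (w + uu s)) ^ j)
      (fun z => max (-M) (min M (z v))) (fun w => x (w + y)) = (avg (mv (d := d)) ^ j) x (v + y) := by
  induction j generalizing y with
  | zero =>
    simp only [pow_zero, Module.End.one_apply]
    rw [min_eq_right (abs_le.1 (hx _)).2, max_eq_right (abs_le.1 (hx _)).1]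
  | succ j ih =>
    rw [pow_succ', pow_succ', Module.End.mul_apply, Module.End.mul_apply, avg_apply, avg_apply, ih]
    congr 2
    refine sum_congr rfl fun s _ => ?_
    rw [mv, add_assoc, ← ih]
    simp only [add_assoc, add_comm (uu s) y]

theorem Hyp.ae_lim [NeZero d] (H : Hyp μ R f0 M) (v : V d) :
    ∀ᵐ ω ∂μ, ∃ L, Tendsto (fun j => (avg (mv (d := d)) ^ j) (f0 ω) v) atTop (𝓝 L) := by
  have := Measure.isProbabilityMeasure_map (μ := μ) H.mf.aemeasurable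
  have hS : Sym (μ.map f0) (fun (s : Dir d) (z : V d → ℝ) w => z (w + uu s)) flp := by
    constructor
    · intro s
      have hm : Measurable (fun (z : V d → ℝ) w => z (w + uu s)) := by fun_prop
      refine ⟨hm, ?_⟩
      rw [Measure.map_map hm H.mf]
      exact H.stat (uu s)
    · intro s x
      funext w
      simp [uu_flp]
  have hM : 0 ≤ M ∨ IsEmpty Ω := by
    by_cases h : Nonempty Ω
    · obtain ⟨ω⟩ := h
      exact Or.inl ((abs_nonneg _).trans (H.bdd ω 0))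
    · exact Or.inr (not_nonempty_iff.1 h)
  have hF : BM (fun z : V d → ℝ => max (-M) (min M (z v))) := by
    refine ⟨by fun_prop, |M|, fun z => abs_le.2 ⟨?_, ?_⟩⟩
    · exact (neg_le_neg (le_abs_self M)).trans (le_max_left _ _)
    · exact max_le (neg_le_abs M) ((min_le_left _ _).trans (le_abs_self M))
  filter_upwards [ae_of_ae_map H.mf.aemeasurable (ae_tendsto hS hF)] with ω hω
  have e := fun j => avg_field M v j (f0 ω) (H.bdd ω) 0
  simp only [add_zero] at e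
  simpa only [e] using hω

theorem exists_geom {a : ℕ → ℝ} {L : ℝ} (h : Tendsto a atTop (𝓝 L)) {ε : ℝ} (hε : 0 < ε) :
    ∃ C : ℕ, ∀ j, |a j - L| ≤ ε + C * (1 / 2) ^ j := by
  obtain ⟨J, hJ⟩ := Metric.tendsto_atTop.1 h ε hε
  obtain ⟨C, hC⟩ := exists_nat_ge (∑ j ∈ range J, |a j - L| * 2 ^ j)
  refine ⟨C, fun j => ?_⟩
  rcases le_or_gt J j with hj | hj
  · have := hJ j hj
    rw [Real.dist_eq] at this
    have h2 : (0 : ℝ) ≤ C * (1 / 2) ^ j := by positivity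
    linarith
  · have h1 := (single_le_sum (f := fun j => |a j - L| * 2 ^ j) (fun j _ => by positivity)
      (mem_range.2 hj)).trans hC
    have h2 : |a j - L| ≤ C * (1 / 2) ^ j := by
      rw [one_div, inv_pow, ← div_eq_mul_inv, le_div_iff₀ (by positivity)]
      exact h1
    linarith

/-- Many bad ring times in a bounded time interval. -/
def Many [NeZero d] (R : Ed d → Set ℝ) (x0 : V d → ℝ) (v : V d) (ε C T0 : ℝ) (r T1 : ℕ) : Prop :=
  LF R ∧ ∃ f L, IsEdgeAveraging R x0 f ∧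
    (∀ j, |(avg (mv (d := d)) ^ j) x0 v - L| ≤ ε + C * (1 / 2) ^ j) ∧ ∃ A : Finset ℝ, A.card = r ∧
      ∀ t ∈ A, T0 < t ∧ t ≤ T1 ∧ (∃ σ, t ∈ R (ed v σ)) ∧ 4 * ε < |f t v - L|

theorem Hyp.many_bound [NeZero d] (H : Hyp μ R f0 M) (v : V d) {ε C T0 : ℝ} (hε : 0 < ε)
    (hC : 0 ≤ C) (hT : 0 ≤ T0) (hT' : C * Real.exp (-((T0 - 1) / 2)) ≤ ε) {r : ℕ} (hr : 0 < r)
    (T1 : ℕ) :
    μ.real {ω | Many (fun e => R e ω) (f0 ω) v ε C T0 r T1} ≤ (12 * d + 8) * M ^ 2 / (r * ε ^ 2) := by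
  refine le_of_forall_pos_le_add fun θ hθ => ?_
  obtain ⟨δ, K, h1, h2, h3, h4, h5⟩ := H.UP_small v T1 hθ
  have hδ : (0 : ℝ) < δ := h1
  have D := H.disc δ
  have r0 := rho_nonneg (poissonMeasure δ)
  have r1 := rho_le δ
  have r2 := le_rho δ h2
  have hd : (1 : ℝ) ≤ d := by exact_mod_cast NeZero.one_le
  have r3 : rho (poissonMeasure δ) * d ≤ 1 / 4 :=
    (mul_le_mul_of_nonneg_right r1 (by linarith)).trans h3
  have X := D.Xi_bound r3 v K (r := r * ε ^ 2) (by positivity)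
  refine le_trans (measureReal_mono ?_) ((measureReal_union_le _ _).trans (add_le_add X h5))
  rintro ω ⟨hLF, f, L, hf, hL, A, hA, hA2⟩
  by_cases hU : UP (cc (fun e => R e ω) δ) K v
  · exact Or.inr hU
  left
  have := hLF.count hf hδ hU (ρ := rho (poissonMeasure δ)) (L := L) hε hT (fun k hk => ?_) A
    (by rw [h4]; exact hA2)
  · rw [hA] at this
    exact this
  have p := Pop_pow_close r0 r3 (f0 ω) v hL k 0
  simp only [pow_zero, Module.End.one_apply, mul_one] at p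
  refine p.trans ?_
  have q : (1 - d * rho (poissonMeasure δ)) ^ k ≤ Real.exp (-((T0 - 1) / 2)) := by
    have q1 : (1 - d * rho (poissonMeasure δ)) ^ k
        ≤ Real.exp (-(d * rho (poissonMeasure δ))) ^ k :=
      pow_le_pow_left₀ (by linarith) (Real.one_sub_le_exp_neg _) k
    refine q1.trans ?_
    rw [← Real.exp_nat_mul, Real.exp_le_exp]
    push_cast at hk
    have hk0 : (0 : ℝ) ≤ k := Nat.cast_nonneg k
    have q2 : (δ : ℝ) / 2 ≤ d * rho (poissonMeasure δ) := by nlinarith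
    nlinarith [mul_le_mul_of_nonneg_left q2 hk0]
  linarith [mul_le_mul_of_nonneg_left q hC]

theorem Hyp.ae_few [NeZero d] (H : Hyp μ R f0 M) (v : V d) {ε C : ℝ} (hε : 0 < ε) (hC : 0 ≤ C) :
    ∀ᵐ ω ∂μ, LF (fun e => R e ω) → ∀ f L, IsEdgeAveraging (fun e => R e ω) (f0 ω) f →
      (∀ j, |(avg (mv (d := d)) ^ j) (f0 ω) v - L| ≤ ε + C * (1 / 2) ^ j) →
      ∃ T, 0 ≤ T ∧ ∀ t, T < t → (∃ σ, t ∈ R (ed v σ) ω) → |f t v - L| ≤ 4 * ε := by
  obtain ⟨T0, hT, hT'⟩ : ∃ T0 : ℝ, 0 ≤ T0 ∧ C * Real.exp (-((T0 - 1) / 2)) ≤ ε := by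
    refine ⟨2 * (C / ε) + 1, by positivity, ?_⟩
    rw [show (2 * (C / ε) + 1 - 1) / 2 = C / ε by ring, Real.exp_neg, ← div_eq_mul_inv,
      div_le_iff₀ (Real.exp_pos _)]
    have := Real.add_one_le_exp (C / ε)
    have h2 : C = ε * (C / ε) := by field_simp
    nlinarith
  rw [ae_iff]
  refine null_of_forall fun θ hθ => ?_
  obtain ⟨r, hr⟩ := exists_nat_gt ((12 * d + 8) * M ^ 2 / (θ * ε ^ 2))
  have hr0 : (0 : ℝ) < r := lt_of_le_of_lt (by positivity) hr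
  have hb : (12 * d + 8) * M ^ 2 / (r * ε ^ 2) ≤ θ := by
    rw [div_lt_iff₀ (by positivity)] at hr
    rw [div_le_iff₀ (by positivity)]
    linarith
  refine le_trans (measureReal_mono ?_) (real_iUnion_le
    (fun T1 => {ω | Many (fun e => R e ω) (f0 ω) v ε C T0 r T1}) ?_
    fun T1 => (H.many_bound v hε hC hT hT' (by exact_mod_cast hr0) T1).trans hb)
  · intro ω hω
    simp only [Set.mem_ofPred_eq] at hω
    push Not at hω
    obtain ⟨hLF, f, L, hf, hL, hbad⟩ := hω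
    have hinf : {t | T0 < t ∧ (∃ σ, t ∈ R (ed v σ) ω) ∧ 4 * ε < |f t v - L|}.Infinite := by
      refine Set.infinite_of_not_bddAbove ?_
      rintro ⟨B, hB⟩
      obtain ⟨t, h1, h2, h3⟩ := hbad (max B T0) (hT.trans (le_max_right _ _))
      exact absurd (hB ⟨(le_max_right _ _).trans_lt h1, h2, h3⟩)
        (not_le.2 ((le_max_left _ _).trans_lt h1))
    obtain ⟨A, hA, hcard⟩ := hinf.exists_subset_card_eq r
    obtain ⟨B, hB⟩ := A.bddAbove
    refine Set.mem_iUnion.2 ⟨⌈B⌉₊, hLF, f, L, hf, hL, A, hcard, fun t ht => ?_⟩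
    exact ⟨(hA ht).1, (hB ht).trans (Nat.le_ceil B), (hA ht).2⟩
  · rintro a b hab ω ⟨hLF, f, L, hf, hL, A, hA, hA2⟩
    refine ⟨hLF, f, L, hf, hL, A, hA, fun t ht => ⟨(hA2 t ht).1, (hA2 t ht).2.1.trans ?_,
      (hA2 t ht).2.2⟩⟩
    exact_mod_cast hab

theorem Hyp.ae_conv [NeZero d] (H : Hyp μ R f0 M) :
    ∀ᵐ ω ∂μ, ∀ f, IsEdgeAveraging (fun e => R e ω) (f0 ω) f →
      ∀ v, ∃ L, Tendsto (fun t => f t v) atTop (𝓝 L) := by
  have h1 := ae_all_iff.2 H.ae_lim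
  have h2 := ae_all_iff.2 fun v => ae_all_iff.2 fun i : ℕ => ae_all_iff.2 fun C : ℕ =>
    H.ae_few v (ε := 1 / ((i : ℝ) + 1)) (C := C) (by positivity) (Nat.cast_nonneg C)
  filter_upwards [h1, h2, H.ae_LF] with ω h1 h2 hLF f hf v
  obtain ⟨L, hL⟩ := h1 v
  refine cauchySeq_tendsto_of_complete (Metric.cauchySeq_iff'.2 fun ε hε => ?_)
  obtain ⟨i, hi⟩ := exists_nat_one_div_lt (K := ℝ) (show 0 < ε / 8 by positivity)
  obtain ⟨C, hC⟩ := exists_geom hL (ε := 1 / ((i : ℝ) + 1)) (by positivity)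
  obtain ⟨T, hT, hb⟩ := h2 v i C hLF f L hf hC
  obtain ⟨T', hT'⟩ := hLF.osc hf (by positivity) hT hb
  refine ⟨T', fun t ht => ?_⟩
  rw [Real.dist_eq]
  linarith [hT' t ht]

theorem main (hd : 1 ≤ d) (hR : ∀ e, IsPoissonClock μ (R e))
    (hind : iIndepFun (fun e ω (p : ℝ × ℝ) => cnt (R e ω) p.1 p.2) μ) (hf0 : Measurable f0)
    (hindf : IndepFun f0 (fun ω e (p : ℝ × ℝ) => cnt (R e ω) p.1 p.2) μ)
    (hM : ∀ᵐ ω ∂μ, ∀ v, |f0 ω v| ≤ M)
    (hstat : ∀ a, μ.map (fun ω v => f0 ω (v + a)) = μ.map f0) :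
    ∀ᵐ ω ∂μ, (∃ f, IsEdgeAveraging (fun e => R e ω) (f0 ω) f) ∧
      (∀ f g, IsEdgeAveraging (fun e => R e ω) (f0 ω) f → IsEdgeAveraging (fun e => R e ω) (f0 ω) g →
        ∀ t, 0 ≤ t → f t = g t) ∧
      ∀ f, IsEdgeAveraging (fun e => R e ω) (f0 ω) f →
        ∀ v, ∃ L, Tendsto (fun t => f t v) atTop (𝓝 L) := by
  have : NeZero d := ⟨by omega⟩
  let cl : (V d → ℝ) → V d → ℝ := fun x v => max (-|M|) (min |M| (x v))
  have mcl : Measurable cl := by fun_prop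
  have H : Hyp μ R (fun ω => cl (f0 ω)) |M| := by
    refine ⟨hR, hind, mcl.comp hf0, hindf.comp mcl measurable_id, fun ω v => abs_le.2 ⟨?_, ?_⟩,
      fun a => ?_⟩
    · exact le_max_left _ _
    · exact max_le (by linarith [abs_nonneg M]) (min_le_left _ _)
    · have e1 := Measure.map_map (μ := μ) mcl hf0
      have e2 := Measure.map_map (μ := μ) mcl
        (show Measurable (fun ω v => f0 ω (v + a)) by fun_prop)
      rw [hstat a, e1] at e2
      exact e2.symm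
  filter_upwards [H.ae_conv, H.ae_LF, H.ae_clean, hM] with ω h1 h2 h3 h4
  have e : cl (f0 ω) = f0 ω := by
    funext v
    have := abs_le.1 ((h4 v).trans (le_abs_self M))
    simp only [cl]
    rw [min_eq_right this.2, max_eq_right this.1]
  rw [e] at h1
  exact ⟨h2.exists_sol h3 _, fun f g hf hg t ht => h2.unique h3 hf hg ht, h1⟩

end Pool.Agent.H187Z.EA
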