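import Mathlib

/-!
Rooted digraphs (parallel edges allowed), edge-disjoint path systems and flames.
A digraph is given by a vertex type `V`, an edge type `E` and the maps `tail head : E → V`.
-/

namespace Pool.Agent.H187Z.Flame

variable {V E : Type} (tail head : E → V)

/-- `IsWalk tail head a b p`: the list of edges `p` is a directed walk from `a` to `b`. -/
def IsWalk : V → V → List E → Prop
  | a, b, [] => a = b
  | a, b, e :: p => tail e = a ∧ IsWalk (head e) b p

/-- A finite directed path from `a` to `b`: a walk whose vertices are pairwise distinct. -/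
def IsPath (a b : V) (p : List E) : Prop :=
  IsWalk tail head a b p ∧ (a :: p.map head).Nodup

/-- A directed cycle: a nonempty closed walk that enters no vertex twice. -/
def IsCycle (p : List E) : Prop :=
  p ≠ [] ∧ (∃ a, IsWalk tail head a a p) ∧ (p.map head).Nodup

/-- The digraph has no directed cycle. -/
def Acyclic : Prop := ∀ p : List E, ¬ IsCycle tail head p

/-- A backward-infinite path `... → f 2 → f 1 → f 0` (edges), with pairwise distinct vertices. -/
def IsBackwardInfinitePath (f : ℕ → E) : Prop :=
  (∀ n, head (f (n + 1)) = tail (f n)) ∧ Function.Injective fun n => head (f n)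

/-- An `r`-rooted digraph: no loops, and no edge enters `r`. -/
def IsRooted (r : V) : Prop := (∀ e, tail e ≠ head e) ∧ ∀ e, head e ≠ r

/-- `I ∈ 𝒢_{D(F)}(v)`: `I` is a set of edges of `F` entering `v` that is covered by a family of
pairwise edge-disjoint `r v`-paths using only edges of `F`. -/
def InGv (r : V) (F : Set E) (v : V) (I : Set E) : Prop :=
  (∀ e ∈ I, e ∈ F ∧ head e = v) ∧
    ∃ P : Set (List E), (∀ p ∈ P, IsPath tail head r v p ∧ ∀ e ∈ p, e ∈ F) ∧
      P.Pairwise List.Disjoint ∧ ∀ e ∈ I, ∃ p ∈ P, e ∈ p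

/-- `I ∈ 𝒢(D(F))`: `I` is a union over `v ≠ r` of sets `J v ∈ 𝒢_{D(F)}(v)`. -/
def InG (r : V) (F : Set E) (I : Set E) : Prop :=
  ∃ J : V → Set E, (∀ v, v ≠ r → InGv tail head r F v (J v)) ∧ I = ⋃ v ∈ {v | v ≠ r}, J v

/-- `F` is a flame of `D`: `F ∈ 𝒢(D(F))`. -/
def IsFlame (r : V) (F : Set E) : Prop := InG tail head r F F

end Pool.Agent.H187Z.Flame
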