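import Pool.Agent.H187Z.FlameDefs

namespace Pool.Agent.H187Z.Flame

section general
variable {V E : Type} {tail head : E → V}

theorem IsWalk.pred {a b : V} {p : List E} (h : IsWalk tail head a b p) {e : E} (he : e ∈ p) :
    tail e = a ∨ ∃ f ∈ p, head f = tail e := by
  induction p generalizing a with
  | nil => simp at he
  | cons g q ih =>
    obtain ⟨h1, h2⟩ := h
    rcases List.mem_cons.1 he with rfl | he
    · exact Or.inl h1
    · rcases ih h2 he with h3 | ⟨f, hf, h3⟩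
      · exact Or.inr ⟨g, List.mem_cons_self, h3.symm⟩
      · exact Or.inr ⟨f, List.mem_cons_of_mem _ hf, h3⟩

theorem IsPath.inj {a b : V} {p : List E} (h : IsPath tail head a b p) {e f : E} (he : e ∈ p)
    (hf : f ∈ p) (hef : head e = head f) : e = f :=
  List.inj_on_of_nodup_map (List.nodup_cons.1 h.2).2 he hf hef

theorem IsWalk.rank_le (ρ : V → ℕ) (hρ : ∀ e, ρ (tail e) < ρ (head e)) {a b : V} {p : List E}
    (h : IsWalk tail head a b p) : ρ a + p.length ≤ ρ b := by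
  induction p generalizing a with
  | nil => simp [IsWalk] at h; simp [h]
  | cons g q ih =>
    obtain ⟨h1, h2⟩ := h
    have := ih h2
    have h3 := hρ g
    rw [h1] at h3
    simp only [List.length_cons]
    omega

theorem acyclic_of_rank (ρ : V → ℕ) (hρ : ∀ e, ρ (tail e) < ρ (head e)) : Acyclic tail head := by
  rintro p ⟨h1, ⟨a, h2⟩, -⟩
  have := h2.rank_le ρ hρ
  have h3 : p.length = 0 := by omega
  exact h1 (List.length_eq_zero_iff.1 h3)

theorem noBack_of_rank (ρ : V → ℕ) (hρ : ∀ e, ρ (tail e) < ρ (head e)) (f : ℕ → E) :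
    ¬ IsBackwardInfinitePath tail head f := by
  rintro ⟨h1, -⟩
  have key : ∀ n, ρ (head (f n)) + n ≤ ρ (head (f 0)) := by
    intro n
    induction n with
    | zero => simp
    | succ n ih =>
      have := hρ (f n)
      rw [h1 n]
      omega
  have := key (ρ (head (f 0)) + 1)
  omega

theorem IsFlame.cover {r : V} {F : Set E} (h : IsFlame tail head r F) {v : V} (hv : v ≠ r) :
    ∃ P : Set (List E), (∀ p ∈ P, IsPath tail head r v p ∧ ∀ e ∈ p, e ∈ F) ∧
      P.Pairwise List.Disjoint ∧ ∀ e ∈ F, head e = v → ∃ p ∈ P, e ∈ p := by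
  obtain ⟨J, hJ, hF⟩ := h
  obtain ⟨-, P, hP1, hP2, hP3⟩ := hJ v hv
  refine ⟨P, hP1, hP2, fun e he hev => hP3 e ?_⟩
  rw [hF] at he
  simp only [Set.mem_iUnion] at he
  obtain ⟨u, hu, heu⟩ := he
  have := ((hJ u hu).1 e heu).2
  rw [hev] at this
  rw [this]; exact heu

end general

/-- countable sets of reals -/
abbrev CS : Type := {S : Set ℝ // S.Countable}

inductive Vx : Type
  | r : Vx
  | x : Vx
  | z (a : ℝ) : Vx
  | v : Vx
  | w (S : CS) : Vx

inductive Ed : Type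
  | rx (n : ℕ) : Ed
  | xz (a : ℝ) : Ed
  | zv (a : ℝ) : Ed
  | vw (S : CS) : Ed
  | zw (S : CS) (a : ℝ) (h : a ∈ S.1) : Ed

def tl : Ed → Vx
  | .rx _ => .r
  | .xz _ => .x
  | .zv a => .z a
  | .vw _ => .v
  | .zw _ a _ => .z a

def hd : Ed → Vx
  | .rx _ => .x
  | .xz a => .z a
  | .zv _ => .v
  | .vw S => .w S
  | .zw S _ _ => .w S

def rk : Vx → ℕ
  | .r => 0
  | .x => 1
  | .z _ => 2
  | .v => 3
  | .w _ => 4

theorem rk_lt (e : Ed) : rk (tl e) < rk (hd e) := by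
  cases e <;> simp [rk, tl, hd]

theorem rooted : IsRooted tl hd Vx.r := by
  refine ⟨fun e h => ?_, fun e => ?_⟩
  · have := rk_lt e
    rw [h] at this
    exact lt_irrefl _ this
  · cases e <;> simp [hd]

def Iset : Set Ed := {e | ∃ S, hd e = Vx.w S}

theorem Iset_inG : InG tl hd Vx.r Set.univ Iset := by
  refine ⟨fun u => {e | hd e = u ∧ ∃ S, u = Vx.w S}, ?_, ?_⟩
  · intro u hu
    refine ⟨fun e he => ⟨trivial, he.1⟩, ?_⟩
    by_cases hS : ∃ S, u = Vx.w S
    · obtain ⟨S, rfl⟩ := hS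
      obtain ⟨g, hg⟩ := Set.countable_iff_exists_injOn.1 S.2
      obtain ⟨a0, ha0⟩ : ∃ a0, a0 ∉ S.1 := by
        by_contra hcon
        push Not at hcon
        have : S.1 = Set.univ := Set.eq_univ_of_forall hcon
        exact Cardinal.not_countable_real (this ▸ S.2)
      refine ⟨insert [Ed.rx 0, Ed.xz a0, Ed.zv a0, Ed.vw S]
        {p | ∃ a, ∃ h : a ∈ S.1, p = [Ed.rx (g a + 1), Ed.xz a, Ed.zw S a h]}, ?_, ?_, ?_⟩
      · rintro p (rfl | ⟨a, h, rfl⟩)
        · simp [IsPath, IsWalk, tl, hd]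
        · simp [IsPath, IsWalk, tl, hd]
      · rintro p (rfl | ⟨a, h, rfl⟩) q (rfl | ⟨b, h', rfl⟩) hpq
        · exact absurd rfl hpq
        · have : a0 ≠ b := fun h => ha0 (h ▸ h')
          simp [List.Disjoint, this]
        · have : a ≠ a0 := fun h' => ha0 (h' ▸ h)
          simp [List.Disjoint, this]
        · have hab : a ≠ b := by
            rintro rfl
            exact hpq rfl
          have : g a ≠ g b := fun h'' => hab (hg h h' h'')
          simp [List.Disjoint, hab, this]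
      · rintro e ⟨he, -⟩
        cases e with
        | rx n => simp [hd] at he
        | xz a => simp [hd] at he
        | zv a => simp [hd] at he
        | vw T =>
          simp only [hd, Vx.w.injEq] at he
          subst he
          exact ⟨_, Set.mem_insert _ _, by simp⟩
        | zw T a h =>
          simp only [hd, Vx.w.injEq] at he
          subst he
          exact ⟨_, Set.mem_insert_of_mem _ ⟨a, h, rfl⟩, by simp⟩
    · refine ⟨∅, by simp, by simp, ?_⟩
      rintro e ⟨-, h⟩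
      exact absurd h hS
  · ext e
    simp only [Iset, Set.mem_ofPred_eq, Set.mem_iUnion]
    constructor
    · rintro ⟨S, hS⟩
      exact ⟨Vx.w S, by simp, hS, S, rfl⟩
    · rintro ⟨u, -, h1, S, h2⟩
      exact ⟨S, h1.trans h2⟩

theorem mem_xz {b : Vx} {p : List Ed} (h : IsWalk tl hd Vx.r b p) {e : Ed} (he : e ∈ p) {a : ℝ}
    (ha : tl e = Vx.z a) : Ed.xz a ∈ p := by
  rcases h.pred he with h1 | ⟨f, hf, h1⟩
  · rw [ha] at h1; cases h1
  · rw [ha] at h1
    cases f <;> simp [hd] at h1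
    subst h1; exact hf

theorem mem_rx {b : Vx} {p : List Ed} (h : IsWalk tl hd Vx.r b p) {e : Ed} (he : e ∈ p)
    (ha : tl e = Vx.x) : ∃ n, Ed.rx n ∈ p := by
  rcases h.pred he with h1 | ⟨f, hf, h1⟩
  · rw [ha] at h1; cases h1
  · rw [ha] at h1
    cases f <;> simp [hd] at h1
    exact ⟨_, hf⟩

theorem mem_zv {b : Vx} {p : List Ed} (h : IsWalk tl hd Vx.r b p) {e : Ed} (he : e ∈ p)
    (ha : tl e = Vx.v) : ∃ a, Ed.zv a ∈ p := by
  rcases h.pred he with h1 | ⟨f, hf, h1⟩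
  · rw [ha] at h1; cases h1
  · rw [ha] at h1
    cases f <;> simp [hd] at h1
    exact ⟨_, hf⟩

theorem flame_countable {F : Set Ed} (hF : IsFlame tl hd Vx.r F) :
    {a : ℝ | Ed.zv a ∈ F}.Countable := by
  obtain ⟨P, hP1, hP2, hP3⟩ := hF.cover (v := Vx.v) (by simp)
  have h1 : ∀ a ∈ {a : ℝ | Ed.zv a ∈ F}, ∃ n, ∃ p ∈ P, Ed.zv a ∈ p ∧ Ed.rx n ∈ p := by
    intro a ha
    obtain ⟨p, hp, hap⟩ := hP3 _ ha rfl
    have hw := (hP1 p hp).1.1
    obtain ⟨n, hn⟩ := mem_rx hw (mem_xz hw hap rfl) rfl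
    exact ⟨n, p, hp, hap, hn⟩
  choose! g hg using h1
  refine Set.countable_iff_exists_injOn.2 ⟨g, fun a ha b hb hab => ?_⟩
  obtain ⟨p, hp, hp1, hp2⟩ := hg a ha
  obtain ⟨q, hq, hq1, hq2⟩ := hg b hb
  have hpq : p = q := by
    by_contra hne
    exact hP2 hp hq hne hp2 (hab ▸ hq2)
  subst hpq
  have := (hP1 p hp).1.inj hp1 hq1 rfl
  simpa using this

theorem no_flame {F : Set Ed} (hF : IsFlame tl hd Vx.r F) : ¬ Iset ⊆ F := by
  intro hI
  let S : CS := ⟨_, flame_countable hF⟩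
  obtain ⟨P, hP1, hP2, hP3⟩ := hF.cover (v := Vx.w S) (by simp)
  obtain ⟨p, hp, hp1⟩ := hP3 (Ed.vw S) (hI ⟨S, rfl⟩) rfl
  have hw := (hP1 p hp).1.1
  obtain ⟨a, ha⟩ := mem_zv hw hp1 rfl
  have haS : a ∈ S.1 := (hP1 p hp).2 _ ha
  have h1 := mem_xz hw ha rfl
  obtain ⟨q, hq, hq1⟩ := hP3 (Ed.zw S a haS) (hI ⟨S, rfl⟩) rfl
  have h2 := mem_xz (hP1 q hq).1.1 hq1 rfl
  have hpq : p = q := by
    by_contra hne
    exact hP2 hp hq hne h1 h2
  subst hpq
  have := (hP1 p hp).1.inj hp1 hq1 rfl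
  cases this

theorem counterexample :
    ∃ (V E : Type) (tail head : E → V) (r : V), IsRooted tail head r ∧ Acyclic tail head ∧
      (∀ f : ℕ → E, ¬ IsBackwardInfinitePath tail head f) ∧
      ∃ I : Set E, InG tail head r Set.univ I ∧
        ∀ F : Set E, IsFlame tail head r F → ¬ I ⊆ F :=
  ⟨Vx, Ed, tl, hd, Vx.r, rooted, acyclic_of_rank rk rk_lt, noBack_of_rank rk rk_lt, Iset,
    Iset_inG, fun _ hF => no_flame hF⟩

end Pool.Agent.H187Z.Flame
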