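import Mathlib

namespace Pool.Agent.H187Z.Intal
open Finset

section gen
variable {β : Type} [LinearOrder β]

/-- the element of the interval algebra with endpoint set `S` -/
def F (S : Finset β) : Set β := {x | Odd (S.filter (fun s => s ≤ x)).card}

/-- parity function -/
def par (S : Finset β) (x : β) : ZMod 2 := ∑ s ∈ S, if s ≤ x then (1 : ZMod 2) else 0

theorem mem_F_iff (S : Finset β) (x : β) : x ∈ F S ↔ par S x = 1 := by
  unfold F par
  rw [Set.mem_ofPred_eq, ← ZMod.natCast_eq_one_iff_odd, Finset.card_filter]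
  push_cast
  rfl

theorem F_empty : F (∅ : Finset β) = ∅ := by
  ext x; simp [F]

theorem z2 (a : ZMod 2) : a = 0 ∨ a = 1 := by revert a; decide

theorem par_insert {S : Finset β} {s : β} (hs : s ∉ S) (x : β) :
    par (insert s S) x = (if s ≤ x then 1 else 0) + par S x := by
  unfold par; rw [Finset.sum_insert hs]

theorem F_inj : Function.Injective (F : Finset β → Set β) := by
  intro S T hST
  by_contra hne
  have hne' : (symmDiff S T).Nonempty := by
    rw [Finset.nonempty_iff_ne_empty]
    intro h
    exact hne (symmDiff_eq_bot.1 h)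
  set m := (symmDiff S T).min' hne' with hm
  have hmem : m ∈ symmDiff S T := Finset.min'_mem _ _
  have hlt : ∀ s, s < m → (s ∈ S ↔ s ∈ T) := by
    intro s hs
    by_contra hcon
    have : s ∈ symmDiff S T := by
      rw [Finset.mem_symmDiff]; tauto
    exact absurd (Finset.min'_le _ _ this) (not_le.2 hs)
  have h1 : m ∈ F S ↔ m ∈ F T := by rw [hST]
  unfold F at h1
  simp only [Set.mem_ofPred_eq] at h1
  rw [Finset.mem_symmDiff] at hmem
  rcases hmem with ⟨h2, h3⟩ | ⟨h2, h3⟩
  · have : S.filter (fun s => s ≤ m) = insert m (T.filter (fun s => s ≤ m)) := by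
      ext s
      simp only [Finset.mem_filter, Finset.mem_insert]
      constructor
      · rintro ⟨h4, h5⟩
        rcases h5.eq_or_lt with h6 | h6
        · exact Or.inl h6
        · exact Or.inr ⟨(hlt s h6).1 h4, h5⟩
      · rintro (rfl | ⟨h4, h5⟩)
        · exact ⟨h2, le_rfl⟩
        · rcases h5.eq_or_lt with h6 | h6
          · exact absurd (h6 ▸ h4) h3
          · exact ⟨(hlt s h6).2 h4, h5⟩
    rw [this, Finset.card_insert_of_notMem (by simp [h3]), Nat.odd_add_one] at h1
    tauto
  · have : T.filter (fun s => s ≤ m) = insert m (S.filter (fun s => s ≤ m)) := by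
      ext s
      simp only [Finset.mem_filter, Finset.mem_insert]
      constructor
      · rintro ⟨h4, h5⟩
        rcases h5.eq_or_lt with h6 | h6
        · exact Or.inl h6
        · exact Or.inr ⟨(hlt s h6).2 h4, h5⟩
      · rintro (rfl | ⟨h4, h5⟩)
        · exact ⟨h2, le_rfl⟩
        · rcases h5.eq_or_lt with h6 | h6
          · exact absurd (h6 ▸ h4) h3
          · exact ⟨(hlt s h6).1 h4, h5⟩
    rw [this, Finset.card_insert_of_notMem (by simp [h3]), Nat.odd_add_one] at h1
    tauto

/-- endpoint set of the intersection -/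
def meet (S T : Finset β) : Finset β :=
  (S ∪ T).filter (fun u => Odd ((S ×ˢ T).filter (fun p => max p.1 p.2 = u)).card)

theorem par_meet (S T : Finset β) (x : β) : par (meet S T) x = par S x * par T x := by
  unfold meet par
  rw [Finset.sum_filter, Finset.sum_mul_sum, ← Finset.sum_product']
  have h1 : ∀ u ∈ S ∪ T,
      (if Odd ((S ×ˢ T).filter (fun p => max p.1 p.2 = u)).card then
        (if u ≤ x then (1 : ZMod 2) else 0) else 0) =
      ∑ p ∈ (S ×ˢ T).filter (fun p => max p.1 p.2 = u),
        (if max p.1 p.2 ≤ x then (1 : ZMod 2) else 0) := by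
    intro u _
    rw [Finset.sum_congr rfl (g := fun _ => if u ≤ x then (1 : ZMod 2) else 0)
      (fun p hp => by rw [(Finset.mem_filter.1 hp).2])]
    rw [Finset.sum_const, nsmul_eq_mul]
    split_ifs with h2 h3 h3
    · rw [ZMod.natCast_eq_one_iff_odd.2 h2]; simp
    · simp
    · rw [ZMod.natCast_eq_zero_iff_even.2 (Nat.not_odd_iff_even.1 h2)]; simp
    · simp
  rw [Finset.sum_congr rfl h1, Finset.sum_fiberwise_of_maps_to]
  · refine Finset.sum_congr rfl fun p _ => ?_
    by_cases h1 : p.1 ≤ x <;> by_cases h2 : p.2 ≤ x <;> simp [h1, h2]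
  · intro p hp
    rw [Finset.mem_product] at hp
    rcases max_choice p.1 p.2 with h | h <;> rw [h] <;> simp [hp.1, hp.2]

theorem F_meet (S T : Finset β) : F (meet S T) = F S ∩ F T := by
  ext x
  simp only [Set.mem_inter_iff, mem_F_iff, par_meet]
  rcases z2 (par S x) with h | h <;> rcases z2 (par T x) with h' | h' <;> simp [h, h']

theorem F_compl {m : β} (hm : ∀ x, m ≤ x) (S : Finset β) :
    F (symmDiff S {m}) = (F S)ᶜ := by
  ext x
  simp only [Set.mem_compl_iff, mem_F_iff]
  by_cases h : m ∈ S
  · have h1 : S = insert m (symmDiff S {m}) := by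
      ext s
      simp only [Finset.mem_insert, Finset.mem_symmDiff, Finset.mem_singleton]
      by_cases h2 : s = m
      · simp [h2, h]
      · simp [h2]
    have h2 : m ∉ symmDiff S {m} := by simp [Finset.mem_symmDiff, h]
    have h3 := par_insert h2 x
    rw [← h1, if_pos (hm x)] at h3
    rw [h3]
    rcases z2 (par (symmDiff S {m}) x) with h4 | h4 <;> rw [h4] <;> decide
  · have h1 : symmDiff S {m} = insert m S := by
      ext s
      simp only [Finset.mem_insert, Finset.mem_symmDiff, Finset.mem_singleton]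
      by_cases h2 : s = m
      · simp [h2, h]
      · simp [h2]
    rw [h1, par_insert h, if_pos (hm x)]
    rcases z2 (par S x) with h4 | h4 <;> rw [h4] <;> decide

/-- finite or cofinite -/
def FC {γ : Type} (X : Set γ) : Prop := X.Finite ∨ Xᶜ.Finite

theorem FC.compl {γ : Type} {X : Set γ} (h : FC X) : FC Xᶜ := by
  rcases h with h | h
  · right; simpa using h
  · left; exact h

theorem FC.inter {γ : Type} {X Y : Set γ} (h : FC X) (h' : FC Y) : FC (X ∩ Y) := by
  rcases h with h | h
  · left; exact h.inter_of_left _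
  · rcases h' with h' | h'
    · left; exact h'.inter_of_right _
    · right; rw [Set.compl_inter]; exact h.union h'

theorem FC.union {γ : Type} {X Y : Set γ} (h : FC X) (h' : FC Y) : FC (X ∪ Y) := by
  have := (h.compl.inter h'.compl).compl
  rwa [Set.compl_inter, compl_compl, compl_compl] at this

theorem FC_F (hb : ∀ s : β, FC (Set.Ici s)) (S : Finset β) : FC (F S) := by
  induction S using Finset.induction_on with
  | empty => left; rw [F_empty]; exact Set.finite_empty
  | insert s S hs ih =>
    have : F (insert s S) = (Set.Ici s ∩ (F S)ᶜ) ∪ ((Set.Ici s)ᶜ ∩ F S) := by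
      ext x
      simp only [mem_F_iff, par_insert hs, Set.mem_union, Set.mem_inter_iff, Set.mem_Ici,
        Set.mem_compl_iff]
      by_cases h : s ≤ x <;> rcases z2 (par S x) with h4 | h4 <;> simp [h, h4]
    rw [this]
    exact ((hb s).inter ih.compl).union ((hb s).compl.inter ih)

theorem F_singleton (s : β) : F {s} = Set.Ici s := by
  ext x
  rw [mem_F_iff, par, Finset.sum_singleton]
  by_cases h : s ≤ x <;> simp [h]

theorem exists_F_singleton (x : β) (h : (∀ y, y ≤ x) ∨ ∃ y, x < y ∧ (Set.Ioc x y).Finite) :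
    ∃ S, F S = {x} := by
  rcases h with h | ⟨y, hxy, hfin⟩
  · refine ⟨{x}, ?_⟩
    rw [F_singleton]
    ext z
    simp only [Set.mem_Ici, Set.mem_singleton_iff]
    exact ⟨fun hz => le_antisymm (h z) hz, fun hz => hz ▸ le_rfl⟩
  · obtain ⟨z, hz, hmin⟩ := hfin.exists_minimal ⟨y, hxy, le_rfl⟩
    have hxz : x ∉ ({z} : Finset β) := by simpa using hz.1.ne
    refine ⟨insert x {z}, ?_⟩
    ext w
    rw [mem_F_iff, par_insert hxz]
    simp only [par, Finset.sum_singleton, Set.mem_singleton_iff]
    rcases lt_trichotomy w x with hw | hw | hw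
    · simp [hw.ne, not_le.2 hw, not_le.2 (hw.trans hz.1)]
    · subst hw
      simp [not_le.2 hz.1]
    · have : z ≤ w := by
        by_contra hcon
        push Not at hcon
        exact absurd (hmin ⟨hw, hcon.le.trans hz.2⟩ hcon.le) (not_le.2 hcon)
      simp only [hw.le, this, if_true, hw.ne', iff_false]
      decide

theorem range_F {m : β} (hm : ∀ x, m ≤ x) (hb : ∀ s : β, FC (Set.Ici s))
    (hs : ∀ x : β, ∃ S, F S = {x}) (X : Set β) : (∃ S, F S = X) ↔ FC X := by
  constructor
  · rintro ⟨S, rfl⟩; exact FC_F hb S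
  · have hc : ∀ X : Set β, (∃ S, F S = X) → ∃ S, F S = Xᶜ := by
      rintro X ⟨S, rfl⟩; exact ⟨_, F_compl hm S⟩
    have hi : ∀ X Y : Set β, (∃ S, F S = X) → (∃ S, F S = Y) → ∃ S, F S = X ∩ Y := by
      rintro X Y ⟨S, rfl⟩ ⟨T, rfl⟩; exact ⟨_, F_meet S T⟩
    have hf : ∀ X : Set β, X.Finite → ∃ S, F S = X := by
      intro X hX
      induction X, hX using Set.Finite.induction_on with
      | empty => exact ⟨∅, F_empty⟩
      | @insert a s _ _ ih =>
        have := hc _ (hi _ _ (hc _ (hs a)) (hc _ ih))
        rwa [Set.compl_inter, compl_compl, compl_compl, Set.singleton_union] at this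
    rintro (h | h)
    · exact hf X h
    · have := hc _ (hf _ h)
      rwa [compl_compl] at this

end gen

/-- the interval algebra of `ℕ` is the finite-cofinite algebra -/
theorem intal_nat : {X : Set ℕ | ∃ S : Finset ℕ, ∃ b : Bool,
    X = {x : ℕ | Xor' (b = true) (Odd (S.filter (fun s => s ≤ x)).card)}} = {X | FC X} := by
  have hm : ∀ x : ℕ, 0 ≤ x := Nat.zero_le
  have hb : ∀ s : ℕ, FC (Set.Ici s) := fun s => Or.inr (by simp)
  have hs : ∀ x : ℕ, ∃ S, F S = {x} := fun x =>
    exists_F_singleton x (Or.inr ⟨x + 1, Nat.lt_succ_self x, Set.finite_Ioc _ _⟩)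
  ext X
  simp only [Set.mem_ofPred_eq]
  constructor
  · rintro ⟨S, b, rfl⟩
    cases b
    · have : {x : ℕ | Xor' (false = true) (Odd (S.filter (fun s => s ≤ x)).card)} = F S := by
        ext x; simp [F, Xor', Xor]
      rw [this]; exact FC_F hb S
    · have : {x : ℕ | Xor' (true = true) (Odd (S.filter (fun s => s ≤ x)).card)} = (F S)ᶜ := by
        ext x; simp [F, Xor', Xor]
      rw [this]; exact (FC_F hb S).compl
  · intro h
    obtain ⟨S, rfl⟩ := (range_F hm hb hs X).2 h
    exact ⟨S, false, by ext x; simp [F, Xor', Xor]⟩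

/-- the finite-cofinite algebra on `ℕ` -/
def FCA : BooleanSubalgebra (Set ℕ) where
  carrier := {X | FC X}
  supClosed' := fun _ hX _ hY => FC.union hX hY
  infClosed' := fun _ hX _ hY => FC.inter hX hY
  compl_mem' := fun hX => FC.compl hX
  bot_mem' := Or.inl Set.finite_empty

theorem finite_iff_of_iso (ψ : FCA → Set ℕ) (hinj : Function.Injective ψ)
    (hsup : ∀ a b, ψ (a ⊔ b) = ψ a ∪ ψ b) (hr : Set.range ψ = {X | FC X}) (a : FCA) :
    (ψ a).Finite ↔ (a : Set ℕ).Finite := by
  have hle : ∀ a b : FCA, a ≤ b ↔ ψ a ⊆ ψ b := by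
    intro a b
    rw [← sup_eq_right, ← hinj.eq_iff, hsup, Set.union_eq_right]
  constructor
  · intro h
    let sg : ℕ → FCA := fun x => ⟨{x}, Or.inl (Set.finite_singleton x)⟩
    have h1 : Set.InjOn (fun x => ψ (sg x)) (a : Set ℕ) := by
      intro x _ y _ hxy
      have := congrArg Subtype.val (hinj hxy)
      simpa [sg] using this
    refine Set.Finite.of_finite_image (h.finite_subsets.subset ?_) h1
    rintro _ ⟨x, hx, rfl⟩
    refine (hle _ _).1 ?_
    show ({x} : Set ℕ) ⊆ a
    simpa using hx
  · intro h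
    have h1 : ∀ x : ℕ, ∃ b, ψ b = {x} := by
      intro x
      have : ({x} : Set ℕ) ∈ Set.range ψ := by
        rw [hr]; exact Or.inl (Set.finite_singleton x)
      exact this
    choose g hg using h1
    have h2 : Set.InjOn (fun x => (g x : Set ℕ)) (ψ a) := by
      intro x _ y _ hxy
      have : g x = g y := Subtype.ext hxy
      have h3 := hg x
      rw [this, hg y] at h3
      simpa using h3.symm
    refine Set.Finite.of_finite_image (h.finite_subsets.subset ?_) h2
    rintro _ ⟨x, hx, rfl⟩
    have : g x ≤ a := by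
      rw [hle, hg]; simpa using hx
    exact this

end Pool.Agent.H187Z.Intal
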