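import Pool.Agent.H187Z.IntalA

namespace Pool.Agent.H187Z.Intal
open Finset
open Nat.Partrec (Code)
open Nat.Partrec.Code

/-- program `n` halts on input `0` within `s` steps -/
def hl (n s : ℕ) : Prop := (evaln s (Denumerable.ofNat Code n) 0).isSome = true

def enters (v : ℕ) : Prop := hl v.unpair.1 (v.unpair.2 + 1) ∧ ¬ hl v.unpair.1 v.unpair.2

open Classical in
noncomputable def bb (v : ℕ) : ℕ := if enters v then v.unpair.1 else v

noncomputable def aa (u : ℕ) : ℕ := bb (u / 2) + (1 - u % 2)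

def R (t s : ℕ) : Prop := ∀ u < s + 1, t < u → aa t ≤ aa u

def le' (x y : ℕ) : Prop := x = y ∨ (y < x ∧ R y x) ∨ (x < y ∧ ¬ R x y)

def Tr (t : ℕ) : Prop := ∀ u, t < u → aa t ≤ aa u

theorem hl_mono {n s t : ℕ} (hst : s ≤ t) (h : hl n s) : hl n t := by
  unfold hl at *
  obtain ⟨x, hx⟩ := Option.isSome_iff_exists.1 h
  exact Option.isSome_iff_exists.2 ⟨x, evaln_mono hst hx⟩

theorem not_hl_zero (n : ℕ) : ¬ hl n 0 := by
  unfold hl
  simp [evaln]

theorem dom_iff (n : ℕ) : (eval (Denumerable.ofNat Code n) 0).Dom ↔ ∃ s, hl n s := by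
  rw [Part.dom_iff_mem]
  constructor
  · rintro ⟨x, hx⟩
    obtain ⟨k, hk⟩ := evaln_complete.1 hx
    exact ⟨k, Option.isSome_iff_exists.2 ⟨x, hk⟩⟩
  · rintro ⟨s, hs⟩
    obtain ⟨x, hx⟩ := Option.isSome_iff_exists.1 hs
    exact ⟨x, evaln_sound hx⟩

theorem exists_enters {n s : ℕ} (h : hl n s) : ∃ s, enters (Nat.pair n s) := by
  induction s with
  | zero => exact absurd h (not_hl_zero n)
  | succ s ih =>
    by_cases h' : hl n s
    · exact ih h'
    · exact ⟨s, by simpa [enters] using ⟨h, h'⟩⟩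

theorem hl_prim : PrimrecRel hl := by
  have h1 : Primrec fun p : ℕ × ℕ => evaln p.2 (Denumerable.ofNat Code p.1) 0 :=
    primrec_evaln.comp (Primrec.pair (Primrec.pair Primrec.snd
      ((Primrec.ofNat Code).comp Primrec.fst)) (Primrec.const 0))
  exact Primrec.eq.comp (Primrec.option_isSome.comp h1) (Primrec.const true)

theorem enters_prim : PrimrecPred enters :=
  (hl_prim.comp (Primrec.fst.comp Primrec.unpair)
    (Primrec.succ.comp (Primrec.snd.comp Primrec.unpair))).and
    (hl_prim.comp (Primrec.fst.comp Primrec.unpair) (Primrec.snd.comp Primrec.unpair)).not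

theorem bb_prim : Primrec bb := by
  classical
  exact Primrec.ite enters_prim (Primrec.fst.comp Primrec.unpair) Primrec.id

theorem aa_prim : Primrec aa :=
  Primrec.nat_add.comp (bb_prim.comp (Primrec.nat_div.comp Primrec.id (Primrec.const 2)))
    (Primrec.nat_sub.comp (Primrec.const 1) (Primrec.nat_mod.comp Primrec.id (Primrec.const 2)))

theorem R_prim : PrimrecRel R := by
  have h1 : PrimrecRel fun x y : ℕ => y < x → aa y ≤ aa x :=
    PrimrecPred.of_eq (((Primrec.nat_lt.comp Primrec.snd Primrec.fst).not).or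
      (Primrec.nat_le.comp (aa_prim.comp Primrec.snd) (aa_prim.comp Primrec.fst)))
      (fun p => by tauto)
  exact h1.forall_lt.comp (Primrec.succ.comp Primrec.snd) Primrec.fst

theorem le'_prim : PrimrecRel le' :=
  (Primrec.eq.comp Primrec.fst Primrec.snd).or
    (((Primrec.nat_lt.comp Primrec.snd Primrec.fst).and (R_prim.comp Primrec.snd Primrec.fst)).or
      ((Primrec.nat_lt.comp Primrec.fst Primrec.snd).and (R_prim.comp Primrec.fst Primrec.snd).not))

theorem bb_fin (k : ℕ) : {v | bb v = k}.Finite := by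
  have h1 : {v | enters v ∧ v.unpair.1 = k}.Subsingleton := by
    rintro v ⟨hv, hv'⟩ w ⟨hw, hw'⟩
    have h2 : v.unpair.2 = w.unpair.2 := by
      unfold enters at hv hw
      rw [hv'] at hv
      rw [hw'] at hw
      rcases lt_trichotomy v.unpair.2 w.unpair.2 with h | h | h
      · exact absurd (hl_mono h hv.1) hw.2
      · exact h
      · exact absurd (hl_mono h hw.1) hv.2
    rw [← Nat.pair_unpair v, ← Nat.pair_unpair w, hv', hw', h2]
  refine (h1.finite.insert k).subset ?_
  intro v hv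
  simp only [Set.mem_ofPred_eq, bb] at hv
  split_ifs at hv with h
  · exact Or.inr ⟨h, hv⟩
  · exact Or.inl hv

theorem aa_fin (k : ℕ) : ∃ N, ∀ u, N < u → k < aa u := by
  have h1 : (⋃ j ∈ Set.Iic k, {v | bb v = j}).Finite :=
    (Set.finite_Iic k).biUnion fun j _ => bb_fin j
  obtain ⟨M, hM⟩ := h1.bddAbove
  refine ⟨2 * M + 1, fun u hu => ?_⟩
  by_contra hcon
  have h2 : bb (u / 2) ≤ k := by unfold aa at hcon; omega
  have : u / 2 ≤ M := hM (by simpa using h2)
  omega

theorem exists_true (n : ℕ) : ∃ t, Tr t ∧ n < aa t := by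
  classical
  obtain ⟨N, hN⟩ := aa_fin n
  have hex : ∃ k, ∃ t, N < t ∧ aa t = k := ⟨_, N + 1, by omega, rfl⟩
  obtain ⟨t, ht, htk⟩ := Nat.find_spec hex
  refine ⟨t, fun u hu => ?_, hN t ht⟩
  rw [htk]
  exact Nat.find_min' hex ⟨u, by omega, rfl⟩

theorem halts_iff {n t : ℕ} (ht : Tr t) (hn : n < aa t) : (∃ s, hl n s) ↔ hl n (t + 1) := by
  refine ⟨fun ⟨s, hs⟩ => ?_, fun h => ⟨_, h⟩⟩
  obtain ⟨s, hs⟩ := exists_enters hs
  have h1 : aa (2 * Nat.pair n s + 1) = n := by
    unfold aa bb
    have e1 : (2 * Nat.pair n s + 1) / 2 = Nat.pair n s := by omega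
    have e2 : (2 * Nat.pair n s + 1) % 2 = 1 := by omega
    rw [e1, e2, if_pos hs]; simp
  have h2 : 2 * Nat.pair n s + 1 ≤ t := by
    by_contra hcon
    have := ht _ (not_le.1 hcon)
    omega
  have h3 := Nat.right_le_pair n s
  have h4 : hl n (s + 1) := by simpa [enters] using hs.1
  exact hl_mono (by omega) h4

theorem Tr_not_computable : ¬ ComputablePred Tr := by
  classical
  intro hT
  have hP : ComputablePred fun p : ℕ × ℕ => Tr p.2 ∧ p.1 < aa p.2 := by
    have h1 : Computable fun p : ℕ × ℕ => decide (Tr p.2) := hT.decide.comp Computable.snd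
    have h2 : Computable fun p : ℕ × ℕ => decide (p.1 < aa p.2) :=
      (Primrec.nat_lt.comp Primrec.fst (aa_prim.comp Primrec.snd)).decide.to_comp
    exact Computable.computablePred ((Primrec.and.to_comp.comp h1 h2).of_eq (by simp))
  have hf := Computable.find (P := fun n t => Tr t ∧ n < aa t) hP exists_true
  have h3 : Computable fun n => decide (hl n (Nat.find (exists_true n) + 1)) :=
    hl_prim.decide.to_comp.comp Computable.id (Computable.succ.comp hf)
  have h4 : Computable fun c : Code =>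
      decide (hl (Encodable.encode c) (Nat.find (exists_true (Encodable.encode c)) + 1)) :=
    h3.comp Computable.encode
  refine ComputablePred.halting_problem 0 (h4.computablePred.of_eq fun c => ?_)
  have h5 := Nat.find_spec (exists_true (Encodable.encode c))
  rw [← halts_iff h5.1 h5.2, ← dom_iff, Denumerable.ofNat_encode]

theorem even_false (t : ℕ) : aa (2 * t + 1) < aa (2 * t) := by
  unfold aa
  have e1 : (2 * t + 1) / 2 = t := by omega
  have e2 : (2 * t + 1) % 2 = 1 := by omega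
  have e3 : (2 * t) / 2 = t := by omega
  have e4 : (2 * t) % 2 = 0 := by omega
  rw [e1, e2, e3, e4]; omega

theorem R_mono {p q r : ℕ} (hqr : q ≤ r) (h : R p r) : R p q :=
  fun u hu hpu => h u (by omega) hpu

theorem R_trans {p q r : ℕ} (hpq : p < q) (h : R p q) (h' : R q r) : R p r := by
  intro u hu hpu
  by_cases h1 : u ≤ q
  · exact h u (by omega) hpu
  · exact (h q (by omega) hpq).trans (h' u hu (by omega))

/-- the natural numbers with the order `le'` (of type `ω + ω*`) -/
def L : Type := ℕ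

noncomputable instance : LinearOrder L where
  le := le'
  le_refl x := Or.inl rfl
  le_trans := by
    intro (x : ℕ) (y : ℕ) (z : ℕ) hxy hyz
    show le' x z
    rcases hxy with rfl | ⟨h1, h2⟩ | ⟨h1, h2⟩
    · exact hyz
    · rcases hyz with rfl | ⟨h3, h4⟩ | ⟨h3, h4⟩
      · exact Or.inr (Or.inl ⟨h1, h2⟩)
      · exact Or.inr (Or.inl ⟨h3.trans h1, R_trans h3 h4 h2⟩)
      · rcases lt_trichotomy x z with h5 | h5 | h5
        · exact Or.inr (Or.inr ⟨h5, fun h6 => h4 (R_trans h1 h2 h6)⟩)
        · exact Or.inl h5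
        · exact absurd (R_mono h5.le h2) h4
    · rcases hyz with rfl | ⟨h3, h4⟩ | ⟨h3, h4⟩
      · exact Or.inr (Or.inr ⟨h1, h2⟩)
      · rcases lt_trichotomy x z with h5 | h5 | h5
        · exact Or.inr (Or.inr ⟨h5, fun h6 => h2 (R_trans h5 h6 h4)⟩)
        · exact Or.inl h5
        · exact Or.inr (Or.inl ⟨h5, R_mono h1.le h4⟩)
      · exact Or.inr (Or.inr ⟨h1.trans h3, fun h6 => h2 (R_mono h3.le h6)⟩)
  le_antisymm := by
    intro (x : ℕ) (y : ℕ) hxy hyx
    rcases hxy with rfl | ⟨h1, h2⟩ | ⟨h1, h2⟩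
    · rfl
    · rcases hyx with rfl | ⟨h3, h4⟩ | ⟨h3, h4⟩
      · rfl
      · omega
      · exact absurd h2 h4
    · rcases hyx with rfl | ⟨h3, h4⟩ | ⟨h3, h4⟩
      · rfl
      · exact absurd h4 h2
      · omega
  le_total := by
    intro (x : ℕ) (y : ℕ)
    show le' x y ∨ le' y x
    rcases lt_trichotomy x y with h | h | h
    · by_cases h1 : R x y
      · exact Or.inr (Or.inr (Or.inl ⟨h, h1⟩))
      · exact Or.inl (Or.inr (Or.inr ⟨h, h1⟩))
    · exact Or.inl (Or.inl h)
    · by_cases h1 : R y x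
      · exact Or.inl (Or.inr (Or.inl ⟨h, h1⟩))
      · exact Or.inr (Or.inr (Or.inr ⟨h, h1⟩))
  toDecidableLE := Classical.decRel _

/-- identity map `ℕ → L` -/
def toL (n : ℕ) : L := n

theorem le_iff (x y : ℕ) : toL x ≤ toL y ↔ le' x y := Iff.rfl

theorem bot_le' (x : L) : toL 0 ≤ x := by
  show le' 0 x
  rcases Nat.eq_zero_or_pos x with h | h
  · exact Or.inl h.symm
  · refine Or.inr (Or.inr ⟨h, fun hR => ?_⟩)
    have h1 := hR 1 (Nat.succ_lt_succ h) Nat.one_pos
    have h2 := even_false 0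
    simp only [mul_zero, zero_add] at h2
    omega

theorem Ici_finite {t : ℕ} (h : Tr t) : (Set.Ici (toL t)).Finite := by
  refine (Set.finite_Iic t).subset ?_
  intro (x : ℕ) hx
  have hx' : le' t x := hx
  show x ≤ t
  rcases hx' with h1 | ⟨h1, -⟩ | ⟨h1, h2⟩
  · exact h1.ge
  · exact h1.le
  · exact absurd (fun u _ hu => h u hu) h2

theorem Ici_cofinite {t : ℕ} (h : ¬ Tr t) : (Set.Ici (toL t))ᶜ.Finite := by
  unfold Tr at h
  push Not at h
  obtain ⟨u, hu, hu'⟩ := h
  refine (Set.finite_Iic u).subset ?_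
  intro (x : ℕ) hx
  show x ≤ u
  by_contra hcon
  apply hx
  show le' t x
  refine Or.inr (Or.inr ⟨by omega, fun hR => ?_⟩)
  have := hR u (by omega) hu
  omega

instance : Infinite L := inferInstanceAs (Infinite ℕ)

theorem Ici_finite_iff (t : ℕ) : (Set.Ici (toL t)).Finite ↔ Tr t := by
  refine ⟨fun h => ?_, Ici_finite⟩
  by_contra hcon
  have := h.union (Ici_cofinite hcon)
  rw [Set.union_compl_self] at this
  exact Set.infinite_univ this

theorem FC_Ici (s : L) : FC (Set.Ici s) := by
  by_cases h : Tr s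
  · exact Or.inl (Ici_finite h)
  · exact Or.inr (Ici_cofinite h)

theorem L_single (x : L) : ∃ S, F S = {x} := by
  apply exists_F_singleton
  by_cases h : Tr x
  · by_cases h1 : ∀ y, y ≤ x
    · exact Or.inl h1
    · push Not at h1
      obtain ⟨y, hy⟩ := h1
      exact Or.inr ⟨y, hy, (Ici_finite h).subset fun z hz => hz.1.le⟩
  · right
    have h1 : (insert x (Set.Ici x)ᶜ).Finite := (Ici_cofinite h).insert x
    have h2 : (Set.range fun t : ℕ => toL (2 * t)).Infinite :=
      Set.infinite_range_of_injective fun s t hst => by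
        have : 2 * s = 2 * t := hst
        omega
    obtain ⟨y, ⟨t, rfl⟩, hy⟩ := h2.exists_notMem_finite h1
    simp only [Set.mem_insert_iff, Set.mem_compl_iff, Set.mem_Ici, not_or, not_not] at hy
    have h3 : ¬ Tr (2 * t) := fun hT => by
      have := hT (2 * t + 1) (by omega)
      have := even_false t
      omega
    refine ⟨toL (2 * t), lt_of_le_of_ne hy.2 (Ne.symm hy.1),
      ((Ici_cofinite h3).insert (toL (2 * t))).subset ?_⟩
    intro z hz
    rcases hz.2.eq_or_lt with h4 | h4
    · exact Or.inl h4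
    · exact Or.inr (not_le.2 h4)

end Pool.Agent.H187Z.Intal
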