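import Pool.Agent.H187Z.IntalB

namespace Pool.Agent.H187Z.Intal
open Finset

theorem prim_sum_range {γ : Type} [Primcodable γ] {N : γ → ℕ} {f : γ → ℕ → ℕ} (hN : Primrec N)
    (hf : Primrec₂ f) : Primrec fun g => ∑ k ∈ range (N g), f g k := by
  have h : Primrec₂ fun (g : γ) (p : ℕ × ℕ) => p.2 + f g p.1 :=
    Primrec.nat_add.comp (Primrec.snd.comp Primrec.snd)
      (hf.comp Primrec.fst (Primrec.fst.comp Primrec.snd))
  refine (Primrec.nat_rec' hN (Primrec.const 0) h).of_eq fun g => ?_
  induction N g with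
  | zero => simp
  | succ n ih => rw [Finset.sum_range_succ, ← ih]

theorem prim_pow : Primrec fun n : ℕ => 2 ^ n :=
  (Primrec₂.unpaired'.1 Nat.Primrec.pow).comp (Primrec.const 2) Primrec.id

def tb (m s : ℕ) : Prop := m / 2 ^ s % 2 = 1

theorem tb_prim : PrimrecRel tb :=
  Primrec.eq.comp (Primrec.nat_mod.comp (Primrec.nat_div.comp Primrec.fst
    (prim_pow.comp Primrec.snd)) (Primrec.const 2)) (Primrec.const 1)

theorem mem_bits (m s : ℕ) : s ∈ equivBitIndices m ↔ tb m s := by
  simp [tb, Nat.testBit_eq_decide_div_mod_eq]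

theorem lt_of_tb {m s : ℕ} (h : tb m s) : s < m := by
  have h1 : s ∈ m.bitIndices := by simpa using (mem_bits m s).2 h
  exact lt_of_lt_of_le Nat.lt_two_pow_self (Nat.two_pow_le_of_mem_bitIndices h1)

theorem prim_code {γ : Type} [Primcodable γ] {N : γ → ℕ} {P : γ → ℕ → Prop} (hN : Primrec N)
    (hP : PrimrecRel P) {S : γ → Finset ℕ} (hS : ∀ g u, u ∈ S g ↔ u < N g ∧ P g u) :
    Primrec fun g => equivBitIndices.symm (S g) := by
  classical
  have h1 : Primrec₂ fun g u => if P g u then 2 ^ u else 0 :=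
    Primrec.ite hP (prim_pow.comp Primrec.snd) (Primrec.const 0)
  refine (prim_sum_range hN h1).of_eq fun g => ?_
  rw [equivBitIndices_symm_apply, ← Finset.sum_filter]
  congr 1
  ext u
  simp [hS]

/-- the element of the finite-cofinite algebra with endpoint set `S` in the order `L` -/
noncomputable def G (S : Finset ℕ) : FCA := ⟨F (β := L) S, FC_F (β := L) FC_Ici S⟩

theorem G_bij : Function.Bijective G := by
  constructor
  · intro S T h
    exact F_inj (β := L) (congrArg Subtype.val h)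
  · rintro ⟨X, hX⟩
    obtain ⟨S, hS⟩ := (range_F (β := L) bot_le' FC_Ici L_single X).2 hX
    exact ⟨S, Subtype.ext hS⟩

/-- the numbering -/
noncomputable def en : ℕ ≃ FCA := equivBitIndices.trans (Equiv.ofBijective G G_bij)

theorem en_apply (n : ℕ) : en n = G (equivBitIndices n) := rfl

theorem en_symm_G (S : Finset ℕ) : en.symm (G S) = equivBitIndices.symm S := by
  rw [Equiv.symm_apply_eq, en_apply, Equiv.apply_symm_apply]

/-- endpoint set of the complement -/
noncomputable def cpl (S : Finset L) : Finset L := symmDiff S {toL 0}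

theorem mem_cpl (S : Finset L) (u : L) : u ∈ cpl S ↔ (u ∈ S ∧ ¬ u = toL 0) ∨ (u = toL 0 ∧ u ∉ S) := by
  unfold cpl
  rw [Finset.mem_symmDiff, Finset.mem_singleton]

theorem compl_prim : Primrec fun n : ℕ => en.symm (en n)ᶜ := by
  have h1 : Primrec fun n : ℕ => equivBitIndices.symm (cpl (equivBitIndices n)) := by
    refine prim_code (N := fun n => n + 1) (P := fun n u => (tb n u ∧ ¬ u = 0) ∨ (u = 0 ∧ ¬ tb n u))
      Primrec.succ ?_ ?_
    · exact (PrimrecPred.and tb_prim (Primrec.eq.comp Primrec.snd (Primrec.const 0)).not).or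
        ((Primrec.eq.comp Primrec.snd (Primrec.const 0)).and (PrimrecPred.not tb_prim))
    · intro n u
      have h0 : u ∈ (cpl (equivBitIndices n) : Finset ℕ) ↔
          (u ∈ equivBitIndices n ∧ ¬ u = 0) ∨ (u = 0 ∧ u ∉ equivBitIndices n) :=
        mem_cpl (equivBitIndices n) u
      refine h0.trans ?_
      rw [mem_bits]
      refine ⟨fun h => ⟨?_, h⟩, fun h => h.2⟩
      rcases h with h | h
      · have := lt_of_tb h.1
        omega
      · omega
  refine h1.of_eq fun n => ?_
  rw [← en_symm_G]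
  congr 1
  apply Subtype.ext
  exact F_compl (β := L) bot_le' (equivBitIndices n)

open Classical in
noncomputable def mx (s t : ℕ) : ℕ := if le' s t then t else s

theorem mx_eq (s t : ℕ) : mx s t = (max (toL s) (toL t) : L) := by
  unfold mx
  rw [max_def]
  by_cases h : le' s t
  · rw [if_pos h, if_pos ((le_iff s t).2 h)]; rfl
  · rw [if_neg h, if_neg (fun h' => h ((le_iff s t).1 h'))]; rfl

theorem mx_prim : Primrec₂ mx := by
  classical
  exact Primrec.ite le'_prim Primrec.snd Primrec.fst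

open Classical in
noncomputable def cnt (m n u : ℕ) : ℕ :=
  ∑ s ∈ range m, ∑ t ∈ range n, if tb m s ∧ tb n t ∧ mx s t = u then 1 else 0

theorem cnt_prim : Primrec fun q : (ℕ × ℕ) × ℕ => cnt q.1.1 q.1.2 q.2 := by
  classical
  unfold cnt
  refine prim_sum_range (Primrec.fst.comp Primrec.fst) ?_
  refine prim_sum_range (γ := ((ℕ × ℕ) × ℕ) × ℕ)
    (f := fun q t => if tb q.1.1.1 q.2 ∧ tb q.1.1.2 t ∧ mx q.2 t = q.1.2 then 1 else 0)
    (Primrec.snd.comp (Primrec.fst.comp Primrec.fst)) ?_
  refine Primrec.ite ?_ (Primrec.const 1) (Primrec.const 0)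
  exact (tb_prim.comp (Primrec.fst.comp (Primrec.fst.comp (Primrec.fst.comp Primrec.fst)))
      (Primrec.snd.comp Primrec.fst)).and
    ((tb_prim.comp (Primrec.snd.comp (Primrec.fst.comp (Primrec.fst.comp Primrec.fst)))
      Primrec.snd).and
    (Primrec.eq.comp (mx_prim.comp (Primrec.snd.comp Primrec.fst) Primrec.snd)
      (Primrec.snd.comp (Primrec.fst.comp Primrec.fst))))

theorem cnt_eq (m n u : ℕ) : cnt m n u =
    (((equivBitIndices m) ×ˢ (equivBitIndices n)).filter (fun p => mx p.1 p.2 = u)).card := by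
  classical
  unfold cnt
  rw [← Finset.sum_product', ← Finset.card_filter]
  congr 1
  ext p
  simp only [Finset.mem_filter, Finset.mem_product, Finset.mem_range, mem_bits]
  constructor
  · rintro ⟨-, h1, h2, h3⟩; exact ⟨⟨h1, h2⟩, h3⟩
  · rintro ⟨⟨h1, h2⟩, h3⟩; exact ⟨⟨lt_of_tb h1, lt_of_tb h2⟩, h1, h2, h3⟩

theorem mem_meet (S T : Finset ℕ) (u : ℕ) : toL u ∈ meet (β := L) S T ↔
    (u ∈ S ∨ u ∈ T) ∧ Odd ((S ×ˢ T).filter (fun p => mx p.1 p.2 = u)).card := by
  unfold meet
  rw [Finset.mem_filter, Finset.mem_union]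
  refine and_congr Iff.rfl ?_
  rw [iff_eq_eq]
  congr 2
  ext p
  refine (Finset.mem_filter (α := L × L)).trans (Iff.trans ?_ (Finset.mem_filter (α := ℕ × ℕ)).symm)
  rw [mx_eq]
  rfl

theorem inf_prim : Primrec₂ fun m n : ℕ => en.symm (en m ⊓ en n) := by
  have h1 : Primrec fun q : ℕ × ℕ => equivBitIndices.symm
      (meet (β := L) (equivBitIndices q.1) (equivBitIndices q.2)) := by
    refine prim_code (N := fun q : ℕ × ℕ => q.1 + q.2)
      (P := fun q u => (tb q.1 u ∨ tb q.2 u) ∧ cnt q.1 q.2 u % 2 = 1)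
      (Primrec.nat_add.comp Primrec.fst Primrec.snd) ?_ ?_
    · exact ((tb_prim.comp (Primrec.fst.comp Primrec.fst) Primrec.snd).or
        (tb_prim.comp (Primrec.snd.comp Primrec.fst) Primrec.snd)).and
        (Primrec.eq.comp (Primrec.nat_mod.comp cnt_prim (Primrec.const 2)) (Primrec.const 1))
    · intro q u
      refine (mem_meet _ _ u).trans ?_
      rw [mem_bits, mem_bits, ← cnt_eq, Nat.odd_iff]
      refine ⟨fun h => ⟨?_, h⟩, fun h => h.2⟩
      rcases h.1 with h | h
      · have := lt_of_tb h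
        omega
      · have := lt_of_tb h
        omega
  refine h1.of_eq fun q => ?_
  rw [← en_symm_G]
  congr 1
  apply Subtype.ext
  exact F_meet (β := L) _ _

theorem sup_prim : Primrec₂ fun m n : ℕ => en.symm (en m ⊔ en n) := by
  have h1 := compl_prim.comp (inf_prim.comp (compl_prim.comp (Primrec.fst (α := ℕ) (β := ℕ)))
    (compl_prim.comp Primrec.snd))
  refine h1.of_eq fun q => ?_
  simp

theorem en_pow (t : ℕ) : ((en (2 ^ t) : FCA) : Set ℕ).Finite ↔ Tr t := by
  have h1 : equivBitIndices (2 ^ t) = {t} := by simp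
  rw [en_apply, h1, ← Ici_finite_iff]
  have := F_singleton (β := L) (toL t)
  rw [← this]
  rfl

theorem xor_finite (l : ℕ ≃ ℕ) (s : List ℕ) (b : Bool) :
    {x : ℕ | Xor' (b = true) (Odd (s.filter (fun s => decide (l s ≤ x))).length)}.Finite ↔
      ¬ Xor' (b = true) (Odd s.length) := by
  obtain ⟨M, hM⟩ := (s.map l).toFinset.finite_toSet.bddAbove
  have key : ∀ x, M ≤ x → s.filter (fun s => decide (l s ≤ x)) = s := by
    intro x hx
    rw [List.filter_eq_self]
    intro a ha
    have : l a ≤ M := hM (by simpa using ha)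
    simpa using this.trans hx
  constructor
  · intro h hx
    refine Set.Ici_infinite M (h.subset fun x hx' => ?_)
    rw [Set.mem_ofPred_eq, key x hx']
    exact hx
  · intro h
    refine (Set.finite_Iio M).subset fun x hx => ?_
    by_contra hcon
    rw [Set.mem_ofPred_eq, key x (not_lt.1 hcon)] at hx
    exact h hx

theorem final (l : ℕ ≃ ℕ) (ψ : FCA → Set ℕ) (hinj : Function.Injective ψ)
    (hsup : ∀ a b, ψ (a ⊔ b) = ψ a ∪ ψ b) (hr : Set.range ψ = {X | FC X})
    (c : ℕ → List ℕ × Bool) (hc : Computable c)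
    (h : ∀ n : ℕ, ψ (en n) = {x : ℕ | Xor' ((c n).2 = true)
      (Odd ((c n).1.filter (fun s => decide (l s ≤ x))).length)}) : False := by
  apply Tr_not_computable
  have h1 : Primrec fun q : List ℕ × Bool => decide (q.2 = decide (q.1.length % 2 = 1)) :=
    (Primrec.eq.comp Primrec.snd (Primrec.eq.comp (Primrec.nat_mod.comp
      (Primrec.list_length.comp Primrec.fst) (Primrec.const 2)) (Primrec.const 1)).decide).decide
  have h2 := (h1.to_comp.comp hc).comp prim_pow.to_comp
  refine h2.computablePred.of_eq fun t => ?_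
  rw [← en_pow, ← finite_iff_of_iso ψ hinj hsup hr, h, xor_finite, Nat.odd_iff]
  cases (c (2 ^ t)).2 <;> simp [Xor', Xor]

end Pool.Agent.H187Z.Intal
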