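import Pool.Agent.H39Z.SSS.Spec
import Pool.Agent.Helper150.Lattice

/-! Transference: a lower bound for dual vectors bounds the covering radius. -/

set_option autoImplicit false

namespace Pool.Agent.H187Z.Trans

open Module Matrix
open scoped RealInnerProductSpace

/-- a basis whose dual lattice has no short vector generates a lattice with a short vector -/
theorem short_of_basis {V : Type} [NormedAddCommGroup V] [InnerProductSpace ℝ V]
    {d : ℕ} (hd : 0 < d) (o : OrthonormalBasis (Fin d) ℝ V) (b : Basis (Fin d) ℝ V) (γ : ℝ)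
    (hγ : 0 < γ)
    (h : ∀ w : V, w ≠ 0 → (∀ k : Fin d → ℤ, ∃ z : ℤ, ⟪w, ∑ j, (k j : ℝ) • b j⟫ = (z : ℝ)) →
      γ ≤ ‖w‖) :
    ∃ k : Fin d → ℤ, k ≠ 0 ∧ ‖∑ j, (k j : ℝ) • b j‖ ≤ 2 * d / γ := by
  classical
  obtain ⟨A, hA⟩ : ∃ A : Matrix (Fin d) (Fin d) ℝ, A = Matrix.of fun i j => ⟪o i, b j⟫ := ⟨_, rfl⟩
  have hA' : A = o.toBasis.toMatrix b := by
    ext i j
    rw [hA, Basis.toMatrix_apply, OrthonormalBasis.coe_toBasis_repr_apply,
      OrthonormalBasis.repr_apply_apply]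
    rfl
  have hdet : A.det ≠ 0 := by
    have h1 := o.toBasis.isUnit_det b
    rw [Basis.det_apply, ← hA'] at h1
    exact h1.ne_zero
  have hcoord : ∀ (k : Fin d → ℤ) (i : Fin d),
      ⟪o i, ∑ j, (k j : ℝ) • b j⟫ = A.mulVec (fun j => (k j : ℝ)) i := by
    intro k i
    rw [inner_sum, hA]
    simp only [Matrix.mulVec, dotProduct, Matrix.of_apply, real_inner_smul_right]
    exact Finset.sum_congr rfl fun j _ => mul_comm _ _
  have hdr : (0 : ℝ) < d := by exact_mod_cast hd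
  have hs : 0 < √(d : ℝ) := Real.sqrt_pos.2 hdr
  have hss : √(d : ℝ) ^ 2 = d := Real.sq_sqrt hdr.le
  have hpos : 0 < |A.det| := abs_pos.2 hdet
  have step1 : (γ / √(d : ℝ)) ^ d ≤ |A.det|⁻¹ := by
    by_contra hcon
    push Not at hcon
    have hdet2 : ((A⁻¹).transpose).det = (A.det)⁻¹ := by
      rw [Matrix.det_transpose, Matrix.det_nonsing_inv, Ring.inverse_eq_inv']
    obtain ⟨m, hm0, hm⟩ := Pool.Agent.Helper150.Lattice.linear_forms ((A⁻¹).transpose)
      (by rw [hdet2]; exact inv_ne_zero hdet) (fun _ => γ / √(d : ℝ)) (fun _ => by positivity)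
      (by rw [hdet2, abs_inv, Finset.prod_const, Finset.card_univ, Fintype.card_fin]; exact hcon)
    obtain ⟨c, hc⟩ : ∃ c : Fin d → ℝ, c = (A⁻¹).transpose.mulVec (fun i => (m i : ℝ)) := ⟨_, rfl⟩
    rw [← hc] at hm
    obtain ⟨w, hw⟩ : ∃ w : V, w = ∑ i, c i • o i := ⟨_, rfl⟩
    have hwi : ∀ i, ⟪o i, w⟫ = c i := by
      intro i
      rw [hw]
      exact o.orthonormal.inner_right_fintype c i
    have hw0 : w ≠ 0 := by
      obtain ⟨j, hj⟩ := Pool.Agent.Helper150.Lattice.dual_ne_zero A hdet m hm0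
      intro h0
      apply hj
      rw [← hc, ← hwi j, h0, inner_zero_right]
    have hge : γ ≤ ‖w‖ := by
      refine h w hw0 fun k => ⟨∑ i, m i * k i, ?_⟩
      rw [← Pool.Agent.Helper150.Lattice.pairing A hdet k m, ← hc, ← o.sum_inner_mul_inner]
      refine Finset.sum_congr rfl fun i _ => ?_
      rw [hcoord, real_inner_comm, hwi]
    have hlt : ‖w‖ ^ 2 < γ ^ 2 := by
      rw [← o.sum_sq_inner_right w]
      have : Nonempty (Fin d) := ⟨⟨0, hd⟩⟩
      calc ∑ i, ⟪o i, w⟫ ^ 2 < ∑ _i : Fin d, (γ / √(d : ℝ)) ^ 2 := by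
            refine Finset.sum_lt_sum_of_nonempty Finset.univ_nonempty fun i _ => ?_
            rw [hwi, ← sq_abs]
            exact pow_lt_pow_left₀ (hm i) (abs_nonneg _) two_ne_zero
        _ = γ ^ 2 := by
            rw [Finset.sum_const, Finset.card_univ, Fintype.card_fin, nsmul_eq_mul, div_pow, hss]
            field_simp
    nlinarith
  have step2 : |A.det| < (2 * √(d : ℝ) / γ) ^ d := by
    have h1 : |A.det| ≤ (√(d : ℝ) / γ) ^ d := by
      have h2 : (√(d : ℝ) / γ) ^ d = ((γ / √(d : ℝ)) ^ d)⁻¹ := by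
        rw [← inv_pow, inv_div]
      rw [h2]
      exact le_inv_of_le_inv₀ (by positivity) step1
    refine lt_of_le_of_lt h1 (pow_lt_pow_left₀ ?_ (by positivity) hd.ne')
    exact div_lt_div_of_pos_right (by linarith) hγ
  obtain ⟨k, hk0, hk⟩ := Pool.Agent.Helper150.Lattice.linear_forms A hdet
    (fun _ => 2 * √(d : ℝ) / γ) (fun _ => by positivity)
    (by rw [Finset.prod_const, Finset.card_univ, Fintype.card_fin]; exact step2)
  refine ⟨k, hk0, ?_⟩
  have hle : ‖∑ j, (k j : ℝ) • b j‖ ^ 2 ≤ (2 * d / γ) ^ 2 := by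
    rw [← o.sum_sq_inner_right]
    calc ∑ i, ⟪o i, ∑ j, (k j : ℝ) • b j⟫ ^ 2 ≤ ∑ _i : Fin d, (2 * √(d : ℝ) / γ) ^ 2 := by
          refine Finset.sum_le_sum fun i _ => ?_
          rw [hcoord, ← sq_abs]
          exact pow_le_pow_left₀ (abs_nonneg _) (hk i).le 2
      _ = (2 * d / γ) ^ 2 := by
          rw [Finset.sum_const, Finset.card_univ, Fintype.card_fin, nsmul_eq_mul, div_pow, div_pow,
            mul_pow, mul_pow, hss]
          field_simp
  exact (pow_le_pow_iff_left₀ (norm_nonneg _) (by positivity) two_ne_zero).1 hle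

/-- a subgroup whose dual has no short vector contains a short nonzero vector -/
theorem short_vec {V : Type} [NormedAddCommGroup V] [InnerProductSpace ℝ V]
    [FiniteDimensional ℝ V] {d : ℕ} (hd : 0 < d) (hV : finrank ℝ V = d) (L : Submodule ℤ V) (γ : ℝ)
    (hγ : 0 < γ)
    (h : ∀ w : V, w ≠ 0 → (∀ l ∈ L, ∃ z : ℤ, ⟪w, l⟫ = (z : ℝ)) → γ ≤ ‖w‖) :
    ∃ u ∈ L, u ≠ 0 ∧ ‖u‖ ≤ 2 * d / γ := by
  classical
  by_contra hcon
  push Not at hcon
  have hdr : (0 : ℝ) < d := by exact_mod_cast hd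
  have hr : 0 < 2 * (d : ℝ) / γ := by positivity
  have hdisc : DiscreteTopology L := by
    refine discreteTopology_of_isOpen_singleton_zero ?_
    have h1 : ({0} : Set L) = (Subtype.val : L → V) ⁻¹' Metric.ball 0 (2 * (d : ℝ) / γ) := by
      ext x
      simp only [Set.mem_singleton_iff, Set.mem_preimage, mem_ball_zero_iff]
      constructor
      · intro hx
        rw [hx]
        simpa using hr
      · intro hx
        by_contra hx0
        have := hcon x x.2 (fun h0 => hx0 (Subtype.ext h0))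
        linarith
    rw [h1]
    exact Metric.isOpen_ball.preimage continuous_subtype_val
  have hspan : Submodule.span ℝ (L : Set V) = ⊤ := by
    rw [← Submodule.orthogonal_eq_bot_iff]
    by_contra hne
    obtain ⟨w, hw, hw0⟩ := Submodule.exists_mem_ne_zero_of_ne_bot hne
    have hwn : 0 < ‖w‖ := norm_pos_iff.2 hw0
    have h1 := h ((γ / 2 / ‖w‖) • w) (smul_ne_zero (by positivity) hw0) (by
      intro l hl
      refine ⟨0, ?_⟩
      rw [real_inner_smul_left, Submodule.inner_left_of_mem_orthogonal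
        (Submodule.subset_span hl) hw]
      simp)
    rw [norm_smul, Real.norm_of_nonneg (by positivity), div_mul_cancel₀ _ hwn.ne'] at h1
    linarith
  have hZ : IsZLattice ℝ L := ⟨hspan⟩
  have hfin : Module.Finite ℤ L := ZLattice.module_finite ℝ L
  have hfree : Module.Free ℤ L := ZLattice.module_free ℝ L
  have hrk : finrank ℤ L = d := by rw [ZLattice.rank ℝ L, hV]
  let b0 : Basis (Fin d) ℤ L := Module.finBasisOfFinrankEq ℤ L hrk
  let b : Basis (Fin d) ℝ V := b0.ofZLatticeBasis ℝ L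
  let o : OrthonormalBasis (Fin d) ℝ V := (stdOrthonormalBasis ℝ V).reindex (finCongr hV)
  have hmem : ∀ k : Fin d → ℤ, ∑ j, (k j : ℝ) • b j ∈ L := by
    intro k
    refine Submodule.sum_mem _ fun j _ => ?_
    rw [Int.cast_smul_eq_zsmul]
    refine Submodule.smul_mem _ _ ?_
    simp only [b, Basis.ofZLatticeBasis_apply]
    exact (b0 j).2
  obtain ⟨k, hk0, hk⟩ := short_of_basis hd o b γ hγ
    (fun w hw0 hw => by
      refine h w hw0 fun l hl => ?_
      have h2 : l = ∑ j, ((b0.repr ⟨l, hl⟩ j : ℤ) : ℝ) • b j := by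
        conv_lhs => rw [← b.sum_repr l]
        refine Finset.sum_congr rfl fun j _ => ?_
        congr 1
        exact b0.ofZLatticeBasis_repr_apply ℝ L ⟨l, hl⟩ j
      rw [h2]
      exact hw _)
  have hne : ∑ j, (k j : ℝ) • b j ≠ 0 := by
    intro h0
    apply hk0
    ext j
    have := Fintype.linearIndependent_iff.1 b.linearIndependent (fun j => (k j : ℝ)) h0 j
    exact_mod_cast this
  have := hcon _ (hmem k) hne
  linarith

/-- covering radius bound -/
theorem cover (γ : ℝ) (hγ : 0 < γ) (d : ℕ) :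
    ∀ (V : Type) [NormedAddCommGroup V] [InnerProductSpace ℝ V] [FiniteDimensional ℝ V],
      finrank ℝ V = d → ∀ L : Submodule ℤ V,
      (∀ w : V, w ≠ 0 → (∀ l ∈ L, ∃ z : ℤ, ⟪w, l⟫ = (z : ℝ)) → γ ≤ ‖w‖) →
      ∀ v : V, ∃ l ∈ L, ‖v - l‖ ≤ (d : ℝ) ^ 2 / γ := by
  induction d with
  | zero =>
    intro V _ _ _ hV L _ v
    have : Subsingleton V := Module.finrank_zero_iff.1 hV
    refine ⟨0, L.zero_mem, ?_⟩
    rw [Subsingleton.elim (v - 0) 0]
    simp
  | succ d ih =>
    intro V _ _ _ hV L h v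
    obtain ⟨u, huL, hu0, hu⟩ := short_vec (Nat.succ_pos d) hV L γ hγ h
    have : Fact (finrank ℝ V = d + 1) := ⟨hV⟩
    let W : Submodule ℝ V := (ℝ ∙ u)ᗮ
    have hW : finrank ℝ W = d := Submodule.finrank_orthogonal_span_singleton hu0
    let p : V →ₗ[ℤ] W := (W.orthogonalProjectionOnto : V →ₗ[ℝ] W).restrictScalars ℤ
    have hp : ∀ x, p x = W.orthogonalProjectionOnto x := fun _ => rfl
    obtain ⟨l', hl', hl⟩ := ih W hW (L.map p) (by
      intro w hw0 hw
      have h1 := h (w : V) (fun h0 => hw0 (Subtype.ext h0)) (by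
        intro l hl
        obtain ⟨z, hz⟩ := hw (p l) (Submodule.mem_map_of_mem hl)
        refine ⟨z, ?_⟩
        rw [← hz, hp, Submodule.inner_orthogonalProjectionOnto_eq_of_mem_left])
      exact h1) (p v)
    obtain ⟨l, hlL, rfl⟩ := Submodule.mem_map.1 hl'
    have h2 : (v - l) - W.starProjection (v - l) ∈ (ℝ ∙ u) := by
      have h3 := W.sub_starProjection_mem_orthogonal (v - l)
      rwa [Submodule.orthogonal_orthogonal] at h3
    obtain ⟨t, ht⟩ := Submodule.mem_span_singleton.1 h2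
    have h4 : ‖W.starProjection (v - l)‖ ≤ (d : ℝ) ^ 2 / γ := by
      rw [← map_sub] at hl
      exact hl
    refine ⟨l + round t • u, L.add_mem hlL (L.smul_mem _ huL), ?_⟩
    have h5 : v - (l + round t • u) = W.starProjection (v - l) + (t - round t) • u := by
      rw [sub_smul, ht, Int.cast_smul_eq_zsmul]
      abel
    rw [h5]
    have h6 : ‖(t - round t) • u‖ ≤ 1 / 2 * (2 * ((d + 1 : ℕ) : ℝ) / γ) := by
      rw [norm_smul, Real.norm_eq_abs]
      exact mul_le_mul (abs_sub_round t) hu (norm_nonneg _) (by norm_num)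
    calc ‖W.starProjection (v - l) + (t - round t) • u‖
        ≤ (d : ℝ) ^ 2 / γ + 1 / 2 * (2 * ((d + 1 : ℕ) : ℝ) / γ) :=
          (norm_add_le _ _).trans (add_le_add h4 h6)
      _ = ((d : ℝ) ^ 2 + (d + 1)) / γ := by
          push_cast
          field_simp
      _ ≤ ((d + 1 : ℕ) : ℝ) ^ 2 / γ := by
          push_cast
          have : (0 : ℝ) ≤ d := Nat.cast_nonneg d
          exact div_le_div_of_nonneg_right (by nlinarith) hγ.le

theorem trans : Pool.Agent.H39Z.SSS.S_TRANS := by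
  classical
  intro n B γ hB hγ h v
  have hU : IsUnit B.det := isUnit_iff_ne_zero.2 hB
  let L : Submodule ℤ (EuclideanSpace ℝ (Fin n)) :=
    { carrier := {u | ∀ j, ∃ z : ℤ, (u.ofLp ᵥ* B) j = (z : ℝ)}
      add_mem' := by
        intro a b ha hb j
        obtain ⟨x, hx⟩ := ha j
        obtain ⟨y, hy⟩ := hb j
        refine ⟨x + y, ?_⟩
        rw [WithLp.ofLp_add, Matrix.add_vecMul, Pi.add_apply, hx, hy]
        push_cast
        rfl
      zero_mem' := by
        intro j
        refine ⟨0, ?_⟩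
        simp
      smul_mem' := by
        intro c a ha j
        obtain ⟨x, hx⟩ := ha j
        refine ⟨c * x, ?_⟩
        rw [← Int.cast_smul_eq_zsmul ℝ, WithLp.ofLp_smul, Matrix.smul_vecMul, Pi.smul_apply, hx]
        push_cast
        rfl }
  have hL : ∀ u : EuclideanSpace ℝ (Fin n),
      u ∈ L ↔ ∀ j, ∃ z : ℤ, (u.ofLp ᵥ* B) j = (z : ℝ) := fun _ => Iff.rfl
  obtain ⟨l, hl, hlv⟩ := cover γ hγ n (EuclideanSpace ℝ (Fin n)) (by simp) L (by
    intro w hw0 hw
    have h1 : ∀ j, ∃ z : ℤ, (B⁻¹ *ᵥ w.ofLp) j = (z : ℝ) := by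
      intro j
      obtain ⟨z, hz⟩ := hw (WithLp.toLp 2 ((Pi.single j (1 : ℝ) : Fin n → ℝ) ᵥ* B⁻¹)) (by
        rw [hL]
        intro i
        rw [WithLp.ofLp_toLp, Matrix.vecMul_vecMul, Matrix.nonsing_inv_mul B hU, Matrix.vecMul_one]
        by_cases hij : i = j
        · exact ⟨1, by simp [hij]⟩
        · exact ⟨0, by simp [hij]⟩)
      refine ⟨z, ?_⟩
      rw [← hz, EuclideanSpace.inner_eq_star_dotProduct, WithLp.ofLp_toLp, star_trivial,
        ← Matrix.dotProduct_mulVec, single_dotProduct, one_mul]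
    choose φ hφ using h1
    have h2 : (B *ᵥ fun j => (φ j : ℝ)) = w.ofLp := by
      have h3 : (fun j => (φ j : ℝ)) = B⁻¹ *ᵥ w.ofLp := funext fun j => (hφ j).symm
      rw [h3, Matrix.mulVec_mulVec, Matrix.mul_nonsing_inv B hU, Matrix.one_mulVec]
    have hφ0 : φ ≠ 0 := by
      intro h0
      apply hw0
      have h4 : (fun j => (φ j : ℝ)) = 0 := by
        funext j
        simp [h0]
      rw [h4, Matrix.mulVec_zero] at h2
      ext j
      exact (congrFun h2 j).symm
    obtain ⟨i, hi⟩ := h φ hφ0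
    rw [h2] at hi
    exact hi.trans (by simpa using PiLp.norm_apply_le w i))
    (WithLp.toLp 2 (v ᵥ* B⁻¹))
  choose z hz using (hL l).1 hl
  refine ⟨v ᵥ* B⁻¹ - l.ofLp, z, fun i => ?_, ?_⟩
  · have h5 := PiLp.norm_apply_le (WithLp.toLp 2 (v ᵥ* B⁻¹) - l) i
    have h6 : (n : ℝ) ^ 2 / γ ≤ 2 * (n : ℝ) ^ 2 / γ :=
      div_le_div_of_nonneg_right (by nlinarith [sq_nonneg (n : ℝ)]) hγ.le
    have h7 : |(v ᵥ* B⁻¹ - l.ofLp) i| ≤ ‖WithLp.toLp 2 (v ᵥ* B⁻¹) - l‖ := by simpa using h5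
    linarith
  · have h8 : (fun j => (z j : ℝ)) = l.ofLp ᵥ* B := funext fun j => (hz j).symm
    rw [h8, Matrix.sub_vecMul, Matrix.vecMul_vecMul, Matrix.nonsing_inv_mul B hU,
      Matrix.vecMul_one, sub_add_cancel]

end Pool.Agent.H187Z.Trans
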